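import Mathlib
import Pool.Agent.Helper16.BBCover
import Pool.Agent.Helper16.BBProj
import Pool.Agent.Helper16.H1e
import Pool.Agent.Helper56.BBTrdeg

set_option autoImplicit false
set_option linter.unusedSectionVars false

/-! Theorem F for `MP_0b9e0b_ag`: shared definitions. -/

namespace Pool.Agent.ThF

open Pool.Agent.Helper16 Pool.Agent.Helper16.BB Polynomial

variable {k : Type} [Field k]

/-- The element `t` in an extension field of `k(t)`. -/
noncomputable abbrev tt (k F : Type) [Field k] [Field F] [Algebra (RatFunc k) F] : F :=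
  algebraMap (RatFunc k) F RatFunc.X

/-- The homogenisation of a polynomial in one variable at `(A, B)`. -/
theorem exists_homog (c : k[X]) (σ : Type) : ∃ H : MvPolynomial (Bool ⊕ σ) k,
    ∀ (F : Type) [Field F] [Algebra k F] (a b t : F) (x : σ → F), t * b = a →
      MvPolynomial.aeval (Sum.elim (fun e : Bool => cond e a b) x) H =
        b ^ c.natDegree * aeval t c := by
  refine ⟨∑ i ∈ Finset.range (c.natDegree + 1), MvPolynomial.C (c.coeff i) *
    MvPolynomial.X (Sum.inl true) ^ i * MvPolynomial.X (Sum.inl false) ^ (c.natDegree - i), ?_⟩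
  intro F _ _ a b t x ht
  rw [map_sum, aeval_eq_sum_range, Finset.mul_sum]
  refine Finset.sum_congr rfl fun i hi => ?_
  have hi' : i ≤ c.natDegree := Nat.lt_succ_iff.1 (Finset.mem_range.1 hi)
  simp only [map_mul, map_pow, MvPolynomial.aeval_X, MvPolynomial.algHom_C, Sum.elim_inl,
    cond_true, cond_false]
  rw [← ht, Algebra.smul_def, mul_pow]
  have h1 : b ^ c.natDegree = b ^ i * b ^ (c.natDegree - i) := by
    rw [← pow_add, Nat.add_sub_cancel' hi']
  rw [h1]
  ring

theorem exists_bih_aux {σ : Type} (Q : MvPolynomial σ (RatFunc k)) :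
    ∃ (G : MvPolynomial (Bool ⊕ σ) k) (c : k[X]) (n : ℕ), c ≠ 0 ∧
    ∀ (F : Type) [Field F] [Algebra k F] [Algebra (RatFunc k) F] [IsScalarTower k (RatFunc k) F]
      (a b : F) (x : σ → F), tt k F * b = a →
      MvPolynomial.aeval (Sum.elim (fun e : Bool => cond e a b) x) G =
        b ^ n * aeval (tt k F) c * MvPolynomial.aeval x Q := by
  induction Q using MvPolynomial.induction_on with
  | C q =>
    obtain ⟨H, hH⟩ := exists_homog q.num σ
    refine ⟨H, q.denom, q.num.natDegree, q.denom_ne_zero, ?_⟩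
    intro F _ _ _ _ a b x ht
    rw [hH F a b (tt k F) x ht, mul_assoc]
    congr 1
    have h1 : ∀ p : k[X], aeval (tt k F) p = algebraMap (RatFunc k) F (algebraMap k[X] (RatFunc k) p) := by
      intro p
      rw [tt, aeval_algebraMap_apply]
      congr 1
      have := RatFunc.aeval_X_left_eq_algebraMap p
      exact this
    have h3 : algebraMap k[X] (RatFunc k) q.denom ≠ 0 := RatFunc.algebraMap_ne_zero q.denom_ne_zero
    have h2 : algebraMap k[X] (RatFunc k) q.denom * q = algebraMap k[X] (RatFunc k) q.num := by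
      rw [mul_comm, ← eq_div_iff h3]
      exact (RatFunc.num_div_denom q).symm
    rw [MvPolynomial.algHom_C, h1, h1, ← map_mul, h2]
  | add P Q hP hQ =>
    obtain ⟨G1, c1, n1, hc1, h1⟩ := hP
    obtain ⟨G2, c2, n2, hc2, h2⟩ := hQ
    obtain ⟨H1, hH1⟩ := exists_homog c1 σ
    obtain ⟨H2, hH2⟩ := exists_homog c2 σ
    refine ⟨G1 * H2 * MvPolynomial.X (Sum.inl false) ^ (n2 + c1.natDegree) +
      G2 * H1 * MvPolynomial.X (Sum.inl false) ^ (n1 + c2.natDegree), c1 * c2,
      n1 + n2 + c1.natDegree + c2.natDegree, mul_ne_zero hc1 hc2, ?_⟩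
    intro F _ _ _ _ a b x ht
    rw [map_add, map_mul, map_mul, map_mul, map_mul, h1 F a b x ht, h2 F a b x ht,
      hH1 F a b (tt k F) x ht, hH2 F a b (tt k F) x ht, map_mul, map_add, map_pow, map_pow,
      MvPolynomial.aeval_X, Sum.elim_inl, cond_false]
    ring
  | mul_X P j hP =>
    obtain ⟨G1, c1, n1, hc1, h1⟩ := hP
    refine ⟨G1 * MvPolynomial.X (Sum.inr j), c1, n1, hc1, ?_⟩
    intro F _ _ _ _ a b x ht
    rw [map_mul, h1 F a b x ht, map_mul, MvPolynomial.aeval_X, MvPolynomial.aeval_X, Sum.elim_inr]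
    ring

theorem aeval_tt_ne_zero {F : Type} [Field F] [Algebra k F] [Algebra (RatFunc k) F]
    [IsScalarTower k (RatFunc k) F] (c : k[X]) (hc : c ≠ 0) : aeval (tt k F) c ≠ 0 := by
  have h1 : aeval (tt k F) c = algebraMap (RatFunc k) F (algebraMap k[X] (RatFunc k) c) := by
    rw [tt, aeval_algebraMap_apply]
    congr 1
    exact RatFunc.aeval_X_left_eq_algebraMap c
  rw [h1]
  have h3 : algebraMap k[X] (RatFunc k) c ≠ 0 := RatFunc.algebraMap_ne_zero hc
  simpa using h3

theorem exists_bih {σ : Type} (Q : MvPolynomial σ (RatFunc k)) :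
    ∃ G : MvPolynomial (Bool ⊕ σ) k,
    ∀ (F : Type) [Field F] [Algebra k F] [Algebra (RatFunc k) F] [IsScalarTower k (RatFunc k) F]
      (a b : F) (x : σ → F), b ≠ 0 → tt k F * b = a →
      (MvPolynomial.aeval (Sum.elim (fun e : Bool => cond e a b) x) G = 0 ↔
        MvPolynomial.aeval x Q = 0) := by
  obtain ⟨G, c, n, hc, h⟩ := exists_bih_aux Q
  refine ⟨G, ?_⟩
  intro F _ _ _ _ a b x hb ht
  rw [h F a b x ht]
  have h1 : b ^ n * aeval (tt k F) c ≠ 0 := mul_ne_zero (pow_ne_zero _ hb) (aeval_tt_ne_zero c hc)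
  constructor
  · intro h2
    exact (mul_eq_zero.1 h2).resolve_left h1
  · intro h2
    rw [h2, mul_zero]

/-- A polynomial over `k` in two variables `A, B` and the coordinates whose vanishing at
`(a, b, x)`, `t = a / b`, is equivalent to the vanishing of `Q` at `x`. -/
noncomputable def bih {σ : Type} (Q : MvPolynomial σ (RatFunc k)) : MvPolynomial (Bool ⊕ σ) k :=
  (exists_bih Q).choose

theorem aeval_bih {σ : Type} (Q : MvPolynomial σ (RatFunc k)) {F : Type} [Field F] [Algebra k F]
    [Algebra (RatFunc k) F] [IsScalarTower k (RatFunc k) F] {a b : F} {x : σ → F} (hb : b ≠ 0)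
    (ht : tt k F * b = a) :
    MvPolynomial.aeval (Sum.elim (fun e : Bool => cond e a b) x) (bih Q) = 0 ↔
      MvPolynomial.aeval x Q = 0 :=
  (exists_bih Q).choose_spec F a b x hb ht

/-- A family, parametrised by a `k`-algebra `A`, of rational curves `s ↦ P(s)` on `X` with
`t = α(s) / β(s)`. -/
def IsFam {σ : Type} (I : Set (MvPolynomial σ (RatFunc k))) {A : Type} [CommRing A] [Algebra k A]
    (α β : A[X]) (P : σ → A[X]) : Prop :=
  ∀ Q ∈ I, MvPolynomial.aeval (Sum.elim (fun e : Bool => cond e α β) P) (bih Q) = 0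

theorem IsFam.map {σ : Type} {I : Set (MvPolynomial σ (RatFunc k))} {A A' : Type} [CommRing A]
    [Algebra k A] [CommRing A'] [Algebra k A'] {α β : A[X]} {P : σ → A[X]} (h : IsFam I α β P)
    (f : A →ₐ[k] A') : IsFam I (α.map (f : A →+* A')) (β.map (f : A →+* A'))
      (fun j => (P j).map (f : A →+* A')) := by
  intro Q hQ
  have h1 := congrArg (Polynomial.mapAlgHom f) (h Q hQ)
  rw [map_zero, MvPolynomial.comp_aeval_apply] at h1
  convert h1 using 3
  funext e
  rcases e with e | e
  · cases e <;> simp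
  · simp

theorem IsFam.of_map {σ : Type} {I : Set (MvPolynomial σ (RatFunc k))} {A A' : Type} [CommRing A]
    [Algebra k A] [CommRing A'] [Algebra k A'] {α β : A[X]} {P : σ → A[X]}
    (f : A →ₐ[k] A') (hf : Function.Injective f)
    (h : IsFam I (α.map (f : A →+* A')) (β.map (f : A →+* A'))
      (fun j => (P j).map (f : A →+* A'))) : IsFam I α β P := by
  intro Q hQ
  apply Polynomial.map_injective (f : A →+* A') hf
  rw [Polynomial.map_zero]
  rw [← h Q hQ]
  change Polynomial.mapAlgHom f _ = _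
  rw [MvPolynomial.comp_aeval_apply]
  congr 2
  funext e
  rcases e with e | e
  · cases e <;> simp
  · simp

/-- The value of a polynomial over the algebraic closure of `k` at a point of the algebraic
closure of `k(t)`. -/
noncomputable def ev (F : (AlgebraicClosure k)[X]) (s : AlgebraicClosure (RatFunc k)) :
    AlgebraicClosure (RatFunc k) := F.eval₂ (jc k).toRingHom s

/-- `s` is a root of `A - t B`. -/
def IsRt (A B : (AlgebraicClosure k)[X]) (s : AlgebraicClosure (RatFunc k)) : Prop :=
  ev B s ≠ 0 ∧ tt k (AlgebraicClosure (RatFunc k)) * ev B s = ev A s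

/-- `A, B, Q` over the algebraic closure of `k` are the reduction at the place `u` of the
polynomial `F`. -/
def Red {E : Type} [Field E] [Algebra k E] (u : Place k E)
    (ρ : u.resField →ₐ[k] AlgebraicClosure k) (F : E[X]) (G : (AlgebraicClosure k)[X]) : Prop :=
  ∀ i, u.val (F.coeff i) ≤ 1 ∧ ρ (u.res (F.coeff i)) = G.coeff i

theorem wOne_hom {K σ : Type} [Field K] {P : MvPolynomial σ K} {d : ℕ} (h : P.IsHomogeneous d) :
    P.IsWeightedHomogeneous (wOne σ) (fun _ => d) := by
  intro m hm
  funext i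
  have h1 : Finsupp.weight (1 : σ → ℕ) m = d := h hm
  rw [Finsupp.weight_apply, Finsupp.sum] at h1 ⊢
  rw [Finset.sum_apply, ← h1]
  refine Finset.sum_congr rfl fun j _ => ?_
  simp [wOne]

/-- Existence of specialisations, for projective varieties; any embedding of the residue field may
be used. -/
theorem exists_isSp_wOne {K σ : Type} [Field K] [Finite σ] {I : Set (MvPolynomial σ K)}
    (hI : ∀ P ∈ I, ∃ d, P.IsHomogeneous d) {N : Type} [Field N] [Algebra K N]
    (v : Place K N) (z : σ → N) (hz : IsPoint (wOne σ) I z)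
    (φ : v.resField →ₐ[K] AlgebraicClosure K) :
    ∃ m : σ, z m ≠ 0 ∧ (∀ j, v.val (z j / z m) ≤ 1) ∧
      IsSp (wOne σ) I v z (fun j => φ (v.res (z j / z m))) := by
  have hz0 := ((isPoint_wOne I z).1 hz).1
  obtain ⟨m, hm, h1⟩ := exists_max_coord v z hz0
  refine ⟨m, hm, h1, ?_⟩
  have h2 : ∀ j, scale (wOne σ) (fun _ => (z m)⁻¹) z j = z j / z m := by
    intro j
    rw [scale_wOne, Pi.smul_apply, smul_eq_mul, inv_mul_eq_div]
  have h3 := isSp_of_prim (w := wOne σ) (I := I) (fun P hP => by
    obtain ⟨d, hd⟩ := hI P hP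
    exact ⟨_, wOne_hom hd⟩) v z hz (fun _ => (z m)⁻¹) (fun _ => inv_ne_zero hm)
    (fun j => by rw [h2]; exact h1 j) (fun i => ⟨m, by
      refine ⟨?_, by rw [h2, div_self hm, map_one]⟩
      funext i'
      simp [wOne]⟩) φ
  simpa only [h2] using h3

/-- Multiplying coordinates by a nonzero constant does not change the class. -/
theorem cls_const_mul {K σ : Type} [Field K] [Finite σ] {I : Set (MvPolynomial σ K)}
    (hI : ∀ P ∈ I, ∃ d, P.IsHomogeneous d)
    (c : AlgebraicClosure K) (hc : c ≠ 0) (y : σ → AlgebraicClosure K)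
    (hy : IsPoint (wOne σ) I (fun j => c * y j)) :
    IsPoint (wOne σ) I y ∧ cls (wOne σ) I (fun j => c * y j) = cls (wOne σ) I y := by
  have h1 : IsPoint (wOne σ) I y := by
    rw [isPoint_wOne] at hy ⊢
    refine ⟨?_, fun P hP => ?_⟩
    · rintro rfl
      apply hy.1
      funext j
      simp
    · obtain ⟨d, hd⟩ := hI P hP
      have h2 := hy.2 P hP
      have h3 := aeval_scale (wOne_hom hd) (fun _ : Unit => c) y
      rw [scale_wOne] at h3
      change MvPolynomial.aeval (fun j => c * y j) P = _ at h3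
      rw [h2] at h3
      have h4 : (∏ _i : Unit, c ^ d) ≠ 0 := by simpa using pow_ne_zero d hc
      exact (mul_eq_zero.1 h3.symm).resolve_left h4
  exact ⟨h1, cls_smul c hc y h1⟩

end Pool.Agent.ThF
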