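import Pool.Agent.Helper30.BBGeo
import Pool.Agent.Helper95.AlgConnect

/-!
Module F8 of Theorem F for `MP_0b9e0b_ag`: a function on the points of an affine variety which is
constant along curves takes finitely many values.
-/

set_option autoImplicit false

namespace Pool.Agent.ThF

open Pool.Agent.Helper16

/-- One component. -/
theorem conn_component {k ι T : Type} [Field k] [Finite ι] (𝒬 : Set (MvPolynomial ι k))
    (θ : (ι → AlgebraicClosure k) → T)
    (h : ∀ (E : Type) [Field E] [Algebra k E], IsFunctionField k E → ∀ ξ : ι → E,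
      (∀ Q ∈ 𝒬, MvPolynomial.aeval ξ Q = 0) → ∀ (u u' : Place k E)
      (ρ : u.resField →ₐ[k] AlgebraicClosure k) (ρ' : u'.resField →ₐ[k] AlgebraicClosure k)
      (c c' : ι → AlgebraicClosure k), (∀ i, u.val (ξ i) ≤ 1 ∧ ρ (u.res (ξ i)) = c i) →
      (∀ i, u'.val (ξ i) ≤ 1 ∧ ρ' (u'.res (ξ i)) = c' i) → θ c = θ c')
    (q : Ideal (MvPolynomial ι (AlgebraicClosure k))) (hq : q.IsPrime)
    (hq𝒬 : ∀ Q ∈ 𝒬, MvPolynomial.map (algebraMap k (AlgebraicClosure k)) Q ∈ q)
    (c c' : ι → AlgebraicClosure k) (hc : ∀ Q ∈ q, MvPolynomial.aeval c Q = 0)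
    (hc' : ∀ Q ∈ q, MvPolynomial.aeval c' Q = 0) : θ c = θ c' := by
  classical
  have := hq
  let R : Type := MvPolynomial ι (AlgebraicClosure k) ⧸ q
  let φ : MvPolynomial ι (AlgebraicClosure k) →ₐ[AlgebraicClosure k] R :=
    Ideal.Quotient.mkₐ (AlgebraicClosure k) q
  have hφ : Function.Surjective φ := Ideal.Quotient.mkₐ_surjective (AlgebraicClosure k) q
  have : Algebra.FiniteType (AlgebraicClosure k) R := Algebra.FiniteType.of_surjective φ hφ
  let ev : (R →ₐ[AlgebraicClosure k] AlgebraicClosure k) → ι → AlgebraicClosure k :=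
    fun u o => u (φ (MvPolynomial.X o))
  have hev : ∀ u (Q : MvPolynomial ι (AlgebraicClosure k)),
      MvPolynomial.aeval (ev u) Q = u (φ Q) := by
    intro u Q
    have h1 : MvPolynomial.aeval (ev u) = u.comp φ := by
      apply MvPolynomial.algHom_ext
      intro o
      simp [ev]
    exact DFunLike.congr_fun h1 Q
  have hrel : ∀ u v : R →ₐ[AlgebraicClosure k] AlgebraicClosure k, θ (ev u) = θ (ev v) := by
    apply Pool.Agent.Helper95.AlgConnect.connect (κ := AlgebraicClosure k) (R := R)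
      (fun u v => θ (ev u) = θ (ev v)) ⟨fun _ => rfl, fun h => h.symm, fun h h' => h.trans h'⟩
    intro 𝔭 h𝔭 htr𝔭 u v hu hv
    have := h𝔭
    let ψ : MvPolynomial ι (AlgebraicClosure k) →ₐ[AlgebraicClosure k] (R ⧸ 𝔭) :=
      (Ideal.Quotient.mkₐ (AlgebraicClosure k) 𝔭).comp φ
    have hψ : Function.Surjective ψ :=
      (Ideal.Quotient.mkₐ_surjective (AlgebraicClosure k) 𝔭).comp hφ
    have hψ0 : ∀ x, x ∈ RingHom.ker ψ ↔ φ x ∈ 𝔭 := fun x => by
      rw [RingHom.mem_ker]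
      exact Ideal.Quotient.eq_zero_iff_mem
    have htr' : Algebra.trdeg (AlgebraicClosure k)
        (MvPolynomial ι (AlgebraicClosure k) ⧸ RingHom.ker ψ) = 1 := by
      rw [← htr𝔭]
      exact (Ideal.quotientKerAlgEquivOfSurjective hψ).trdeg_eq
    obtain ⟨E, _, _, ξ, hE, hξ, -, hpl⟩ := Pool.Agent.Helper30.BBGeo.exists_const_curve
      (RingHom.ker ψ) (RingHom.ker_isPrime ψ) htr'
    have hIξ : ∀ Q ∈ 𝒬, MvPolynomial.aeval ξ Q = 0 := by
      intro Q hQ
      rw [hξ, hψ0]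
      have h2 : φ (MvPolynomial.map (algebraMap k (AlgebraicClosure k)) Q) = 0 :=
        Ideal.Quotient.eq_zero_iff_mem.2 (hq𝒬 Q hQ)
      rw [h2]
      exact zero_mem _
    have hsp : ∀ u : R →ₐ[AlgebraicClosure k] AlgebraicClosure k, 𝔭 ≤ RingHom.ker u →
        ∃ (w : Place k E) (ρ : w.resField →ₐ[k] AlgebraicClosure k),
          ∀ j, w.val (ξ j) ≤ 1 ∧ ρ (w.res (ξ j)) = ev u j := by
      intro u hu
      exact hpl (ev u) (fun Q hQ => by
        rw [hev]
        exact hu ((hψ0 Q).1 hQ))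
    obtain ⟨w, ρ, hw⟩ := hsp u hu
    obtain ⟨w', ρ', hw'⟩ := hsp v hv
    exact h E hE ξ hIξ w w' ρ ρ' (ev u) (ev v) hw hw'
  have hlift : ∀ d : ι → AlgebraicClosure k, (∀ Q ∈ q, MvPolynomial.aeval d Q = 0) →
      ∃ u : R →ₐ[AlgebraicClosure k] AlgebraicClosure k, ev u = d := by
    intro d hd
    refine ⟨Ideal.Quotient.liftₐ q (MvPolynomial.aeval d) hd, ?_⟩
    funext o
    have h1 : (Ideal.Quotient.liftₐ q (MvPolynomial.aeval d) hd).comp φ = MvPolynomial.aeval d :=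
      Ideal.Quotient.liftₐ_comp q (MvPolynomial.aeval d) hd
    have h2 := DFunLike.congr_fun h1 (MvPolynomial.X o)
    rw [MvPolynomial.aeval_X] at h2
    exact h2
  obtain ⟨u, hu⟩ := hlift c hc
  obtain ⟨u', hu'⟩ := hlift c' hc'
  rw [← hu, ← hu']
  exact hrel u u'

/-- Module F8. A function on the points of an affine variety over `k` which is constant along
curves takes finitely many values. -/
theorem finite_image_of_curves {k ι T : Type} [Field k] [Finite ι] (𝒬 : Set (MvPolynomial ι k))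
    (θ : (ι → AlgebraicClosure k) → T)
    (h : ∀ (E : Type) [Field E] [Algebra k E], IsFunctionField k E → ∀ ξ : ι → E,
      (∀ Q ∈ 𝒬, MvPolynomial.aeval ξ Q = 0) → ∀ (u u' : Place k E)
      (ρ : u.resField →ₐ[k] AlgebraicClosure k) (ρ' : u'.resField →ₐ[k] AlgebraicClosure k)
      (c c' : ι → AlgebraicClosure k), (∀ i, u.val (ξ i) ≤ 1 ∧ ρ (u.res (ξ i)) = c i) →
      (∀ i, u'.val (ξ i) ≤ 1 ∧ ρ' (u'.res (ξ i)) = c' i) → θ c = θ c') :
    (θ '' {c | ∀ Q ∈ 𝒬, MvPolynomial.aeval c Q = 0}).Finite := by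
  classical
  let J : Ideal (MvPolynomial ι (AlgebraicClosure k)) :=
    Ideal.span ((MvPolynomial.map (algebraMap k (AlgebraicClosure k))) '' 𝒬)
  have hmin : J.minimalPrimes.Finite := J.finite_minimalPrimes_of_isNoetherianRing
  have hsub : θ '' {c | ∀ Q ∈ 𝒬, MvPolynomial.aeval c Q = 0} ⊆
      ⋃ q ∈ J.minimalPrimes, θ '' {c | ∀ Q ∈ q, MvPolynomial.aeval c Q = 0} := by
    rintro _ ⟨c, hc, rfl⟩
    have hker : (RingHom.ker (MvPolynomial.aeval c :
        MvPolynomial ι (AlgebraicClosure k) →ₐ[AlgebraicClosure k] AlgebraicClosure k)).IsPrime :=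
      RingHom.ker_isPrime _
    have hJ : J ≤ RingHom.ker (MvPolynomial.aeval c :
        MvPolynomial ι (AlgebraicClosure k) →ₐ[AlgebraicClosure k] AlgebraicClosure k) := by
      rw [Ideal.span_le]
      rintro _ ⟨Q, hQ, rfl⟩
      change MvPolynomial.aeval c (MvPolynomial.map (algebraMap k (AlgebraicClosure k)) Q) = 0
      rw [MvPolynomial.aeval_map_algebraMap]
      exact hc Q hQ
    obtain ⟨q, hq, hqc⟩ := Ideal.exists_minimalPrimes_le hJ
    refine Set.mem_iUnion₂.2 ⟨q, hq, c, fun Q hQ => ?_, rfl⟩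
    exact hqc hQ
  refine Set.Finite.subset (Set.Finite.biUnion hmin fun q hq => ?_) hsub
  apply Set.Subsingleton.finite
  rintro _ ⟨c, hc, rfl⟩ _ ⟨c', hc', rfl⟩
  exact conn_component 𝒬 θ h q hq.1.1
    (fun Q hQ => hq.1.2 (Ideal.subset_span ⟨Q, hQ, rfl⟩)) c c' hc hc'

end Pool.Agent.ThF
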