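import Mathlib

/-!
# Extension of homomorphisms over a dense open subset (module THF-F1)
-/

set_option autoImplicit false

namespace Pool.Agent.ThF

/-- Extension of a homomorphism to an integral extension. -/
theorem extend_integral {C B Ω : Type} [CommRing C] [CommRing B] [Algebra C B]
    [Algebra.IsIntegral C B] [Field Ω] [IsAlgClosed Ω]
    (hinj : Function.Injective (algebraMap C B)) (χ : C →+* Ω) :
    ∃ ψ : B →+* Ω, ∀ a, ψ (algebraMap C B a) = χ a := by
  set P : Ideal C := RingHom.ker χ with hP
  haveI : P.IsPrime := RingHom.ker_isPrime χ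
  obtain ⟨Q, -, hQp, hQ⟩ := Ideal.exists_ideal_over_prime_of_isIntegral P (⊥ : Ideal B)
    (by
      intro x hx
      rw [Ideal.mem_comap, Ideal.mem_bot] at hx
      have : x = 0 := hinj (by rw [hx, map_zero])
      rw [this]; exact P.zero_mem)
  haveI : Q.LiesOver P := ⟨hQ.symm⟩
  letI : Algebra (C ⧸ P) Ω := (RingHom.kerLift χ).toAlgebra
  haveI : Module.IsTorsionFree (C ⧸ P) Ω := by
    have hf : FaithfulSMul (C ⧸ P) Ω := by
      rw [faithfulSMul_iff_algebraMap_injective]
      exact RingHom.kerLift_injective χ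
    infer_instance
  haveI : Module.IsTorsionFree (C ⧸ P) (B ⧸ Q) := by
    infer_instance
  haveI : Algebra.IsIntegral (C ⧸ P) (B ⧸ Q) := by
    infer_instance
  let l : (B ⧸ Q) →ₐ[C ⧸ P] Ω := IsAlgClosed.lift
  refine ⟨l.toRingHom.comp (Ideal.Quotient.mk Q), ?_⟩
  intro a
  have h1 := l.commutes (Ideal.Quotient.mk P a)
  exact h1

theorem extend_aux {C D E Ω : Type} [CommRing C] [IsDomain C] [CommRing D] [Algebra C D]
    [Field E] [Algebra C E] [Field Ω] [IsAlgClosed Ω]
    (hinj : Function.Injective (algebraMap C E)) (φ : D →ₐ[C] E) (s : Finset D)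
    (hs : Algebra.adjoin C (s : Set D) = ⊤) (c : C) (hc : ∀ x ∈ s, IsIntegral C (c • φ x))
    (χ : C →+* Ω) (hχ : χ c ≠ 0) : ∃ ψ : D →+* Ω, ∀ a, ψ (algebraMap C D a) = χ a := by
  classical
  have hc0 : c ≠ 0 := by rintro rfl; exact hχ (map_zero χ)
  have hcE : algebraMap C E c ≠ 0 := by
    intro h
    exact hc0 (hinj (by rw [h, map_zero]))
  let B := integralClosure C E
  have hBinj : Function.Injective (algebraMap C B) := by
    intro a b hab
    apply hinj
    have := congrArg (algebraMap B E) hab
    rwa [← IsScalarTower.algebraMap_apply, ← IsScalarTower.algebraMap_apply] at this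
  obtain ⟨ψB, hψB⟩ := extend_integral hBinj χ
  -- localise at `c`
  let cB : B := algebraMap C B c
  let L := Localization.Away cB
  let iE : L →+* E := IsLocalization.Away.lift (S := L) cB (g := algebraMap B E) (by
    rw [isUnit_iff_ne_zero]
    change algebraMap B E (algebraMap C B c) ≠ 0
    rwa [← IsScalarTower.algebraMap_apply])
  let iΩ : L →+* Ω := IsLocalization.Away.lift (S := L) cB (g := ψB) (by
    rw [isUnit_iff_ne_zero]
    change ψB (algebraMap C B c) ≠ 0
    rwa [hψB])
  have hiE : ∀ b : B, iE (algebraMap B L b) = algebraMap B E b := fun b =>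
    IsLocalization.Away.lift_eq cB _ b
  have hiΩ : ∀ b : B, iΩ (algebraMap B L b) = ψB b := fun b =>
    IsLocalization.Away.lift_eq cB _ b
  have hiEinj : Function.Injective iE := by
    rw [injective_iff_map_eq_zero]
    intro z hz
    obtain ⟨⟨b, ⟨_, n, rfl⟩⟩, hb⟩ := IsLocalization.surj (Submonoid.powers cB) z
    have h1 : algebraMap B E b = 0 := by
      rw [← hiE, ← hb, map_mul, hz, zero_mul]
    have h2 : b = 0 := Subtype.ext h1
    rw [h2, map_zero] at hb
    have h3 : IsUnit (algebraMap B L (cB ^ n)) :=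
      IsLocalization.map_units L (⟨cB ^ n, n, rfl⟩ : Submonoid.powers cB)
    exact (h3.mul_left_eq_zero).mp hb
  -- range of `iE`
  let iEa : L →ₐ[C] E := { iE with
    commutes' := by
      intro a
      change iE (algebraMap C L a) = algebraMap C E a
      rw [IsScalarTower.algebraMap_apply C B L, hiE, ← IsScalarTower.algebraMap_apply] }
  have hrange : ∀ x : D, φ x ∈ iEa.range := by
    have h1 : Algebra.adjoin C (s : Set D) ≤ iEa.range.comap φ := by
      rw [Algebra.adjoin_le_iff]
      intro x hx
      rw [SetLike.mem_coe, Subalgebra.mem_comap]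
      let b : B := ⟨c • φ x, hc x hx⟩
      have hu : IsUnit (algebraMap B L cB) :=
        IsLocalization.map_units L (⟨cB, 1, by simp⟩ : Submonoid.powers cB)
      obtain ⟨u, hu'⟩ := hu
      refine ⟨algebraMap B L b * ↑u⁻¹, ?_⟩
      change iE (algebraMap B L b * ↑u⁻¹) = φ x
      have h2 : iE (↑u⁻¹ : L) * algebraMap C E c = 1 := by
        have h3 : iE (↑u : L) = algebraMap C E c := by
          rw [hu', hiE]
          change algebraMap B E (algebraMap C B c) = _
          rw [← IsScalarTower.algebraMap_apply]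
        rw [← h3, ← map_mul]
        simp
      rw [map_mul, hiE]
      change (c • φ x) * iE (↑u⁻¹ : L) = φ x
      rw [Algebra.smul_def]
      linear_combination (φ x) * h2
    rw [hs] at h1
    intro x
    exact h1 (Algebra.mem_top (x := x))
  let e : L ≃ₐ[C] iEa.range := AlgEquiv.ofInjective iEa hiEinj
  let φ' : D →ₐ[C] iEa.range := φ.codRestrict iEa.range hrange
  refine ⟨iΩ.comp ((e.symm : iEa.range →ₐ[C] L).toRingHom.comp φ'.toRingHom), ?_⟩
  intro a
  change iΩ (e.symm (φ' (algebraMap C D a))) = χ a
  rw [AlgHom.commutes, AlgEquiv.commutes, IsScalarTower.algebraMap_apply C B L, hiΩ, hψB]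

/-- Module F1. Extension of homomorphisms over a nonempty open subset. -/
theorem exists_extend {K Ω C D : Type} [Field K] [Field Ω] [IsAlgClosed Ω] [CommRing C] [IsDomain C]
    [CommRing D] [IsDomain D] [Algebra K C] [Algebra K D] [Algebra C D] [IsScalarTower K C D]
    [Algebra K Ω] [Algebra.FiniteType C D] (hinj : Function.Injective (algebraMap C D)) :
    ∃ c : C, c ≠ 0 ∧ ∀ χ : C →ₐ[K] Ω, χ c ≠ 0 →
      ∃ ψ : D →ₐ[K] Ω, ∀ a, ψ (algebraMap C D a) = χ a := by
  classical
  let F := FractionRing C
  let T := TensorProduct C F D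
  -- nontriviality
  haveI : Nontrivial T := by
    let FD := FractionRing D
    have hCFD : Function.Injective (algebraMap C FD) := by
      rw [IsScalarTower.algebraMap_eq C D FD]
      exact (IsFractionRing.injective D FD).comp hinj
    let f : F →ₐ[C] FD := IsFractionRing.liftAlgHom (g := Algebra.ofId C FD) hCFD
    let gg : D →ₐ[C] FD := IsScalarTower.toAlgHom C D FD
    let t : T →ₐ[C] FD := Algebra.TensorProduct.lift f gg (fun _ _ => Commute.all _ _)
    exact RingHom.domain_nontrivial t.toRingHom
  obtain ⟨m, hm⟩ := Ideal.exists_maximal T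
  let E := T ⧸ m
  letI : Field E := Ideal.Quotient.field m
  haveI : Algebra.FiniteType F E := by
    exact Algebra.FiniteType.trans (S := T) inferInstance inferInstance
  haveI : Module.Finite F E := finite_of_finite_type_of_isJacobsonRing F E
  haveI : Algebra.IsAlgebraic F E := inferInstance
  haveI : Algebra.IsAlgebraic C E := by
    exact (IsFractionRing.comap_isAlgebraic_iff (A := C) (K := F) (C := E)).mpr inferInstance
  have hCE : Function.Injective (algebraMap C E) := by
    rw [IsScalarTower.algebraMap_eq C F E]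
    exact (algebraMap F E).injective.comp (IsFractionRing.injective C F)
  let φ : D →ₐ[C] E := ((Ideal.Quotient.mkₐ C m)).comp
    (Algebra.TensorProduct.includeRight : D →ₐ[C] T)
  obtain ⟨s, hs⟩ := (Algebra.FiniteType.out : (⊤ : Subalgebra C D).FG)
  obtain ⟨c, hc0, hc⟩ := Algebra.IsAlgebraic.exists_integral_multiples C (s.image φ)
  refine ⟨c, hc0, ?_⟩
  intro χ hχ
  obtain ⟨ψ, hψ⟩ := extend_aux hCE φ s hs c
    (fun x hx => hc _ (Finset.mem_image_of_mem _ hx)) χ.toRingHom hχ
  refine ⟨{ ψ with
    commutes' := by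
      intro k
      change ψ (algebraMap K D k) = algebraMap K Ω k
      rw [IsScalarTower.algebraMap_apply K C D, hψ]
      exact χ.commutes k }, ?_⟩
  intro a
  exact hψ a

end Pool.Agent.ThF
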