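import Pool.Agent.ThF.Defs
import Pool.Agent.ThF.Extend

/-!
# Generic points lie on a rational curve of the family (module THF-F2)
-/

set_option autoImplicit false

namespace Pool.Agent.ThF

open Pool.Agent.Helper16 Pool.Agent.Helper16.BB Polynomial

theorem lift_homog {K σ : Type} [Field K] (j0 : σ) (g : MvPolynomial σ K) :
    ∃ (N : ℕ) (G : MvPolynomial σ K), G.IsHomogeneous N ∧
      ∀ (F : Type) [Field F] [Algebra K F] (x : σ → F), x j0 ≠ 0 →
        MvPolynomial.aeval x G = x j0 ^ N * MvPolynomial.aeval (fun j => x j / x j0) g := by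
  induction g using MvPolynomial.induction_on with
  | C a =>
    refine ⟨0, MvPolynomial.C a, MvPolynomial.isHomogeneous_C σ a, ?_⟩
    intro F _ _ x hx
    rw [pow_zero, one_mul, MvPolynomial.algHom_C, MvPolynomial.algHom_C]
  | add P Q hP hQ =>
    obtain ⟨N1, G1, h1, h1'⟩ := hP
    obtain ⟨N2, G2, h2, h2'⟩ := hQ
    refine ⟨N1 + N2, G1 * MvPolynomial.X j0 ^ N2 + G2 * MvPolynomial.X j0 ^ N1, ?_, ?_⟩
    · refine MvPolynomial.IsHomogeneous.add ?_ ?_
      · exact h1.mul (MvPolynomial.isHomogeneous_X_pow j0 N2)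
      · rw [add_comm N1 N2]
        exact h2.mul (MvPolynomial.isHomogeneous_X_pow j0 N1)
    · intro F _ _ x hx
      rw [map_add, map_mul, map_mul, map_pow, map_pow, MvPolynomial.aeval_X, h1' F x hx, h2' F x hx,
        map_add]
      ring
  | mul_X P j hP =>
    obtain ⟨N1, G1, h1, h1'⟩ := hP
    refine ⟨N1 + 1, G1 * MvPolynomial.X j, h1.mul (MvPolynomial.isHomogeneous_X K j), ?_⟩
    intro F _ _ x hx
    rw [map_mul, map_mul, h1' F x hx, MvPolynomial.aeval_X, MvPolynomial.aeval_X, pow_succ]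
    field_simp

theorem lift_factor {K A B B' : Type} [Field K] [CommRing A] [CommRing B] [CommRing B']
    [Algebra K A] [Algebra K B] [Algebra K B'] (f : A →ₐ[K] B) (g : A →ₐ[K] B')
    (h : ∀ a, f a = 0 → g a = 0) :
    ∃ χ : f.range →ₐ[K] B', ∀ a, χ (f.rangeRestrict a) = g a := by
  have h' : ∀ a, a ∈ RingHom.ker f → g a = 0 := fun a ha => h a ha
  refine ⟨(Ideal.Quotient.liftₐ (RingHom.ker f) g h').comp
    ((Ideal.quotientKerEquivRange f).symm : f.range →ₐ[K] _), ?_⟩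
  intro a
  have h1 : (Ideal.quotientKerEquivRange f).symm (f.rangeRestrict a) =
      Ideal.Quotient.mk (RingHom.ker f) a := by
    rw [AlgEquiv.symm_apply_eq]
    rfl
  rw [AlgHom.comp_apply]
  change (Ideal.Quotient.liftₐ (RingHom.ker f) g h') ((Ideal.quotientKerEquivRange f).symm
    (f.rangeRestrict a)) = g a
  rw [h1]
  rfl

theorem lift_ext {K Ω M : Type} [Field K] [Field Ω] [IsAlgClosed Ω] [Field M] [Algebra K M]
    [Algebra K Ω] (C D : Subalgebra K M) (hCD : C ≤ D) (hD : D.FG) :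
    ∃ c : C, c ≠ 0 ∧ ∀ χ : C →ₐ[K] Ω, χ c ≠ 0 →
      ∃ ψ : D →ₐ[K] Ω, ∀ a : C, ψ (Subalgebra.inclusion hCD a) = χ a := by
  let _ : Algebra C D := (Subalgebra.inclusion hCD).toRingHom.toAlgebra
  have _ : IsScalarTower K C D := IsScalarTower.of_algebraMap_eq fun x => rfl
  have _ : Algebra.FiniteType K D := D.fg_iff_finiteType.1 hD
  have _ : Algebra.FiniteType C D := Algebra.FiniteType.of_restrictScalars_finiteType K C D
  exact exists_extend (K := K) (Ω := Ω) (C := C) (D := D) (Subalgebra.inclusion_injective hCD)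

theorem lift_main {K Ω M σ : Type} [Field K] [Field Ω] [IsAlgClosed Ω] [Field M] [Algebra K M]
    [Algebra K Ω] [Finite σ] (ξ : σ → M) (j0 : σ) (hj0 : ξ j0 ≠ 0) (D : Subalgebra K M)
    (hD : D.FG) (hξD : ∀ j, ξ j / ξ j0 ∈ D) :
    ∃ h : MvPolynomial σ K, (∃ d, h.IsHomogeneous d) ∧ MvPolynomial.aeval ξ h ≠ 0 ∧
      ∀ x : σ → Ω, (∀ P : MvPolynomial σ K, (∃ d, P.IsHomogeneous d) →
        MvPolynomial.aeval ξ P = 0 → MvPolynomial.aeval x P = 0) →
        MvPolynomial.aeval x h ≠ 0 →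
        x j0 ≠ 0 ∧ ∃ ψ : D →ₐ[K] Ω, ∀ j, ψ ⟨ξ j / ξ j0, hξD j⟩ = x j / x j0 := by
  set u : σ → M := fun j => ξ j / ξ j0 with hu
  set f : MvPolynomial σ K →ₐ[K] M := MvPolynomial.aeval u with hf
  have hCD : f.range ≤ D := by
    rw [hf, ← Algebra.adjoin_range_eq_range_aeval, Algebra.adjoin_le_iff]
    rintro _ ⟨j, rfl⟩
    exact hξD j
  obtain ⟨c, hc, hext⟩ := lift_ext (Ω := Ω) f.range D hCD hD
  obtain ⟨⟨c0, hc0⟩⟩ : Nonempty {g // f g = c.1} := by
    obtain ⟨g, hg⟩ := c.2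
    exact ⟨⟨g, hg⟩⟩
  obtain ⟨N, G, hG, hG'⟩ := lift_homog j0 c0
  refine ⟨G * MvPolynomial.X j0, ⟨N + 1, hG.mul (MvPolynomial.isHomogeneous_X K j0)⟩, ?_, ?_⟩
  · rw [map_mul, MvPolynomial.aeval_X, hG' M ξ hj0]
    refine mul_ne_zero (mul_ne_zero (pow_ne_zero _ hj0) ?_) hj0
    change f c0 ≠ 0
    rw [hc0]
    intro h0
    exact hc (Subtype.ext h0)
  · intro x hx hxh
    rw [map_mul, MvPolynomial.aeval_X] at hxh
    have hx0 : x j0 ≠ 0 := right_ne_zero_of_mul hxh
    refine ⟨hx0, ?_⟩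
    have hG0 : MvPolynomial.aeval x G ≠ 0 := left_ne_zero_of_mul hxh
    rw [hG' Ω x hx0] at hG0
    obtain ⟨χ, hχ⟩ := lift_factor f (MvPolynomial.aeval (fun j => x j / x j0)) (by
      intro g hg
      obtain ⟨N', G1, hG1, hG1'⟩ := lift_homog j0 g
      have h1 : MvPolynomial.aeval ξ G1 = 0 := by
        rw [hG1' M ξ hj0]
        change _ * f g = 0
        rw [hg, mul_zero]
      have h2 := hx G1 ⟨N', hG1⟩ h1
      rw [hG1' Ω x hx0] at h2
      exact (mul_eq_zero.1 h2).resolve_left (pow_ne_zero _ hx0))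
    have hcc : f.rangeRestrict c0 = c := Subtype.ext hc0
    obtain ⟨ψ, hψ⟩ := hext χ (by
      rw [← hcc, hχ]
      exact right_ne_zero_of_mul hG0)
    refine ⟨ψ, fun j => ?_⟩
    have h3 := hψ (f.rangeRestrict (MvPolynomial.X j))
    rw [hχ, MvPolynomial.aeval_X] at h3
    rw [← h3]
    congr 1
    apply Subtype.ext
    change ξ j / ξ j0 = f (MvPolynomial.X j)
    rw [hf, MvPolynomial.aeval_X]

theorem lift_frac {L : Type} [Field L] (t : RatFunc L) :
    ∃ α β : L[X], β ≠ 0 ∧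
      t * algebraMap L[X] (RatFunc L) β = algebraMap L[X] (RatFunc L) α := by
  refine ⟨t.num, t.denom, t.denom_ne_zero, ?_⟩
  have h3 : algebraMap L[X] (RatFunc L) t.denom ≠ 0 := RatFunc.algebraMap_ne_zero t.denom_ne_zero
  rw [← eq_div_iff h3]
  exact (RatFunc.num_div_denom t).symm

theorem lift_frac_fam {L : Type} [Field L] {σ : Type} [Finite σ] (ξ : σ → RatFunc L) :
    ∃ (d : L[X]) (P : σ → L[X]), d ≠ 0 ∧
      ∀ j, algebraMap L[X] (RatFunc L) d * ξ j = algebraMap L[X] (RatFunc L) (P j) := by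
  obtain ⟨b, hb⟩ := IsLocalization.exist_integer_multiples_of_finite (nonZeroDivisors L[X]) ξ
  choose P hP using hb
  refine ⟨b, P, nonZeroDivisors.ne_zero b.2, fun j => ?_⟩
  rw [hP j]
  exact (Algebra.smul_def _ _).symm

theorem lift_minor {L : Type} [Field L] (t : RatFunc L)
    (ht : t ∉ Set.range (algebraMap L (RatFunc L))) (α β : L[X]) (hβ : β ≠ 0)
    (h : t * algebraMap L[X] (RatFunc L) β = algebraMap L[X] (RatFunc L) α) :
    ∃ i j, α.coeff i * β.coeff j ≠ α.coeff j * β.coeff i := by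
  by_contra hcon
  push Not at hcon
  apply ht
  have hb : β.leadingCoeff ≠ 0 := leadingCoeff_ne_zero.2 hβ
  refine ⟨α.coeff β.natDegree / β.leadingCoeff, ?_⟩
  have h1 : α = C (α.coeff β.natDegree / β.leadingCoeff) * β := by
    ext i
    rw [coeff_C_mul, div_mul_eq_mul_div, eq_div_iff hb]
    exact hcon i β.natDegree
  have h3 : algebraMap L[X] (RatFunc L) β ≠ 0 := RatFunc.algebraMap_ne_zero hβ
  have h4 : t * algebraMap L[X] (RatFunc L) β =
      algebraMap L (RatFunc L) (α.coeff β.natDegree / β.leadingCoeff) *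
        algebraMap L[X] (RatFunc L) β := by
    rw [h]
    conv_lhs => rw [h1, map_mul]
    rfl
  exact (mul_right_cancel₀ h3 h4).symm

theorem lift_fam {k : Type} [Field k] {σ : Type} [Finite σ]
    {I : Set (MvPolynomial σ (RatFunc k))} (hI : ∀ P ∈ I, ∃ d, P.IsHomogeneous d)
    {L : Type} [Field L] [Algebra k L] [Algebra (RatFunc k) (RatFunc L)]
    [IsScalarTower k (RatFunc k) (RatFunc L)]
    (ξ : σ → RatFunc L) (hξ : ∀ P ∈ I, MvPolynomial.aeval ξ P = 0) (α β d : L[X]) (P : σ → L[X])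
    (hβ : β ≠ 0)
    (hαβ : tt k (RatFunc L) * algebraMap L[X] (RatFunc L) β = algebraMap L[X] (RatFunc L) α)
    (hP : ∀ j, algebraMap L[X] (RatFunc L) d * ξ j = algebraMap L[X] (RatFunc L) (P j)) :
    IsFam I α β P := by
  intro Q hQ
  obtain ⟨e, he⟩ := hI Q hQ
  have h3 := aeval_scale (wOne_hom he) (fun _ : Unit => algebraMap L[X] (RatFunc L) d) ξ
  rw [scale_wOne, hξ Q hQ, mul_zero] at h3
  have h4 : algebraMap L[X] (RatFunc L) d • ξ = fun j => algebraMap L[X] (RatFunc L) (P j) := by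
    funext j
    rw [← hP j]
    rfl
  rw [h4] at h3
  have h5 := (aeval_bih Q (F := RatFunc L) (RatFunc.algebraMap_ne_zero hβ) hαβ).2 h3
  have h6 : (Sum.elim (fun e : Bool => cond e (algebraMap L[X] (RatFunc L) α)
      (algebraMap L[X] (RatFunc L) β)) fun j => algebraMap L[X] (RatFunc L) (P j)) =
      (algebraMap L[X] (RatFunc L)) ∘ (Sum.elim (fun e : Bool => cond e α β) P) := by
    funext e
    rcases e with e | e
    · cases e <;> rfl
    · rfl
  rw [h6, MvPolynomial.aeval_algebraMap_apply] at h5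
  exact (map_eq_zero_iff _ (RatFunc.algebraMap_injective L)).1 h5

theorem lift_lifts {k L : Type} [Field k] [Field L] [Algebra k L] (A : Subalgebra k L) (p : L[X])
    (hp : ∀ i, p.coeff i ∈ A) : ∃ q : A[X], q.map ((A.val : A →ₐ[k] L) : A →+* L) = p := by
  rw [← mem_lifts, lifts_iff_coeff_lifts]
  intro n
  exact ⟨⟨p.coeff n, hp n⟩, rfl⟩

theorem lift_eval {R L M D Ω : Type} [CommRing R] [Field L] [Field M] [CommRing D] [CommRing Ω]
    [Algebra L M] (i : R →+* L) (e : R →+* D) (v : D →+* M) (ψ : D →+* Ω) (x : D) (X : M)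
    (hv : ∀ r, v (e r) = algebraMap L M (i r)) (hx : v x = X) (p : R[X]) :
    (p.map (ψ.comp e)).eval (ψ x) = ψ (p.eval₂ e x) ∧
      v (p.eval₂ e x) = aeval X (p.map i) := by
  constructor
  · rw [hom_eval₂, eval_map]
  · rw [hom_eval₂, hx, aeval_def, eval₂_map]
    congr 1
    ext r
    exact hv r

theorem exists_family {k : Type} [Field k] {σ : Type} [Finite σ]
    {I : Set (MvPolynomial σ (RatFunc k))} (hI : ∀ P ∈ I, ∃ d, P.IsHomogeneous d)
    {L : Type} [Field L] [Algebra k L] [Algebra (RatFunc k) (RatFunc L)]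
    [IsScalarTower k (RatFunc k) (RatFunc L)]
    (hL : tt k (RatFunc L) ∉ Set.range (algebraMap L (RatFunc L)))
    (ξ : σ → RatFunc L) (hξ : IsPoint (wOne σ) I ξ)
    (hgen : ∀ P : MvPolynomial σ (RatFunc k), (∃ d, P.IsHomogeneous d) →
      MvPolynomial.aeval ξ P = 0 → ∀ x : σ → AlgebraicClosure (RatFunc k),
        IsPoint (wOne σ) I x → MvPolynomial.aeval x P = 0) :
    ∃ (n D : ℕ) (h : MvPolynomial σ (RatFunc k)), (∃ d, h.IsHomogeneous d) ∧
      MvPolynomial.aeval ξ h ≠ 0 ∧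
      ∀ x : σ → AlgebraicClosure (RatFunc k), IsPoint (wOne σ) I x → MvPolynomial.aeval x h ≠ 0 →
        ∃ (α β : (AlgebraicClosure (RatFunc k))[X]) (P : σ → (AlgebraicClosure (RatFunc k))[X])
          (s₀ c : AlgebraicClosure (RatFunc k)),
          α.natDegree ≤ n ∧ β.natDegree ≤ n ∧ (∀ j, (P j).natDegree ≤ D) ∧ IsFam I α β P ∧
          (∃ i j, α.coeff i * β.coeff j ≠ α.coeff j * β.coeff i) ∧
          β.eval s₀ ≠ 0 ∧ tt k (AlgebraicClosure (RatFunc k)) * β.eval s₀ = α.eval s₀ ∧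
          c ≠ 0 ∧ ∀ j, x j = c * (P j).eval s₀ := by
  classical
  obtain ⟨hξ0, hξI⟩ := (isPoint_wOne I ξ).1 hξ
  obtain ⟨j0, hj0⟩ := Function.ne_iff.1 hξ0
  rw [Pi.zero_apply] at hj0
  obtain ⟨α, β, hβ, hαβ⟩ := lift_frac (tt k (RatFunc L))
  obtain ⟨d, P, hd, hP⟩ := lift_frac_fam ξ
  have hfam : IsFam I α β P := lift_fam hI ξ hξI α β d P hβ hαβ hP
  obtain ⟨i1, i2, hmin⟩ := lift_minor (tt k (RatFunc L)) hL α β hβ hαβ
  -- the coefficient algebra
  set T : Set L := (↑α.coeffs ∪ ↑β.coeffs) ∪ ⋃ j, (↑(P j).coeffs : Set L) with hT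
  have hTfin : T.Finite := by
    refine Set.Finite.union (Set.Finite.union (Finset.finite_toSet _) (Finset.finite_toSet _)) ?_
    exact Set.finite_iUnion fun j => Finset.finite_toSet _
  have hcoef : ∀ p : L[X], (↑p.coeffs : Set L) ⊆ T → ∀ i, p.coeff i ∈ Algebra.adjoin k T := by
    intro p hp i
    by_cases h0 : p.coeff i = 0
    · rw [h0]
      exact zero_mem _
    · exact Algebra.subset_adjoin (hp (Finset.mem_coe.2 (coeff_mem_coeffs h0)))
  obtain ⟨α0, hα0⟩ := lift_lifts (Algebra.adjoin k T) α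
    (hcoef α fun x hx => Or.inl (Or.inl hx))
  obtain ⟨β0, hβ0⟩ := lift_lifts (Algebra.adjoin k T) β
    (hcoef β fun x hx => Or.inl (Or.inr hx))
  have hPl : ∀ j, ∃ q : (Algebra.adjoin k T)[X],
      q.map (((Algebra.adjoin k T).val : Algebra.adjoin k T →ₐ[k] L) :
        Algebra.adjoin k T →+* L) = P j := fun j =>
    lift_lifts (Algebra.adjoin k T) (P j)
      (hcoef (P j) fun x hx => Or.inr (Set.mem_iUnion.2 ⟨j, hx⟩))
  choose P0 hP0 using hPl
  have hfam0 : IsFam I α0 β0 P0 := by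
    apply IsFam.of_map (Algebra.adjoin k T).val Subtype.val_injective
    rw [hα0, hβ0]
    have h1 : (fun j => (P0 j).map (((Algebra.adjoin k T).val : Algebra.adjoin k T →ₐ[k] L) :
        Algebra.adjoin k T →+* L)) = P := funext hP0
    rw [h1]
    exact hfam
  -- the algebra `D`
  set S : Set (RatFunc L) := (Set.range (fun j => ξ j / ξ j0) ∪ algebraMap L (RatFunc L) '' T) ∪
    {RatFunc.X, (algebraMap L[X] (RatFunc L) β)⁻¹, (algebraMap L[X] (RatFunc L) (P j0))⁻¹,
      (algebraMap L (RatFunc L) (α.coeff i1 * β.coeff i2 - α.coeff i2 * β.coeff i1))⁻¹} with hS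
  have hSfin : S.Finite := by
    refine Set.Finite.union (Set.Finite.union (Set.finite_range _) (hTfin.image _)) ?_
    exact Set.toFinite _
  set DD : Subalgebra (RatFunc k) (RatFunc L) := Algebra.adjoin (RatFunc k) S with hDD
  have hDfg : DD.FG := ⟨hSfin.toFinset, by rw [Set.Finite.coe_toFinset]⟩
  have hξD : ∀ j, ξ j / ξ j0 ∈ DD := fun j =>
    Algebra.subset_adjoin (Or.inl (Or.inl ⟨j, rfl⟩))
  have hTD : ∀ a : Algebra.adjoin k T, algebraMap L (RatFunc L) a.1 ∈ DD := by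
    have h1 : Algebra.adjoin k T ≤ (DD.restrictScalars k).comap
        (IsScalarTower.toAlgHom k L (RatFunc L)) := by
      rw [Algebra.adjoin_le_iff]
      intro x hx
      exact Algebra.subset_adjoin (Or.inl (Or.inr ⟨x, hx, rfl⟩))
    intro a
    exact h1 a.2
  have hXD : (RatFunc.X : RatFunc L) ∈ DD :=
    Algebra.subset_adjoin (Or.inr (Or.inl rfl))
  have hβD : (algebraMap L[X] (RatFunc L) β)⁻¹ ∈ DD :=
    Algebra.subset_adjoin (Or.inr (Or.inr (Or.inl rfl)))
  have hPD : (algebraMap L[X] (RatFunc L) (P j0))⁻¹ ∈ DD :=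
    Algebra.subset_adjoin (Or.inr (Or.inr (Or.inr (Or.inl rfl))))
  have hmD : (algebraMap L (RatFunc L)
      (α.coeff i1 * β.coeff i2 - α.coeff i2 * β.coeff i1))⁻¹ ∈ DD :=
    Algebra.subset_adjoin (Or.inr (Or.inr (Or.inr (Or.inr rfl))))
  obtain ⟨h, hhom, hhξ, hext⟩ := lift_main (Ω := AlgebraicClosure (RatFunc k)) ξ j0 hj0 DD hDfg hξD
  have hbd : ∃ D, ∀ j, (P0 j).natDegree ≤ D := by
    obtain ⟨D, hD⟩ := (Set.finite_range fun j => (P0 j).natDegree).bddAbove
    exact ⟨D, fun j => hD ⟨j, rfl⟩⟩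
  obtain ⟨D, hD⟩ := hbd
  refine ⟨max α0.natDegree β0.natDegree, D, h, hhom, hhξ, ?_⟩
  intro x hx hxh
  obtain ⟨hx0, ψ, hψ⟩ := hext x (fun P hP hP0 => hgen P hP hP0 x hx) hxh
  -- the specialised homomorphism
  set e : Algebra.adjoin k T →+* DD :=
    ((algebraMap L (RatFunc L)).comp
      (((Algebra.adjoin k T).val : Algebra.adjoin k T →ₐ[k] L) : Algebra.adjoin k T →+* L)).codRestrict
      DD hTD with he
  have hecoe : ∀ a, ((e a : DD) : RatFunc L) = algebraMap L (RatFunc L) a.1 := fun a => rfl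
  set φ0 : Algebra.adjoin k T →ₐ[k] AlgebraicClosure (RatFunc k) :=
    { toRingHom := (ψ : DD →+* AlgebraicClosure (RatFunc k)).comp e
      commutes' := by
        intro r
        have h1 : e (algebraMap k (Algebra.adjoin k T) r) =
            algebraMap (RatFunc k) DD (algebraMap k (RatFunc k) r) := by
          apply Subtype.ext
          rw [hecoe]
          change algebraMap L (RatFunc L) (algebraMap k L r) =
            algebraMap (RatFunc k) (RatFunc L) (algebraMap k (RatFunc k) r)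
          rw [← IsScalarTower.algebraMap_apply, ← IsScalarTower.algebraMap_apply]
        change ψ (e (algebraMap k (Algebra.adjoin k T) r)) = _
        rw [h1, ψ.commutes, ← IsScalarTower.algebraMap_apply] } with hφ0
  have hφring : ((φ0 : Algebra.adjoin k T →ₐ[k] AlgebraicClosure (RatFunc k)) :
      Algebra.adjoin k T →+* AlgebraicClosure (RatFunc k)) =
      (ψ : DD →+* AlgebraicClosure (RatFunc k)).comp e := rfl
  set xD : DD := ⟨RatFunc.X, hXD⟩ with hxD
  have hev : ∀ p : (Algebra.adjoin k T)[X],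
      (p.map (φ0 : Algebra.adjoin k T →+* AlgebraicClosure (RatFunc k))).eval (ψ xD) =
        ψ (p.eval₂ e xD) ∧
      ((p.eval₂ e xD : DD) : RatFunc L) = algebraMap L[X] (RatFunc L)
        (p.map (((Algebra.adjoin k T).val : Algebra.adjoin k T →ₐ[k] L) :
          Algebra.adjoin k T →+* L)) := by
    intro p
    have h1 := lift_eval (M := RatFunc L)
      (((Algebra.adjoin k T).val : Algebra.adjoin k T →ₐ[k] L) : Algebra.adjoin k T →+* L) e
      (DD.val : DD →+* RatFunc L) (ψ : DD →+* AlgebraicClosure (RatFunc k)) xD RatFunc.X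
      (fun r => rfl) rfl p
    refine ⟨?_, ?_⟩
    · rw [hφring]
      exact h1.1
    · rw [← RatFunc.aeval_X_left_eq_algebraMap]
      exact h1.2
  have hβM : algebraMap L[X] (RatFunc L) β ≠ 0 := RatFunc.algebraMap_ne_zero hβ
  have hPM : algebraMap L[X] (RatFunc L) (P j0) ≠ 0 := by
    rw [← hP j0]
    exact mul_ne_zero (RatFunc.algebraMap_ne_zero hd) hj0
  have hunit : ∀ (a : DD) (ha : ((a : DD) : RatFunc L)⁻¹ ∈ DD), (a : RatFunc L) ≠ 0 → ψ a ≠ 0 := by
    intro a ha ha0 h0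
    have h1 : a * ⟨((a : DD) : RatFunc L)⁻¹, ha⟩ = 1 := Subtype.ext (mul_inv_cancel₀ ha0)
    have h2 := congrArg ψ h1
    rw [map_mul, h0, zero_mul, map_one] at h2
    exact zero_ne_one h2
  have hβev : ψ (β0.eval₂ e xD) ≠ 0 := by
    apply hunit
    · rw [(hev β0).2, hβ0]
      exact hβD
    · rw [(hev β0).2, hβ0]
      exact hβM
  have hPev : ψ ((P0 j0).eval₂ e xD) ≠ 0 := by
    apply hunit
    · rw [(hev (P0 j0)).2, hP0]
      exact hPD
    · rw [(hev (P0 j0)).2, hP0]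
      exact hPM
  refine ⟨α0.map (φ0 : Algebra.adjoin k T →+* AlgebraicClosure (RatFunc k)),
    β0.map (φ0 : Algebra.adjoin k T →+* AlgebraicClosure (RatFunc k)),
    fun j => (P0 j).map (φ0 : Algebra.adjoin k T →+* AlgebraicClosure (RatFunc k)),
    ψ xD, x j0 / ψ ((P0 j0).eval₂ e xD), ?_, ?_, ?_, hfam0.map φ0, ⟨i1, i2, ?_⟩, ?_, ?_, ?_, ?_⟩
  · exact natDegree_map_le.trans (le_max_left _ _)
  · exact natDegree_map_le.trans (le_max_right _ _)
  · exact fun j => natDegree_map_le.trans (hD j)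
  · rw [coeff_map, coeff_map, coeff_map, coeff_map, hφring]
    have h1 : ∀ (p : (Algebra.adjoin k T)[X]) i, (p.map (((Algebra.adjoin k T).val :
        Algebra.adjoin k T →ₐ[k] L) : Algebra.adjoin k T →+* L)).coeff i = (p.coeff i).1 :=
      fun p i => by rw [coeff_map]; rfl
    have h2 := hunit (e (α0.coeff i1 * β0.coeff i2 - α0.coeff i2 * β0.coeff i1)) (by
      rw [hecoe]
      have h3 : ((α0.coeff i1 * β0.coeff i2 - α0.coeff i2 * β0.coeff i1 : Algebra.adjoin k T) : L) =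
          α.coeff i1 * β.coeff i2 - α.coeff i2 * β.coeff i1 := by
        rw [← hα0, ← hβ0, h1, h1, h1, h1]
        rfl
      rw [h3]
      exact hmD) (by
      rw [hecoe]
      have h3 : ((α0.coeff i1 * β0.coeff i2 - α0.coeff i2 * β0.coeff i1 : Algebra.adjoin k T) : L) =
          α.coeff i1 * β.coeff i2 - α.coeff i2 * β.coeff i1 := by
        rw [← hα0, ← hβ0, h1, h1, h1, h1]
        rfl
      rw [h3]
      have h4 : α.coeff i1 * β.coeff i2 - α.coeff i2 * β.coeff i1 ≠ 0 := sub_ne_zero.2 hmin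
      exact (_root_.map_ne_zero _).2 h4)
    rw [map_sub, map_mul, map_mul, map_sub, map_mul, map_mul] at h2
    exact sub_ne_zero.1 h2
  · rw [(hev β0).1]
    exact hβev
  · rw [(hev β0).1, (hev α0).1]
    have h1 : algebraMap (RatFunc k) DD RatFunc.X * β0.eval₂ e xD = α0.eval₂ e xD := by
      apply Subtype.ext
      change algebraMap (RatFunc k) (RatFunc L) RatFunc.X * ((β0.eval₂ e xD : DD) : RatFunc L) = _
      rw [(hev β0).2, (hev α0).2, hα0, hβ0]
      exact hαβ
    rw [← h1, map_mul, ψ.commutes]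
  · exact div_ne_zero hx0 hPev
  · intro j
    rw [(hev (P0 j)).1]
    have h1 : (⟨ξ j / ξ j0, hξD j⟩ : DD) * (P0 j0).eval₂ e xD = (P0 j).eval₂ e xD := by
      apply Subtype.ext
      change ξ j / ξ j0 * (((P0 j0).eval₂ e xD : DD) : RatFunc L) = _
      rw [(hev (P0 j0)).2, (hev (P0 j)).2, hP0, hP0, ← hP j0, ← hP j]
      field_simp
    rw [← h1, map_mul, hψ]
    field_simp

end Pool.Agent.ThF
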