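import Mathlib
import Pool.Agent.Helper16.GC2
import Pool.Agent.Helper16.GC7
import Pool.Agent.ThF.Defs

set_option autoImplicit false
set_option linter.unusedSectionVars false
set_option linter.style.haveILetI false

/-! Theorem F for `MP_0b9e0b_ag`, module F6: specialisation of a family at a place of good
reduction. -/

namespace Pool.Agent.ThF

open Pool.Agent.Helper16 Pool.Agent.Helper16.BB Polynomial

section good

variable {k : Type} [Field k] {E N : Type} [Field E] [Field N] [Algebra k E] [Algebra k N]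
  [Algebra E N] [Algebra (RatFunc k) N] [IsScalarTower k E N] [IsScalarTower k (RatFunc k) N]

/-- An embedding of the residue field compatible with a given embedding below. -/
theorem good_exists_psi (hE : IsFunctionField k E) (hN : IsFunctionField (RatFunc k) N)
    (v : Place (RatFunc k) N) (u : Place k E)
    (h1 : ∀ a : E, u.val a ≤ 1 ↔ v.val (algebraMap E N a) ≤ 1)
    (ρ : u.resField →ₐ[k] AlgebraicClosure k) :
    ∃ ψ : v.resField →ₐ[RatFunc k] AlgebraicClosure (RatFunc k),
      ∀ h : E, u.val h ≤ 1 → ψ (v.res (algebraMap E N h)) = jc k (ρ (u.res h)) := by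
  have h2 : ∀ a : E, u.val a < 1 ↔ v.val (algebraMap E N a) < 1 := by
    intro a
    by_cases ha : a = 0
    · subst ha; simp
    have ha' : algebraMap E N a ≠ 0 := by simpa using ha
    have h2 := h1 a⁻¹
    rw [map_inv₀, map_inv₀, map_inv₀, inv_le_one₀ (zero_lt_iff.2 (by simpa using ha)),
      inv_le_one₀ (zero_lt_iff.2 (by simpa using ha'))] at h2
    rw [← not_le, ← not_le, h2]
  obtain ⟨r, hr, hrk⟩ := v.exists_residue_hom u h1 h2
  haveI := v.finite_resField hN
  haveI := u.finite_resField hE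
  let φ : v.resField →ₐ[RatFunc k] AlgebraicClosure (RatFunc k) := IsAlgClosed.lift
  let r' : u.resField →ₐ[k] v.resField :=
    ⟨r, fun a => by
      change r (algebraMap k u.resField a) = _
      rw [hrk, ← IsScalarTower.algebraMap_apply k (RatFunc k) v.resField]⟩
  obtain ⟨σ₀, hσ₀⟩ := exists_conj_const ((φ.restrictScalars k).comp r') ((jc k).comp ρ)
  refine ⟨σ₀.toAlgHom.comp φ, ?_⟩
  intro h hh
  have h3 := hσ₀ (u.res h)
  rw [← hr h hh]
  exact h3

/-- Reduction of a polynomial expression. -/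
theorem good_red (v : Place (RatFunc k) N) (u : Place k E)
    (h1 : ∀ a : E, u.val a ≤ 1 ↔ v.val (algebraMap E N a) ≤ 1)
    (ρ : u.resField →ₐ[k] AlgebraicClosure k)
    (ψ : v.resField →ₐ[RatFunc k] AlgebraicClosure (RatFunc k))
    (hψ : ∀ h : E, u.val h ≤ 1 → ψ (v.res (algebraMap E N h)) = jc k (ρ (u.res h)))
    (Y : N) (hY : v.val Y ≤ 1) (F : E[X]) (G : (AlgebraicClosure k)[X]) (hFG : Red u ρ F G) :
    v.val (aeval Y F) ≤ 1 ∧ ψ (v.res (aeval Y F)) = ev G (ψ (v.res Y)) := by
  obtain ⟨P', hP'⟩ := exists_liftP u F (fun i => (hFG i).1)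
  obtain ⟨h2, h3⟩ := res_aeval v u h1 ρ ψ hψ Y hY P'
  rw [hP'] at h2 h3
  refine ⟨h2, ?_⟩
  rw [h3, ← Polynomial.eval₂_map]
  have h4 : P'.map ((u.resRed ρ : u.ring →ₐ[k] AlgebraicClosure k) :
      u.ring →+* AlgebraicClosure k) = G := by
    ext i
    rw [Polynomial.coeff_map]
    have h5 : (P'.coeff i : E) = F.coeff i := by
      rw [← hP', Polynomial.coeff_map]
      rfl
    have h6 := u.resRed_apply ρ (x := (P'.coeff i : E)) (P'.coeff i).2
    have h7 : (u.resRed ρ) (P'.coeff i) = ρ (u.res (P'.coeff i : E)) := h6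
    change (u.resRed ρ) (P'.coeff i) = _
    rw [h7, h5]
    exact (hFG i).2
  rw [h4]
  rfl

/-- The element `t` is not a constant. -/
theorem good_tt_ne (c : AlgebraicClosure k) : tt k (AlgebraicClosure (RatFunc k)) ≠ jc k c := by
  intro h
  apply transcendental_tb (k := k)
  change IsAlgebraic k (tt k (AlgebraicClosure (RatFunc k)))
  rw [h]
  exact (Algebra.IsAlgebraic.isAlgebraic (R := k) c).algHom (jc k)

/-- The parameter is integral at a place of good reduction. -/
theorem good_val_le (v : Place (RatFunc k) N) (u : Place k E)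
    (h1 : ∀ a : E, u.val a ≤ 1 ↔ v.val (algebraMap E N a) ≤ 1)
    (ρ : u.resField →ₐ[k] AlgebraicClosure k)
    (ψ : v.resField →ₐ[RatFunc k] AlgebraicClosure (RatFunc k))
    (hψ : ∀ h : E, u.val h ≤ 1 → ψ (v.res (algebraMap E N h)) = jc k (ρ (u.res h)))
    (s : N) (α β : E[X]) (hτ : tt k N * aeval s β = aeval s α) (A B : (AlgebraicClosure k)[X])
    (hαA : Red u ρ α A) (hβB : Red u ρ β B) (e : ℕ) (hαe : α.natDegree ≤ e)
    (hβe : β.natDegree ≤ e) (htop : A.coeff e ≠ 0 ∨ B.coeff e ≠ 0) : v.val s ≤ 1 := by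
  by_contra hs
  rw [not_le] at hs
  have hs0 : s ≠ 0 := by
    rintro rfl
    rw [map_zero] at hs
    exact not_lt_zero hs
  have hY : v.val s⁻¹ < 1 := by
    rw [map_inv₀]
    exact inv_lt_one_of_one_lt₀ hs
  have hrY : v.res s⁻¹ = 0 := (v.res_eq_zero_iff hY.le).2 hY
  letI : Invertible s := invertibleOfNonzero hs0
  -- the reflected polynomials
  have key : ∀ (F : E[X]) (G : (AlgebraicClosure k)[X]), Red u ρ F G → F.natDegree ≤ e →
      aeval s⁻¹ (F.reflect e) * s ^ e = aeval s F ∧ v.val (aeval s⁻¹ (F.reflect e)) ≤ 1 ∧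
      ψ (v.res (aeval s⁻¹ (F.reflect e))) = jc k (G.coeff e) := by
    intro F G hFG hFe
    have h2 := Polynomial.eval₂_reflect_mul_pow (algebraMap E N) s e F hFe
    rw [invOf_eq_inv] at h2
    refine ⟨h2, ?_⟩
    have hred : Red u ρ (F.reflect e) (G.reflect e) := by
      intro i
      rw [Polynomial.coeff_reflect, Polynomial.coeff_reflect]
      exact hFG _
    obtain ⟨h3, h4⟩ := good_red v u h1 ρ ψ hψ s⁻¹ hY.le _ _ hred
    refine ⟨h3, ?_⟩
    rw [h4, hrY, map_zero]
    change Polynomial.eval₂ _ _ _ = _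
    rw [Polynomial.eval₂_at_zero, Polynomial.coeff_reflect, Polynomial.revAt_zero]
    rfl
  obtain ⟨ha1, ha2, ha3⟩ := key α A hαA hαe
  obtain ⟨hb1, hb2, hb3⟩ := key β B hβB hβe
  have h5 : tt k N * aeval s⁻¹ (β.reflect e) = aeval s⁻¹ (α.reflect e) := by
    have h6 : s ^ e ≠ 0 := pow_ne_zero _ hs0
    apply mul_right_cancel₀ h6
    rw [mul_assoc, hb1, ha1, hτ]
  have ht : v.val (tt k N) ≤ 1 := v.val_algebraMap_le _
  have h7 : tt k (AlgebraicClosure (RatFunc k)) * jc k (B.coeff e) = jc k (A.coeff e) := by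
    rw [← hb3, ← ha3, ← h5, v.res_mul ht hb2, map_mul, tt, v.res_algebraMap, ψ.commutes]
  have hB : B.coeff e ≠ 0 := by
    intro hB
    rw [hB, map_zero, mul_zero] at h7
    have hA : A.coeff e = 0 := by
      have h8 : jc k (A.coeff e) = jc k 0 := by rw [map_zero]; exact h7.symm
      exact (jc k).toRingHom.injective h8
    rcases htop with h | h
    · exact h hA
    · exact h hB
  apply good_tt_ne (k := k) (A.coeff e / B.coeff e)
  rw [map_div₀, eq_div_iff (by simpa using hB)]
  exact h7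

end good

/-- Module F6. Specialisation of a family at a place of good reduction. -/
theorem good_spec {k : Type} [Field k] {σ : Type} [Finite σ]
    {I : Set (MvPolynomial σ (RatFunc k))}
    {E N : Type} [Field E] [Field N] [Algebra k E] [Algebra k N] [Algebra E N]
    [Algebra (RatFunc k) N] [IsScalarTower k E N] [IsScalarTower k (RatFunc k) N]
    (hE : IsFunctionField k E) (hN : IsFunctionField (RatFunc k) N)
    (s : N) (α β : E[X]) (P : σ → E[X]) (hβ : aeval s β ≠ 0)
    (hτ : tt k N * aeval s β = aeval s α) (v : Place (RatFunc k) N) (u : Place k E)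
    (huv : ∀ a : E, u.val a ≤ 1 ↔ v.val (algebraMap E N a) ≤ 1)
    (ρ : u.resField →ₐ[k] AlgebraicClosure k) (A B : (AlgebraicClosure k)[X])
    (Q : σ → (AlgebraicClosure k)[X]) (hαA : Red u ρ α A) (hβB : Red u ρ β B)
    (hPQ : ∀ j, Red u ρ (P j) (Q j)) (e : ℕ) (he : 1 ≤ e) (hαe : α.natDegree ≤ e)
    (hβe : β.natDegree ≤ e) (hcop : IsCoprime A B) (htop : A.coeff e ≠ 0 ∨ B.coeff e ≠ 0)
    (s' : AlgebraicClosure (RatFunc k)) (hs' : IsRt A B s')
    (hpt : IsPoint (wOne σ) I (fun j => ev (Q j) s')) :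
    IsSp (wOne σ) I v (fun j => aeval s (P j)) (fun j => ev (Q j) s') := by
  obtain ⟨ψ, hψ⟩ := good_exists_psi hE hN v u huv ρ
  have hs : v.val s ≤ 1 := good_val_le v u huv ρ ψ hψ s α β hτ A B hαA hβB e hαe hβe htop
  obtain ⟨hA1, hA2⟩ := good_red v u huv ρ ψ hψ s hs α A hαA
  obtain ⟨hB1, hB2⟩ := good_red v u huv ρ ψ hψ s hs β B hβB
  set y := ψ (v.res s) with hy
  have ht : v.val (tt k N) ≤ 1 := v.val_algebraMap_le _
  have h7 : tt k (AlgebraicClosure (RatFunc k)) * ev B y = ev A y := by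
    rw [← hB2, ← hA2, ← hτ, v.res_mul ht hB1, map_mul, tt, v.res_algebraMap, ψ.commutes]
  have hBy : ev B y ≠ 0 := by
    intro h0
    rw [h0, mul_zero] at h7
    obtain ⟨a, b, hab⟩ := hcop
    have h8 := congrArg (fun F => ev F y) hab
    simp only [ev, Polynomial.eval₂_add, Polynomial.eval₂_mul, Polynomial.eval₂_one] at h8
    change _ * ev A y + _ * ev B y = 1 at h8
    rw [← h7, h0, mul_zero, mul_zero, add_zero] at h8
    exact zero_ne_one h8
  obtain ⟨hs1, hs2⟩ := hs'
  obtain ⟨τ, hτ1, hτ2⟩ := exists_conj_rat (-A) B y s'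
    (by
      rw [Polynomial.eval₂_neg]
      change -ev A y + tt k (AlgebraicClosure (RatFunc k)) * ev B y = 0
      rw [h7]
      ring)
    (by
      rw [Polynomial.eval₂_neg]
      change -ev A s' + tt k (AlgebraicClosure (RatFunc k)) * ev B s' = 0
      rw [hs2]
      ring) hBy hs1
  have hev : ∀ F : (AlgebraicClosure k)[X], τ (ev F y) = ev F s' := by
    intro F
    rw [ev, ev, ← hτ2]
    have h9 := Polynomial.hom_eval₂ F (jc k).toRingHom
      (τ.toAlgHom.toRingHom) y
    have h10 : (τ.toAlgHom.toRingHom).comp (jc k).toRingHom = (jc k).toRingHom := by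
      ext c
      exact hτ1 c
    rw [h10] at h9
    exact h9
  refine ⟨hpt, τ.toAlgHom.comp ψ, fun _ => 1, fun _ => one_ne_zero, ?_, ?_⟩
  · intro j
    rw [scale_wOne, Pi.smul_apply, smul_eq_mul, one_mul]
    exact (good_red v u huv ρ ψ hψ s hs _ _ (hPQ j)).1
  · intro j
    rw [scale_wOne, Pi.smul_apply, smul_eq_mul, one_mul]
    change _ = τ (ψ (v.res _))
    rw [(good_red v u huv ρ ψ hψ s hs _ _ (hPQ j)).2, hev]

end Pool.Agent.ThF
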