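import Mathlib
import Pool.Agent.Helper16.GB9
import Pool.Agent.ThF.Good

set_option autoImplicit false
set_option linter.unusedSectionVars false

/-! Theorem F for `MP_0b9e0b_ag`: two members of a family over a curve have the same class. -/

namespace Pool.Agent.ThF

open Pool.Agent.Helper16 Pool.Agent.Helper16.BB Polynomial

/-- The reduction of the zero polynomial is zero. -/
theorem move_red_zero {k : Type} [Field k] {E : Type} [Field E] [Algebra k E] (u : Place k E)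
    (ρ : u.resField →ₐ[k] AlgebraicClosure k) {F : E[X]} {G : (AlgebraicClosure k)[X]}
    (h : Red u ρ F G) (hF : F = 0) : G = 0 := by
  ext i
  rw [← (h i).2, hF, coeff_zero, u.res_zero, map_zero, coeff_zero]

/-- If `F = λ G` then one of the reductions is a constant multiple of the other one. -/
theorem move_red_smul {k : Type} [Field k] {E : Type} [Field E] [Algebra k E] (u : Place k E)
    (ρ : u.resField →ₐ[k] AlgebraicClosure k) {F G : E[X]} {F' G' : (AlgebraicClosure k)[X]}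
    (hF : Red u ρ F F') (hG : Red u ρ G G') (c : E) (h : F = C c * G) (hc : u.val c ≤ 1) :
    F' = C (ρ (u.res c)) * G' := by
  ext i
  rw [coeff_C_mul, ← (hF i).2, ← (hG i).2, h, coeff_C_mul, u.res_mul hc (hG i).1, map_mul]

/-- A constant multiple of a coprime polynomial is impossible when the reductions have
degree `e ≥ 1`. -/
theorem move_coprime_aux {κ : Type} [Field κ] {A B : κ[X]} (hcop : IsCoprime A B) {e : ℕ}
    (he : 1 ≤ e) (htop : A.coeff e ≠ 0 ∨ B.coeff e ≠ 0) (c : κ) (h : A = C c * B) : False := by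
  have h1 : IsUnit B := by
    apply hcop.isUnit_of_dvd' _ dvd_rfl
    rw [h]
    exact Dvd.intro_left _ rfl
  obtain ⟨b, -, hb⟩ := Polynomial.isUnit_iff.1 h1
  have h2 : B.coeff e = 0 := by
    rw [← hb, coeff_C, if_neg (by omega)]
  have h3 : A.coeff e = 0 := by
    rw [h, coeff_C_mul, h2, mul_zero]
  rcases htop with h | h
  · exact h h3
  · exact h h2

theorem cls_eq_of_family {k : Type} [Field k] [Finite k] {σ : Type} [Finite σ]
    {I : Set (MvPolynomial σ (RatFunc k))} (hI : ∀ P ∈ I, ∃ d, P.IsHomogeneous d)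
    {E : Type} [Field E] [Algebra k E] (hE : IsFunctionField k E) (α β : E[X]) (P : σ → E[X])
    (hfam : IsFam I α β P) (e : ℕ) (he : 1 ≤ e) (hαe : α.natDegree ≤ e) (hβe : β.natDegree ≤ e)
    (u₁ u₂ : Place k E) (ρ₁ : u₁.resField →ₐ[k] AlgebraicClosure k)
    (ρ₂ : u₂.resField →ₐ[k] AlgebraicClosure k) (A₁ B₁ A₂ B₂ : (AlgebraicClosure k)[X])
    (Q₁ Q₂ : σ → (AlgebraicClosure k)[X])
    (hα₁ : Red u₁ ρ₁ α A₁) (hβ₁ : Red u₁ ρ₁ β B₁) (hP₁ : ∀ j, Red u₁ ρ₁ (P j) (Q₁ j))
    (hα₂ : Red u₂ ρ₂ α A₂) (hβ₂ : Red u₂ ρ₂ β B₂) (hP₂ : ∀ j, Red u₂ ρ₂ (P j) (Q₂ j))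
    (hcop₁ : IsCoprime A₁ B₁) (htop₁ : A₁.coeff e ≠ 0 ∨ B₁.coeff e ≠ 0)
    (hcop₂ : IsCoprime A₂ B₂) (htop₂ : A₂.coeff e ≠ 0 ∨ B₂.coeff e ≠ 0)
    (s₁ s₂ : AlgebraicClosure (RatFunc k)) (hs₁ : IsRt A₁ B₁ s₁) (hs₂ : IsRt A₂ B₂ s₂)
    (hpt₁ : IsPoint (wOne σ) I (fun j => ev (Q₁ j) s₁))
    (hpt₂ : IsPoint (wOne σ) I (fun j => ev (Q₂ j) s₂)) :
    cls (wOne σ) I (fun j => ev (Q₁ j) s₁) = cls (wOne σ) I (fun j => ev (Q₂ j) s₂) := by
  have hβ0 : β ≠ 0 := by
    intro h
    apply hs₁.1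
    rw [move_red_zero u₁ ρ₁ hβ₁ h, ev, eval₂_zero]
  let τ : RatFunc E := algebraMap E[X] (RatFunc E) α / algebraMap E[X] (RatFunc E) β
  have hβ0' : algebraMap E[X] (RatFunc E) β ≠ 0 := RatFunc.algebraMap_ne_zero hβ0
  have hτE : Transcendental E τ := by
    apply RatFunc.transcendental_of_ne_C
    rintro ⟨c, hc⟩
    have h1 : α = C c * β := by
      apply RatFunc.algebraMap_injective E
      rw [map_mul, RatFunc.algebraMap_C, ← hc, div_mul_cancel₀ _ hβ0']
    rcases le_or_gt (u₁.val c) 1 with hc1 | hc1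
    · exact move_coprime_aux hcop₁ he htop₁ _ (move_red_smul u₁ ρ₁ hα₁ hβ₁ c h1 hc1)
    · have hc0 : c ≠ 0 := by
        rintro rfl
        rw [map_zero] at hc1
        exact absurd hc1 (not_lt.2 zero_le_one)
      have h2 : β = C c⁻¹ * α := by
        rw [h1, ← mul_assoc, ← C_mul, inv_mul_cancel₀ hc0, C_1, one_mul]
      have hc2 : u₁.val c⁻¹ ≤ 1 := by
        rw [map_inv₀]
        exact inv_le_one_of_one_le₀ hc1.le
      exact move_coprime_aux hcop₁.symm he htop₁.symm _ (move_red_smul u₁ ρ₁ hβ₁ hα₁ c⁻¹ h2 hc2)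
  have hτk : Transcendental k τ := hτE.restrictScalars (algebraMap k E).injective
  obtain ⟨N, _, _, _, _, _, _, f, hf, hN, -⟩ := exists_twist_algebra E hE τ hτk
  have hΛ : Transcendental E (algebraMap (RatFunc k) N RatFunc.X) := by
    rw [hf]
    exact fun h => hτE ((isAlgebraic_algHom_iff (f : RatFunc E →ₐ[E] N) f.injective).1 h)
  let s : N := f RatFunc.X
  have haev : ∀ F : E[X], aeval s F = f (algebraMap E[X] (RatFunc E) F) := by
    intro F
    have h1 : aeval s F = f (aeval (RatFunc.X : RatFunc E) F) :=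
      Polynomial.aeval_algHom_apply (f : RatFunc E →ₐ[E] N) _ F
    rw [h1]
    congr 1
    exact RatFunc.aeval_X_left_eq_algebraMap F
  have hβs : aeval s β ≠ 0 := by
    rw [haev]
    simpa using hβ0
  have hτs : tt k N * aeval s β = aeval s α := by
    rw [haev, haev, tt, hf, ← map_mul, div_mul_cancel₀ _ hβ0']
  have hz : IsPoint (wOne σ) I (fun j => aeval s (P j)) := by
    rw [isPoint_wOne]
    refine ⟨fun h0 => ?_, fun Q hQ => ?_⟩
    · apply ((isPoint_wOne I _).1 hpt₁).1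
      funext j
      have h1 : aeval s (P j) = 0 := congrFun h0 j
      have h2 : P j = 0 := by
        rw [haev] at h1
        have h3 : algebraMap E[X] (RatFunc E) (P j) = 0 := by simpa using h1
        exact RatFunc.algebraMap_injective E (by rw [h3, map_zero])
      rw [move_red_zero u₁ ρ₁ (hP₁ j) h2, ev, eval₂_zero]
      rfl
    · rw [← aeval_bih Q hβs hτs]
      have h1 := congrArg (fun F : E[X] => aeval s F) (hfam Q hQ)
      simp only [map_zero] at h1
      rw [← h1]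
      have h2 := MvPolynomial.comp_aeval_apply
        (f := Sum.elim (fun e : Bool => cond e α β) P) ((aeval s : E[X] →ₐ[E] N).restrictScalars k)
        (bih Q)
      change _ = aeval s _
      rw [show aeval s ((MvPolynomial.aeval (Sum.elim (fun e : Bool => cond e α β) P)) (bih Q)) = _
        from h2]
      congr 2
      funext x
      rcases x with x | x
      · cases x <;> rfl
      · rfl
  refine eq_of_over hE hN hΛ _ hz (fun v => ?_) u₁ u₂ _ _ (fun v h1 _ => ?_) (fun v h1 _ => ?_)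
  · have := v.finite_resField hN
    obtain ⟨m, -, -, h3⟩ := exists_isSp_wOne hI v _ hz
      (IsAlgClosed.lift : v.resField →ₐ[RatFunc k] AlgebraicClosure (RatFunc k))
    exact ⟨_, h3⟩
  · exact ⟨_, good_spec hE hN s α β P hβs hτs v u₁ h1 ρ₁ A₁ B₁ Q₁ hα₁ hβ₁ hP₁ e he hαe hβe hcop₁
      htop₁ s₁ hs₁ hpt₁, rfl⟩
  · exact ⟨_, good_spec hE hN s α β P hβs hτs v u₂ h1 ρ₂ A₂ B₂ Q₂ hα₂ hβ₂ hP₂ e he hαe hβe hcop₂
      htop₂ s₂ hs₂ hpt₂, rfl⟩

end Pool.Agent.ThF
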