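import Pool.Agent.Helper30.BBGeo
import Pool.Agent.Helper40.AlgAvoid
import Pool.Agent.Helper16.BBProj

/-!
Module F3 (first part) of Theorem F for `MP_0b9e0b_ag`: a curve through a given point of a
projective variety which meets a given nonempty open subset.
-/

set_option autoImplicit false
set_option linter.style.haveILetI false

namespace Pool.Agent.ThF

open Pool.Agent.Helper16 Pool.Agent.Helper16.BB

theorem open_aeval_smul {K : Type} [Field K] {σ : Type} {F : Type} [Field F] [Algebra K F]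
    {P : MvPolynomial σ K} {d : ℕ} (hd : P.IsHomogeneous d) (c : F) (ξ : σ → F) :
    MvPolynomial.aeval (fun j => c * ξ j) P = c ^ d * MvPolynomial.aeval ξ P := by
  rw [MvPolynomial.aeval_def, MvPolynomial.aeval_def, MvPolynomial.eval₂_eq, MvPolynomial.eval₂_eq,
    Finset.mul_sum]
  refine Finset.sum_congr rfl fun s hs => ?_
  have h1 : s.degree = d := by
    have h2 := hd (MvPolynomial.mem_support_iff.1 hs)
    rw [← h2]
    exact DFunLike.congr_fun Finsupp.degree_eq_weight_one s
  simp only [mul_pow]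
  rw [Finset.prod_mul_distrib, Finset.prod_pow_eq_pow_sum, ← h1]
  change _ * (c ^ s.degree * _) = _
  ring

/-- Lying over a point. -/
theorem open_lift {K σ : Type} [Field K] [Finite σ]
    (𝔓 : Ideal (MvPolynomial σ (AlgebraicClosure K))) (x : σ → AlgebraicClosure K)
    (h : ∀ F : MvPolynomial σ K, F.map (algebraMap K (AlgebraicClosure K)) ∈ 𝔓 →
      MvPolynomial.aeval x F = 0) :
    ∃ τ : AlgebraicClosure K ≃ₐ[K] AlgebraicClosure K,
      ∀ Q ∈ 𝔓, MvPolynomial.aeval (fun j => τ (x j)) Q = 0 := by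
  letI : Algebra (MvPolynomial σ K) (MvPolynomial σ (AlgebraicClosure K)) :=
    MvPolynomial.algebraMvPolynomial
  have hmap : ∀ F : MvPolynomial σ K, algebraMap (MvPolynomial σ K)
      (MvPolynomial σ (AlgebraicClosure K)) F = F.map (algebraMap K (AlgebraicClosure K)) :=
    fun F => rfl
  haveI : Algebra.IsIntegral (MvPolynomial σ K) (MvPolynomial σ (AlgebraicClosure K)) :=
    inferInstance
  let M₀ : Ideal (MvPolynomial σ (AlgebraicClosure K)) :=
    MvPolynomial.vanishingIdeal (AlgebraicClosure K) {x}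
  haveI : M₀.IsMaximal := inferInstance
  let J : Ideal (MvPolynomial σ K) := M₀.comap (algebraMap _ _)
  haveI hJ : J.IsMaximal := Ideal.isMaximal_comap_of_isIntegral_of_isMaximal M₀
  have hJm : ∀ F, F ∈ J ↔ MvPolynomial.aeval x F = 0 := by
    intro F
    rw [Ideal.mem_comap, MvPolynomial.mem_vanishingIdeal_singleton_iff, hmap,
      MvPolynomial.aeval_map_algebraMap]
  obtain ⟨Q, hQ𝔓, hQ, hQJ⟩ := Ideal.exists_ideal_over_prime_of_isIntegral J 𝔓 (fun F hF => by
    rw [hJm]
    exact h F hF)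
  haveI hQm : Q.IsMaximal := Ideal.isMaximal_of_isIntegral_of_isMaximal_comap
    (R := MvPolynomial σ K) Q (by rw [hQJ]; exact hJ)
  obtain ⟨x', hx'⟩ := MvPolynomial.isMaximal_iff_eq_vanishingIdeal_singleton.1 hQm
  have hiff : ∀ F : MvPolynomial σ K, F ∈ J ↔ MvPolynomial.aeval x' F = 0 := by
    intro F
    rw [← hQJ, Ideal.mem_comap, hx', MvPolynomial.mem_vanishingIdeal_singleton_iff, hmap,
      MvPolynomial.aeval_map_algebraMap]
  letI : Field (MvPolynomial σ K ⧸ J) := Ideal.Quotient.field J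
  let φ : (MvPolynomial σ K ⧸ J) →ₐ[K] AlgebraicClosure K :=
    Ideal.Quotient.liftₐ J (MvPolynomial.aeval x) (fun F hF => (hJm F).1 hF)
  let φ' : (MvPolynomial σ K ⧸ J) →ₐ[K] AlgebraicClosure K :=
    Ideal.Quotient.liftₐ J (MvPolynomial.aeval x') (fun F hF => (hiff F).1 hF)
  haveI : Algebra.IsAlgebraic K (MvPolynomial σ K ⧸ J) :=
    Algebra.IsAlgebraic.of_injective φ φ.toRingHom.injective
  obtain ⟨τ, hτ⟩ := PtFunctor.exists_conj φ φ'
  refine ⟨τ, fun F hF => ?_⟩
  have h1 : (fun j => τ (x j)) = x' := by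
    funext j
    have h2 := DFunLike.congr_fun hτ (Ideal.Quotient.mk J (MvPolynomial.X j))
    change τ (MvPolynomial.aeval x (MvPolynomial.X j)) = MvPolynomial.aeval x' (MvPolynomial.X j) at h2
    rwa [MvPolynomial.aeval_X, MvPolynomial.aeval_X] at h2
  rw [h1]
  have h3 := hQ𝔓 hF
  rwa [hx', MvPolynomial.mem_vanishingIdeal_singleton_iff] at h3

/-- A curve through a conjugate of a given point, not contained in a given hypersurface. -/
theorem open_curve_aux {K : Type} [Field K] {σ : Type} [Finite σ] {I : Set (MvPolynomial σ K)}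
    {W : Type} [Field W] [Algebra K W] [Algebra (AlgebraicClosure K) W]
    [IsScalarTower K (AlgebraicClosure K) W] (η : σ → W)
    (hηI : ∀ P ∈ I, MvPolynomial.aeval η P = 0) (htr : ∃ i, Transcendental K (η i))
    (h : MvPolynomial σ K) (hh : MvPolynomial.aeval η h ≠ 0)
    (x : σ → AlgebraicClosure K)
    (hker : ∀ F : MvPolynomial σ K, MvPolynomial.aeval η F = 0 → MvPolynomial.aeval x F = 0) :
    ∃ (τ : AlgebraicClosure K ≃ₐ[K] AlgebraicClosure K) (E : Type) (_ : Field E) (_ : Algebra K E)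
      (z : σ → E) (w : Place K E) (ρ : w.resField →ₐ[K] AlgebraicClosure K),
      IsFunctionField K E ∧ (∀ P ∈ I, MvPolynomial.aeval z P = 0) ∧ MvPolynomial.aeval z h ≠ 0 ∧
      ∀ j, w.val (z j) ≤ 1 ∧ ρ (w.res (z j)) = τ (x j) := by
  let Ω : Type := AlgebraicClosure K
  let Φ : MvPolynomial σ (AlgebraicClosure K) →ₐ[AlgebraicClosure K] W := MvPolynomial.aeval η
  have hΦ : ∀ F : MvPolynomial σ K, Φ (F.map (algebraMap K (AlgebraicClosure K))) =
      MvPolynomial.aeval η F := fun F => MvPolynomial.aeval_map_algebraMap _ _ _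
  let 𝔓 : Ideal (MvPolynomial σ (AlgebraicClosure K)) := RingHom.ker Φ
  haveI : 𝔓.IsPrime := RingHom.ker_isPrime Φ
  obtain ⟨τ, hτ⟩ := open_lift 𝔓 x (fun F hF => hker F (by rw [← hΦ]; exact hF))
  let R : Type := MvPolynomial σ (AlgebraicClosure K) ⧸ 𝔓
  let q : MvPolynomial σ (AlgebraicClosure K) →ₐ[AlgebraicClosure K] R :=
    Ideal.Quotient.mkₐ (AlgebraicClosure K) 𝔓
  have hq : Function.Surjective q := Ideal.Quotient.mkₐ_surjective (AlgebraicClosure K) 𝔓
  haveI : Algebra.FiniteType (AlgebraicClosure K) R := Algebra.FiniteType.of_surjective q hq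
  let u₀ : R →ₐ[AlgebraicClosure K] AlgebraicClosure K :=
    Ideal.Quotient.liftₐ 𝔓 (MvPolynomial.aeval fun j => τ (x j)) hτ
  have hu₀ : ∀ P, u₀ (q P) = MvPolynomial.aeval (fun j => τ (x j)) P := fun P => rfl
  let ι : R →ₐ[AlgebraicClosure K] W := Ideal.Quotient.liftₐ 𝔓 Φ (fun a ha => ha)
  have hι : ∀ P, ι (q P) = Φ P := fun P => rfl
  have htrR : 1 ≤ Algebra.trdeg (AlgebraicClosure K) R := by
    rw [Cardinal.one_le_iff_ne_zero, _root_.trdeg_ne_zero_iff]
    obtain ⟨i, hi⟩ := htr
    refine ⟨⟨q (MvPolynomial.X i), fun halg => hi ?_⟩⟩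
    have h1 : IsAlgebraic (AlgebraicClosure K) (η i) := by
      have h2 := halg.algHom ι
      rw [hι] at h2
      simpa [Φ] using h2
    exact h1.restrictScalars K
  have hf0 : q (h.map (algebraMap K (AlgebraicClosure K))) ≠ 0 := by
    intro h0
    have h1 : h.map (algebraMap K (AlgebraicClosure K)) ∈ 𝔓 := Ideal.Quotient.eq_zero_iff_mem.1 h0
    apply hh
    rw [← hΦ]
    exact h1
  obtain ⟨𝔭, h𝔭, hf𝔭, hu𝔭, htr𝔭⟩ := Pool.Agent.Helper40.AlgAvoid.curve_avoid u₀ htrR _ hf0
  haveI := h𝔭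
  let χ : MvPolynomial σ (AlgebraicClosure K) →ₐ[AlgebraicClosure K] (R ⧸ 𝔭) :=
    (Ideal.Quotient.mkₐ (AlgebraicClosure K) 𝔭).comp q
  have hχ : Function.Surjective χ :=
    (Ideal.Quotient.mkₐ_surjective (AlgebraicClosure K) 𝔭).comp hq
  have hχ0 : ∀ x, x ∈ RingHom.ker χ ↔ q x ∈ 𝔭 := fun x => by
    rw [RingHom.mem_ker]
    exact Ideal.Quotient.eq_zero_iff_mem
  have htr' : Algebra.trdeg (AlgebraicClosure K)
      (MvPolynomial σ (AlgebraicClosure K) ⧸ RingHom.ker χ) = 1 := by
    rw [← htr𝔭]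
    exact (Ideal.quotientKerAlgEquivOfSurjective hχ).trdeg_eq
  obtain ⟨E, iE, iA, z, hE, hz, -, hpl⟩ := Pool.Agent.Helper30.BBGeo.exists_const_curve
    (RingHom.ker χ) (RingHom.ker_isPrime χ) htr'
  obtain ⟨w, ρ, hw⟩ := hpl (fun j => τ (x j)) (fun Q hQ => by
    rw [← hu₀]
    exact hu𝔭 ((hχ0 Q).1 hQ))
  refine ⟨τ, E, iE, iA, z, w, ρ, hE, ?_, ?_, hw⟩
  · intro P hP
    rw [hz, hχ0]
    have h1 : q (P.map (algebraMap K (AlgebraicClosure K))) = 0 := by
      apply Ideal.Quotient.eq_zero_iff_mem.2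
      change Φ _ = 0
      rw [hΦ]
      exact hηI P hP
    rw [h1]
    exact zero_mem _
  · rw [Ne, hz, hχ0]
    exact hf𝔭

/-- A curve through a conjugate of a given point of a projective variety, meeting a given open
subset. -/
theorem open_curve {K : Type} [Field K] {σ : Type} [Finite σ]
    {I : Set (MvPolynomial σ K)} (hI : ∀ P ∈ I, ∃ d, P.IsHomogeneous d)
    {M : Type} [Field M] [Algebra K M] (ξ : σ → M) (hξ : IsPoint (wOne σ) I ξ)
    (hgen : ∀ P : MvPolynomial σ K, (∃ d, P.IsHomogeneous d) →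
      MvPolynomial.aeval ξ P = 0 → ∀ x : σ → AlgebraicClosure K,
        IsPoint (wOne σ) I x → MvPolynomial.aeval x P = 0)
    (h : MvPolynomial σ K) (hh : ∃ d, h.IsHomogeneous d) (hξh : MvPolynomial.aeval ξ h ≠ 0)
    (x : σ → AlgebraicClosure K) (hx : IsPoint (wOne σ) I x) :
    ∃ (τ : AlgebraicClosure K ≃ₐ[K] AlgebraicClosure K) (E : Type) (_ : Field E) (_ : Algebra K E)
      (z : σ → E) (w : Place K E) (ρ : w.resField →ₐ[K] AlgebraicClosure K),
      IsFunctionField K E ∧ (∀ P ∈ I, MvPolynomial.aeval z P = 0) ∧ MvPolynomial.aeval z h ≠ 0 ∧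
      ∀ j, w.val (z j) ≤ 1 ∧ ρ (w.res (z j)) = τ (x j) := by
  let W : Type := AlgebraicClosure (RatFunc M)
  letI : Algebra (AlgebraicClosure K) W :=
    (IsAlgClosed.lift : AlgebraicClosure K →ₐ[K] W).toRingHom.toAlgebra
  haveI : IsScalarTower K (AlgebraicClosure K) W :=
    IsScalarTower.of_algebraMap_eq fun a =>
      ((IsAlgClosed.lift : AlgebraicClosure K →ₐ[K] W).commutes a).symm
  let u : W := algebraMap (RatFunc M) W RatFunc.X
  have hutr : Transcendental M u := by
    have h1 : Transcendental M (RatFunc.X : RatFunc M) := by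
      exact RatFunc.transcendental_X
    exact (transcendental_algebraMap_iff (algebraMap (RatFunc M) W).injective).2 h1
  have hu0 : u ≠ 0 := by
    rintro h0
    rw [h0] at hutr
    exact hutr isAlgebraic_zero
  let η : σ → W := fun j => u * algebraMap M W (ξ j)
  have hη : ∀ (P : MvPolynomial σ K) (d : ℕ), P.IsHomogeneous d →
      MvPolynomial.aeval η P = u ^ d * algebraMap M W (MvPolynomial.aeval ξ P) := by
    intro P d hd
    rw [open_aeval_smul hd]
    congr 1
    exact (MvPolynomial.comp_aeval_apply (f := ξ) (IsScalarTower.toAlgHom K M W) P).symm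
  have hη0 : ∀ P : MvPolynomial σ K, (∃ d, P.IsHomogeneous d) → (MvPolynomial.aeval η P = 0 ↔
      MvPolynomial.aeval ξ P = 0) := by
    rintro P ⟨d, hd⟩
    rw [hη P d hd, mul_eq_zero, or_iff_right (pow_ne_zero d hu0)]
    exact map_eq_zero (algebraMap M W)
  obtain ⟨h0, hξI⟩ := (isPoint_wOne I ξ).1 hξ
  refine open_curve_aux (W := W) η (fun P hP => (hη0 P (hI P hP)).2 (hξI P hP)) ?_ h
    (fun h1 => hξh ((hη0 h hh).1 h1)) x ?_
  · obtain ⟨i, hi⟩ := Function.ne_iff.1 h0
    refine ⟨i, fun halg => hutr ?_⟩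
    have h1 : IsAlgebraic M (η i) := halg.tower_top M
    have h2 : u = η i * algebraMap M W (ξ i)⁻¹ := by
      have h3 : algebraMap M W (ξ i) ≠ 0 := by simpa using hi
      rw [map_inv₀]
      simp only [η]
      rw [mul_assoc, mul_inv_cancel₀ h3, mul_one]
    rw [h2]
    exact h1.mul (isAlgebraic_algebraMap _)
  · intro F hF
    have hcomp : ∀ d, MvPolynomial.aeval ξ (MvPolynomial.homogeneousComponent d F) = 0 := by
      let p : Polynomial M := ∑ d ∈ Finset.range (F.totalDegree + 1),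
        Polynomial.monomial d (MvPolynomial.aeval ξ (MvPolynomial.homogeneousComponent d F))
      have hp : p = 0 := by
        by_contra hne
        refine hutr ⟨p, hne, ?_⟩
        have h2 := congrArg (MvPolynomial.aeval η) (MvPolynomial.sum_homogeneousComponent F)
        rw [map_sum, hF] at h2
        rw [← h2, map_sum]
        refine Finset.sum_congr rfl fun d _ => ?_
        rw [hη _ d (MvPolynomial.homogeneousComponent_isHomogeneous d F),
          Polynomial.aeval_monomial, mul_comm]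
      intro d
      by_cases hd : d ∈ Finset.range (F.totalDegree + 1)
      · have h1 := congrArg (fun q : Polynomial M => q.coeff d) hp
        simp only [p, Polynomial.finsetSum_coeff, Polynomial.coeff_monomial,
          Polynomial.coeff_zero] at h1
        rwa [Finset.sum_ite_eq' (Finset.range (F.totalDegree + 1)) d, if_pos hd] at h1
      · rw [MvPolynomial.homogeneousComponent_eq_zero d F (by
          rw [Finset.mem_range] at hd
          omega), map_zero]
    rw [← MvPolynomial.sum_homogeneousComponent F, map_sum]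
    exact Finset.sum_eq_zero fun d _ =>
      hgen _ ⟨d, MvPolynomial.homogeneousComponent_isHomogeneous d F⟩ (hcomp d) x hx

end Pool.Agent.ThF
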