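import Pool.Agent.ThF.Defs
import Pool.Agent.ThF.OpenA

/-!
Module F3 of Theorem F for `MP_0b9e0b_ag`: zero-cycles can be moved into a nonempty open subset.
-/

set_option autoImplicit false
set_option linter.style.haveILetI false

namespace Pool.Agent.ThF

open Pool.Agent.Helper16 Pool.Agent.Helper16.BB

/-- Value of a homogeneous polynomial at the specialisation. -/
theorem open_spec_val {K : Type} [Field K] {σ : Type} [Finite σ]
    {N : Type} [Field N] [Algebra K N] (v : Place K N) (z : σ → N) (m : σ)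
    (hv : ∀ j, v.val (z j / z m) ≤ 1) (φ : v.resField →ₐ[K] AlgebraicClosure K)
    (h : MvPolynomial σ K) (hval : v.val (MvPolynomial.aeval (fun j => z j / z m) h) = 1) :
    MvPolynomial.aeval (fun j => φ (v.res (z j / z m))) h ≠ 0 := by
  obtain ⟨h1, h2⟩ := aeval_res_eq v (fun j => z j / z m) hv h
  have h3 : MvPolynomial.aeval (fun j => φ (v.res (z j / z m))) h =
      φ (MvPolynomial.aeval (fun j => v.res (z j / z m)) h) :=
    (MvPolynomial.comp_aeval_apply (f := fun j => v.res (z j / z m)) φ h).symm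
  rw [h3, h2]
  intro h4
  have h5 : v.res (MvPolynomial.aeval (fun j => z j / z m) h) = 0 :=
    (map_eq_zero φ).1 h4
  rw [v.res_eq_zero_iff h1, hval] at h5
  exact lt_irrefl _ h5

/-- Module F3. Zero-cycles can be moved into a nonempty open subset. -/
theorem cls_mem_of_open {K : Type} [Field K] [Infinite K] {σ : Type} [Finite σ]
    {I : Set (MvPolynomial σ K)} (hI : ∀ P ∈ I, ∃ d, P.IsHomogeneous d)
    {M : Type} [Field M] [Algebra K M] (ξ : σ → M) (hξ : IsPoint (wOne σ) I ξ)
    (hgen : ∀ P : MvPolynomial σ K, (∃ d, P.IsHomogeneous d) →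
      MvPolynomial.aeval ξ P = 0 → ∀ x : σ → AlgebraicClosure K,
        IsPoint (wOne σ) I x → MvPolynomial.aeval x P = 0)
    (h : MvPolynomial σ K) (hh : ∃ d, h.IsHomogeneous d) (hξh : MvPolynomial.aeval ξ h ≠ 0)
    (V : Submodule ℚ (Quo (wOne σ) I))
    (hV : ∀ x : σ → AlgebraicClosure K, IsPoint (wOne σ) I x → MvPolynomial.aeval x h ≠ 0 →
      cls (wOne σ) I x ∈ V)
    (x : σ → AlgebraicClosure K) (hx : IsPoint (wOne σ) I x) : cls (wOne σ) I x ∈ V := by
  classical
  obtain ⟨τ, E, _, _, z, w, ρ, hE, hzI, hzh, hw⟩ := open_curve hI ξ hξ hgen h hh hξh x hx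
  have hτx : IsPoint (wOne σ) I (fun j => τ (x j)) := isPoint_map τ.toAlgHom x hx
  -- the generic point of the curve
  have hz0 : z ≠ 0 := by
    intro h0
    apply ((isPoint_wOne I _).1 hτx).1
    funext j
    rw [← (hw j).2, h0, Pi.zero_apply, w.res_zero, map_zero]
    rfl
  have hz : IsPoint (wOne σ) I z := (isPoint_wOne I z).2 ⟨hz0, hzI⟩
  have hsp : IsSp (wOne σ) I w z (fun j => τ (x j)) := by
    refine ⟨hτx, ρ, fun _ => 1, fun _ => one_ne_zero, fun j => ?_, fun j => ?_⟩
    · rw [scale_one]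
      exact (hw j).1
    · rw [scale_one]
      exact (hw j).2.symm
  -- the bad places
  obtain ⟨d, hd⟩ := hh
  have ha0 : ∀ m : σ, z m ≠ 0 → MvPolynomial.aeval (fun j => z j / z m) h ≠ 0 := by
    intro m hm
    have h1 : (fun j => z j / z m) = fun j => (z m)⁻¹ * z j := by
      funext j
      rw [div_eq_inv_mul]
    rw [h1, open_aeval_smul hd]
    exact mul_ne_zero (pow_ne_zero _ (inv_ne_zero hm)) hzh
  choose S hS hS' using fun m : σ => hE.product_formula (MvPolynomial.aeval (fun j => z j / z m) h)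
  haveI := Fintype.ofFinite σ
  let Bad : Finset (Place K E) := Finset.univ.biUnion S
  have hgood : ∀ v : Place K E, v ∉ Bad → ∃ y, IsSp (wOne σ) I v z y ∧ cls (wOne σ) I y ∈ V := by
    intro v hv
    haveI := v.finite_resField hE
    obtain ⟨m, hm, h1, h2⟩ := exists_isSp_wOne hI v z hz IsAlgClosed.lift
    refine ⟨_, h2, hV _ h2.1 ?_⟩
    apply open_spec_val v z m h1
    by_contra hne
    apply hv
    rw [Finset.mem_biUnion]
    refine ⟨m, Finset.mem_univ m, ?_⟩
    rw [hS]
    intro h0
    exact hne ((v.ord_eq_zero_iff (ha0 m hm)).1 h0)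
  -- a function with its only pole at `w`
  obtain ⟨g, hg, hgp⟩ := hE.exists_single_pole w
  have hgw : 1 < w.val g := by
    obtain ⟨T, hT, hs, hpos⟩ := hE.zeros g⁻¹ (transcendental_inv hg)
    have hne : T.Nonempty := by
      by_contra hemp
      rw [Finset.not_nonempty_iff_eq_empty] at hemp
      rw [hemp, Finset.sum_empty] at hs
      have : (0 : ℤ) < (Module.finrank (IntermediateField.adjoin K {g⁻¹}) E : ℤ) := by
        exact_mod_cast hpos
      omega
    obtain ⟨v', hv'⟩ := hne
    have hg0 : g ≠ 0 := by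
      rintro rfl
      exact hg isAlgebraic_zero
    rw [hT, map_inv₀, inv_lt_one₀ (zero_lt_iff.2 (by simpa using hg0))] at hv'
    by_contra hcon
    have h2 : v' ≠ w := by
      rintro rfl
      exact hcon hv'
    exact absurd hv' (not_lt.2 (hgp v' h2))
  -- a good constant
  have hbadc : ∀ v : Place K E, v ≠ w → {c : K | v.val (g + algebraMap K E c) ≠ 1}.Subsingleton := by
    intro v hv c hc c' hc'
    by_contra hcc
    have h1 : ∀ c : K, v.val (g + algebraMap K E c) ≠ 1 → v.val (g + algebraMap K E c) < 1 := by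
      intro c hc
      exact lt_of_le_of_ne ((v.val.map_add _ _).trans
        (max_le (hgp v hv) (v.val_algebraMap_le c))) hc
    have h2 : v.val (algebraMap K E (c - c')) < 1 := by
      have h3 : algebraMap K E (c - c') =
          (g + algebraMap K E c) - (g + algebraMap K E c') := by
        rw [map_sub]
        ring
      rw [h3]
      exact (v.val.map_sub _ _).trans_lt (max_lt (h1 c hc) (h1 c' hc'))
    rw [v.triv _ (sub_ne_zero.2 hcc)] at h2
    exact lt_irrefl _ h2
  obtain ⟨c, hc⟩ : ∃ c : K, ∀ v ∈ Bad, v ≠ w → v.val (g + algebraMap K E c) = 1 := by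
    have hfin : (⋃ v ∈ {v : Place K E | v ∈ Bad ∧ v ≠ w},
        {c : K | v.val (g + algebraMap K E c) ≠ 1}).Finite := by
      refine Set.Finite.biUnion ?_ (fun v hv => (hbadc v hv.2).finite)
      exact Bad.finite_toSet.subset fun v hv => hv.1
    obtain ⟨c, hc⟩ := hfin.exists_notMem
    refine ⟨c, fun v hv hvw => ?_⟩
    by_contra hne
    exact hc (Set.mem_biUnion (show v ∈ {v : Place K E | v ∈ Bad ∧ v ≠ w} from ⟨hv, hvw⟩) hne)
  set f : E := (g + algebraMap K E c)⁻¹ with hf
  have hgw' : 1 < w.val (g + algebraMap K E c) := by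
    have h1 : w.val (algebraMap K E c) < w.val g := (w.val_algebraMap_le c).trans_lt hgw
    rw [Valuation.map_add_eq_of_lt_left _ h1]
    exact hgw
  have hgc0 : g + algebraMap K E c ≠ 0 := by
    intro h0
    rw [h0, map_zero] at hgw'
    exact not_lt_zero hgw'
  have hf0 : f ≠ 0 := inv_ne_zero hgc0
  have hwf : 0 < w.ord f := by
    rw [hf, w.ord_inv, neg_pos, w.ord_neg_iff hgc0]
    exact hgw'
  have hex : ∀ v : Place K E, ∃ y, IsSp (wOne σ) I v z y := by
    intro v
    haveI := v.finite_resField hE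
    obtain ⟨m, hm, h1, h2⟩ := exists_isSp_wOne hI v z hz IsAlgClosed.lift
    exact ⟨_, h2⟩
  have hcls : cls (wOne σ) I (fun j => τ (x j)) = cls (wOne σ) I x := cls_conj τ x hx
  refine mem_of_relation hE z hz hex f hf0 V (cls (wOne σ) I x) ?_ w hwf ⟨_, hsp, hcls⟩
  intro v hv
  by_cases hvw : v = w
  · subst hvw
    exact ⟨_, hsp, Or.inr ⟨hwf, hcls⟩⟩
  · have hvB : v ∉ Bad := by
      intro hvB
      apply hv
      rw [hf, v.ord_inv, neg_eq_zero, v.ord_eq_zero_iff hgc0]
      exact hc v hvB hvw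
    obtain ⟨y, h1, h2⟩ := hgood v hvB
    exact ⟨y, h1, Or.inl h2⟩

end Pool.Agent.ThF
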