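import Pool.Agent.ThF.Defs

set_option autoImplicit false
set_option linter.unusedSectionVars false
set_option linter.style.haveILetI false

/-! Theorem F for `MP_0b9e0b_ag`, module F4: places that are not trivial on the parameter field
are Gauss places after a finite extension. -/

namespace Pool.Agent.ThF

open Pool.Agent.Helper16 Pool.Agent.Helper16.BB Polynomial

/-- A valuation of the field `Om` together with a residue map to a field `Ω` (with junk values
outside the valuation ring). -/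
structure GP (Om Γ Ω : Type) [Field Om] [LinearOrderedCommGroupWithZero Γ] [Field Ω] where
  /-- the valuation -/
  val : Valuation Om Γ
  /-- the residue map -/
  R : Om → Ω
  add : ∀ x y, val x ≤ 1 → val y ≤ 1 → R (x + y) = R x + R y
  mul : ∀ x y, val x ≤ 1 → val y ≤ 1 → R (x * y) = R x * R y
  one : R 1 = 1
  zero_iff : ∀ x, val x ≤ 1 → (R x = 0 ↔ val x < 1)

theorem gs_isAlgebraic_of_sum {k₀ Ω : Type} [Field k₀] [Field Ω] [Algebra k₀ Ω] (n : ℕ)
    (c : ℕ → Ω) (hc : ∀ i, IsAlgebraic k₀ (c i)) (i₀ : ℕ) (hi₀ : i₀ < n) (h0 : c i₀ ≠ 0) (r : Ω)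
    (h : ∑ i ∈ Finset.range n, c i * r ^ i = 0) : IsAlgebraic k₀ r := by
  have hmem : ∀ i, c i ∈ algebraicClosure k₀ Ω := fun i => mem_algebraicClosure_iff.2 (hc i)
  let p : (algebraicClosure k₀ Ω)[X] := ∑ i ∈ Finset.range n, C ⟨c i, hmem i⟩ * X ^ i
  have hp : p ≠ 0 := by
    intro hp0
    have h1 : p.coeff i₀ = ⟨c i₀, hmem i₀⟩ := by
      simp only [p, finsetSum_coeff, coeff_C_mul, coeff_X_pow]
      rw [Finset.sum_eq_single i₀]
      · simp
      · intro j _ hj
        rw [if_neg (Ne.symm hj), mul_zero]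
      · intro hn
        exact absurd (Finset.mem_range.2 hi₀) hn
    rw [hp0, coeff_zero] at h1
    exact h0 (congrArg Subtype.val h1).symm
  have hroot : aeval r p = 0 := by
    simp only [p, map_sum, map_mul, map_pow, aeval_X, aeval_C]
    exact h
  exact IsAlgebraic.restrictScalars k₀ ⟨p, hp, hroot⟩

namespace GP

variable {Om Γ Ω : Type} [Field Om] [LinearOrderedCommGroupWithZero Γ] [Field Ω] (g : GP Om Γ Ω)

theorem R_zero : g.R 0 = 0 := (g.zero_iff 0 (by simp)).2 (by simp)

theorem R_ne_zero {x : Om} (hx : g.val x = 1) : g.R x ≠ 0 := by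
  intro h
  exact ((g.zero_iff x hx.le).1 h).ne hx

theorem val_pow_le {x : Om} (hx : g.val x ≤ 1) (n : ℕ) : g.val (x ^ n) ≤ 1 := by
  rw [map_pow]
  exact pow_le_one' hx n

theorem R_pow {x : Om} (hx : g.val x ≤ 1) (n : ℕ) : g.R (x ^ n) = g.R x ^ n := by
  induction n with
  | zero => simp [g.one]
  | succ n ih => rw [pow_succ, g.mul _ _ (g.val_pow_le hx n) hx, ih, pow_succ]

theorem R_sum {ι : Type} (s : Finset ι) (f : ι → Om) (hf : ∀ i ∈ s, g.val (f i) ≤ 1) :
    g.val (∑ i ∈ s, f i) ≤ 1 ∧ g.R (∑ i ∈ s, f i) = ∑ i ∈ s, g.R (f i) := by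
  classical
  induction s using Finset.induction_on with
  | empty => simp [g.R_zero]
  | insert a s ha ih =>
    have h1 := ih fun i hi => hf i (Finset.mem_insert_of_mem hi)
    have h2 := hf a (Finset.mem_insert_self _ _)
    rw [Finset.sum_insert ha, Finset.sum_insert ha]
    exact ⟨(g.val.map_add _ _).trans (max_le h2 h1.1), by rw [g.add _ _ h2 h1.1, h1.2]⟩

theorem R_eval (c : ℕ → Om) (n : ℕ) (hc : ∀ i, g.val (c i) ≤ 1) {y : Om} (hy : g.val y ≤ 1) :
    g.val (∑ i ∈ Finset.range n, c i * y ^ i) ≤ 1 ∧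
    g.R (∑ i ∈ Finset.range n, c i * y ^ i) = ∑ i ∈ Finset.range n, g.R (c i) * g.R y ^ i := by
  have h1 : ∀ i ∈ Finset.range n, g.val (c i * y ^ i) ≤ 1 := fun i _ => by
    rw [map_mul]
    exact mul_le_one' (hc i) (g.val_pow_le hy i)
  have h2 := g.R_sum (Finset.range n) (fun i => c i * y ^ i) h1
  refine ⟨h2.1, h2.2.trans (Finset.sum_congr rfl fun i _ => ?_)⟩
  rw [g.mul _ _ (hc i) (g.val_pow_le hy i), g.R_pow hy]

theorem val_eq_one_of {x : Om} (hx : g.val x ≤ 1) (h : g.R x ≠ 0) : g.val x = 1 := by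
  refine le_antisymm hx ?_
  by_contra hlt
  rw [not_le] at hlt
  exact h ((g.zero_iff x hx).2 hlt)

theorem val_div_le_iff {x e : Om} (he : e ≠ 0) : g.val (x / e) ≤ 1 ↔ g.val x ≤ g.val e := by
  rw [map_div₀]
  exact div_le_one₀ (zero_lt_iff.2 ((Valuation.ne_zero_iff _).2 he))

theorem val_div_eq_iff {x e : Om} (he : e ≠ 0) : g.val (x / e) = 1 ↔ g.val x = g.val e := by
  rw [map_div₀]
  exact div_eq_one_iff_eq ((Valuation.ne_zero_iff _).2 he)

section coeffs

variable {k₀ F : Type} [Field k₀] [Algebra k₀ Ω] [Field F] [Algebra F Om]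

/-- Scaling a polynomial by a coefficient of largest value. -/
theorem exists_scale (p : F[X]) (hp : p ≠ 0) (y : Om) (hy : g.val y ≤ 1) :
    ∃ i₀, p.coeff i₀ ≠ 0 ∧ i₀ < p.natDegree + 1 ∧
      (∀ i, g.val (algebraMap F Om (p.coeff i / p.coeff i₀)) ≤ 1) ∧
      (∀ i, g.val (algebraMap F Om (p.coeff i)) ≤ g.val (algebraMap F Om (p.coeff i₀))) ∧
      g.val (aeval y p / algebraMap F Om (p.coeff i₀)) ≤ 1 ∧
      g.R (aeval y p / algebraMap F Om (p.coeff i₀)) = ∑ i ∈ Finset.range (p.natDegree + 1),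
        g.R (algebraMap F Om (p.coeff i / p.coeff i₀)) * g.R y ^ i := by
  obtain ⟨i₀, hi₀, hmax⟩ := p.support.exists_max_image
    (fun i => g.val (algebraMap F Om (p.coeff i))) (Polynomial.nonempty_support_iff.2 hp)
  have he : p.coeff i₀ ≠ 0 := mem_support_iff.1 hi₀
  have he' : algebraMap F Om (p.coeff i₀) ≠ 0 := by simpa using he
  have hle : ∀ i, g.val (algebraMap F Om (p.coeff i)) ≤ g.val (algebraMap F Om (p.coeff i₀)) := by
    intro i
    by_cases hi : p.coeff i = 0
    · rw [hi, map_zero, map_zero]; exact zero_le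
    · exact hmax i (mem_support_iff.2 hi)
  have hc : ∀ i, g.val (algebraMap F Om (p.coeff i / p.coeff i₀)) ≤ 1 := by
    intro i
    rw [map_div₀, g.val_div_le_iff he']
    exact hle i
  have hsum : aeval y p / algebraMap F Om (p.coeff i₀) = ∑ i ∈ Finset.range (p.natDegree + 1),
      algebraMap F Om (p.coeff i / p.coeff i₀) * y ^ i := by
    rw [aeval_eq_sum_range, Finset.sum_div]
    refine Finset.sum_congr rfl fun i _ => ?_
    rw [map_div₀, Algebra.smul_def]
    ring
  have h2 := g.R_eval (fun i => algebraMap F Om (p.coeff i / p.coeff i₀)) (p.natDegree + 1) hc hy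
  exact ⟨i₀, he, Nat.lt_succ_of_le (le_natDegree_of_ne_zero he), hc, hle, by rw [hsum]; exact h2.1,
    by rw [hsum]; exact h2.2⟩

/-- Residues of algebraic elements are algebraic. -/
theorem isAlgebraic_R
    (h : ∀ a : F, g.val (algebraMap F Om a) ≤ 1 → IsAlgebraic k₀ (g.R (algebraMap F Om a)))
    {x : Om} (hx : g.val x ≤ 1) (hxa : IsAlgebraic F x) : IsAlgebraic k₀ (g.R x) := by
  obtain ⟨p, hp, hpx⟩ := hxa
  obtain ⟨i₀, he, hi₀, hc, hle, h1, h2⟩ := g.exists_scale p hp x hx
  rw [hpx, zero_div, g.R_zero] at h2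
  refine gs_isAlgebraic_of_sum (p.natDegree + 1)
    (fun i => g.R (algebraMap F Om (p.coeff i / p.coeff i₀))) (fun i => h _ (hc i)) i₀ hi₀ ?_
    (g.R x) h2.symm
  rw [div_self he, map_one, g.one]
  exact one_ne_zero

/-- Gauss' lemma. -/
theorem gauss
    (h : ∀ a : F, g.val (algebraMap F Om a) ≤ 1 → IsAlgebraic k₀ (g.R (algebraMap F Om a)))
    {y : Om} (hy : g.val y ≤ 1) (hyt : ¬ IsAlgebraic k₀ (g.R y)) (G : F[X]) (hG : G ≠ 0) :
    ∃ i₀, G.coeff i₀ ≠ 0 ∧ g.val (aeval y G) = g.val (algebraMap F Om (G.coeff i₀)) ∧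
      ∀ i, g.val (algebraMap F Om (G.coeff i)) ≤ g.val (aeval y G) := by
  obtain ⟨i₀, he, hi₀, hc, hle, h1, h2⟩ := g.exists_scale G hG y hy
  have he' : algebraMap F Om (G.coeff i₀) ≠ 0 := by simpa using he
  have h3 : g.R (aeval y G / algebraMap F Om (G.coeff i₀)) ≠ 0 := by
    intro h0
    rw [h2] at h0
    refine hyt (gs_isAlgebraic_of_sum (G.natDegree + 1)
      (fun i => g.R (algebraMap F Om (G.coeff i / G.coeff i₀))) (fun i => h _ (hc i)) i₀ hi₀ ?_
      (g.R y) h0)
    rw [div_self he, map_one, g.one]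
    exact one_ne_zero
  have h4 := (g.val_div_eq_iff he').1 (g.val_eq_one_of h1 h3)
  exact ⟨i₀, he, h4, fun i => (hle i).trans h4.ge⟩

end coeffs

end GP

/-- Elements of the algebraic closure of `k(t)` algebraic over `k` come from the algebraic closure
of `k`. -/
theorem gs_exists_jc {k : Type} [Field k] (x : AlgebraicClosure (RatFunc k))
    (hx : IsAlgebraic k x) : ∃ a : AlgebraicClosure k, jc k a = x := by
  have h1 : (minpoly k x).map (algebraMap k (AlgebraicClosure k)) |>.Splits :=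
    IsAlgClosed.splits _
  have hm : minpoly k x ≠ 0 := minpoly.ne_zero hx.isIntegral
  have h2 : ((minpoly k x).map (algebraMap k (AlgebraicClosure (RatFunc k)))).roots =
      ((minpoly k x).map (algebraMap k (AlgebraicClosure k))).roots.map (jc k) := by
    have h3 := h1.roots_map (jc k : AlgebraicClosure k →+* AlgebraicClosure (RatFunc k))
    rw [Polynomial.map_map] at h3
    have h4 : (jc k : AlgebraicClosure k →+* AlgebraicClosure (RatFunc k)).comp
        (algebraMap k (AlgebraicClosure k)) = algebraMap k (AlgebraicClosure (RatFunc k)) :=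
      (jc k).comp_algebraMap
    rw [h4] at h3
    exact h3
  have h5 : x ∈ ((minpoly k x).map (algebraMap k (AlgebraicClosure (RatFunc k)))).roots := by
    rw [mem_roots (by rwa [Polynomial.map_ne_zero_iff (algebraMap k _).injective]), IsRoot.def,
      eval_map_algebraMap]
    exact minpoly.aeval k x
  rw [h2, Multiset.mem_map] at h5
  obtain ⟨a, _, ha⟩ := h5
  exact ⟨a, ha⟩

/-- Reduction of a polynomial. -/
theorem gs_exists_red {k : Type} [Field k] {Om Γ : Type} [Field Om]
    [LinearOrderedCommGroupWithZero Γ] (g : GP Om Γ (AlgebraicClosure (RatFunc k)))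
    {F : Type} [Field F] [Algebra F Om]
    (h : ∀ a : F, g.val (algebraMap F Om a) ≤ 1 → IsAlgebraic k (g.R (algebraMap F Om a)))
    {y : Om} (hy : g.val y ≤ 1) (G : F[X]) (n : ℕ) (hn : G.natDegree ≤ n) (e : F) (he : e ≠ 0)
    (hG : ∀ i, g.val (algebraMap F Om (G.coeff i)) ≤ g.val (algebraMap F Om e)) :
    ∃ A : (AlgebraicClosure k)[X], A.natDegree ≤ n ∧
      ev A (g.R y) = g.R (aeval y G / algebraMap F Om e) := by
  have he' : algebraMap F Om e ≠ 0 := by simpa using he
  have hc : ∀ i, g.val (algebraMap F Om (G.coeff i / e)) ≤ 1 := by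
    intro i
    rw [map_div₀, g.val_div_le_iff he']
    exact hG i
  choose c hcc using fun i => gs_exists_jc _ (h _ (hc i))
  refine ⟨∑ i ∈ Finset.range (n + 1), C (c i) * X ^ i, ?_, ?_⟩
  · refine natDegree_sum_le_of_forall_le _ _ fun i hi => ?_
    exact (natDegree_C_mul_X_pow_le _ _).trans (Nat.lt_succ_iff.1 (Finset.mem_range.1 hi))
  · have hsum : aeval y G / algebraMap F Om e = ∑ i ∈ Finset.range (n + 1),
        algebraMap F Om (G.coeff i / e) * y ^ i := by
      rw [aeval_eq_sum_range' (Nat.lt_succ_of_le hn), Finset.sum_div]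
      refine Finset.sum_congr rfl fun i _ => ?_
      rw [map_div₀, Algebra.smul_def]
      ring
    rw [hsum, (g.R_eval _ _ hc hy).2, ev, eval₂_finsetSum]
    refine Finset.sum_congr rfl fun i _ => ?_
    rw [eval₂_mul, eval₂_C, eval₂_pow, eval₂_X]
    congr 1
    exact hcc i

/-- Extension of a place to the algebraic closure, with values in the algebraic closure of the
constants. -/
theorem gs_exists_GP {K N : Type} [Field K] [Field N] [Algebra K N] (hN : IsFunctionField K N)
    (v : Place K N) :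
    ∃ (Γ : Type) (_ : LinearOrderedCommGroupWithZero Γ)
      (g : GP (AlgebraicClosure N) Γ (AlgebraicClosure K))
      (φ : v.resField →ₐ[K] AlgebraicClosure K),
      (∀ x : N, g.val (algebraMap N (AlgebraicClosure N) x) ≤ 1 ↔ v.val x ≤ 1) ∧
      (∀ x : N, v.val x ≤ 1 → g.R (algebraMap N (AlgebraicClosure N) x) = φ (v.res x)) := by
  classical
  let f : v.ring →+* AlgebraicClosure N :=
    (algebraMap N (AlgebraicClosure N)).comp v.ring.val.toRingHom
  obtain ⟨A, hA, hloc⟩ := IsLocalRing.exists_factor_valuationRing f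
  let f' : v.ring →+* A := f.codRestrict A.toSubring hA
  have hloc' : IsLocalHom f' := hloc
  have hf' : ∀ x : v.ring, ((f' x : A) : AlgebraicClosure N) = algebraMap N _ (x : N) := fun x => rfl
  have hval : ∀ x : N, A.valuation (algebraMap N (AlgebraicClosure N) x) ≤ 1 ↔ v.val x ≤ 1 := by
    intro x
    rw [ValuationSubring.valuation_le_one_iff]
    constructor
    · intro hx
      by_contra hlt
      rw [not_le] at hlt
      have hx0 : x ≠ 0 := by
        rintro rfl
        rw [map_zero] at hlt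
        exact not_lt_zero hlt
      have h1 : v.val x⁻¹ < 1 := by
        rw [map_inv₀]
        exact inv_lt_one_of_one_lt₀ hlt
      have h2 : IsUnit (f' ⟨x⁻¹, h1.le⟩) := by
        refine isUnit_iff_exists_inv.2 ⟨⟨_, hx⟩, Subtype.ext ?_⟩
        change algebraMap N (AlgebraicClosure N) x⁻¹ * algebraMap N (AlgebraicClosure N) x = 1
        rw [← map_mul, inv_mul_cancel₀ hx0, map_one]
      have h3 := (v.isUnit_iff _).1 (isUnit_of_map_unit f' _ h2)
      exact h1.ne h3
    · intro hx
      exact (f' ⟨x, hx⟩).2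
  let κ := IsLocalRing.ResidueField A
  let m : v.resField →+* κ := IsLocalRing.ResidueField.map f'
  letI alg1 : Algebra v.resField κ := m.toAlgebra
  letI alg2 : Algebra K κ := (m.comp (algebraMap K v.resField)).toAlgebra
  haveI st : IsScalarTower K v.resField κ := IsScalarTower.of_algebraMap_eq fun _ => rfl
  let R₀ : AlgebraicClosure N → κ := fun x => if h : x ∈ A then IsLocalRing.residue A ⟨x, h⟩ else 0
  have hR₀ : ∀ (x : AlgebraicClosure N) (h : x ∈ A), R₀ x = IsLocalRing.residue A ⟨x, h⟩ :=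
    fun x h => dif_pos h
  let g₀ : GP (AlgebraicClosure N) A.ValueGroup κ :=
    { val := A.valuation
      R := R₀
      add := by
        intro x y hx hy
        rw [ValuationSubring.valuation_le_one_iff] at hx hy
        rw [hR₀ x hx, hR₀ y hy, hR₀ (x + y) (add_mem hx hy), ← map_add]
        rfl
      mul := by
        intro x y hx hy
        rw [ValuationSubring.valuation_le_one_iff] at hx hy
        rw [hR₀ x hx, hR₀ y hy, hR₀ (x * y) (mul_mem hx hy), ← map_mul]
        rfl
      one := by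
        rw [hR₀ 1 (one_mem _)]
        exact map_one _
      zero_iff := by
        intro x hx
        rw [ValuationSubring.valuation_le_one_iff] at hx
        rw [hR₀ x hx, IsLocalRing.residue_eq_zero_iff]
        exact (ValuationSubring.valuation_lt_one_iff A ⟨x, hx⟩) }
  have hres : ∀ x : N, v.val x ≤ 1 → g₀.R (algebraMap N (AlgebraicClosure N) x) =
      algebraMap v.resField κ (v.res x) := by
    intro x hx
    have h1 : algebraMap N (AlgebraicClosure N) x ∈ A := (f' ⟨x, hx⟩).2
    change R₀ _ = _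
    rw [hR₀ _ h1, v.res_of_mem (show x ∈ v.ring from hx)]
    rfl
  haveI := v.finite_resField hN
  haveI halg : Algebra.IsAlgebraic K κ := by
    refine ⟨fun r => ?_⟩
    obtain ⟨⟨x, hx⟩, rfl⟩ := IsLocalRing.residue_surjective r
    rw [← hR₀ x hx]
    refine g₀.isAlgebraic_R (F := N) (fun a ha => ?_) ((ValuationSubring.valuation_le_one_iff A x).2 hx)
      (Algebra.IsAlgebraic.isAlgebraic x)
    rw [hres a ((hval a).1 ha)]
    exact (Algebra.IsAlgebraic.isAlgebraic (R := K) (v.res a)).algebraMap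
  let φ : κ →ₐ[K] AlgebraicClosure K := IsAlgClosed.lift
  let g : GP (AlgebraicClosure N) A.ValueGroup (AlgebraicClosure K) :=
    { val := A.valuation
      R := fun x => φ (g₀.R x)
      add := fun x y hx hy => by rw [g₀.add x y hx hy, map_add]
      mul := fun x y hx hy => by rw [g₀.mul x y hx hy, map_mul]
      one := by rw [g₀.one, map_one]
      zero_iff := fun x hx => by
        rw [map_eq_zero_iff φ φ.toRingHom.injective]
        exact g₀.zero_iff x hx }
  refine ⟨A.ValueGroup, inferInstance, g, φ.comp (IsScalarTower.toAlgHom K v.resField κ), hval,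
    fun x hx => ?_⟩
  change φ (g₀.R _) = φ (algebraMap v.resField κ (v.res x))
  rw [hres x hx]

/-- Values of algebraic elements. -/
theorem gs_exists_pow {Om Γ N : Type} [Field Om] [LinearOrderedCommGroupWithZero Γ] [Field N]
    [Algebra N Om] (val : Valuation Om Γ) (w : Om) (hw : w ≠ 0) (hwa : IsAlgebraic N w) :
    ∃ (M : ℕ) (x : N), 0 < M ∧ x ≠ 0 ∧ val w ^ M = val (algebraMap N Om x) := by
  obtain ⟨p, hp, hpw⟩ := hwa
  obtain ⟨i, hi, hmax⟩ := p.support.exists_max_image
    (fun i => val (algebraMap N Om (p.coeff i) * w ^ i)) (Polynomial.nonempty_support_iff.2 hp)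
  have hne : ∀ j ∈ p.support, val (algebraMap N Om (p.coeff j) * w ^ j) ≠ 0 := by
    intro j hj
    rw [Valuation.ne_zero_iff]
    exact mul_ne_zero (by simpa using hj) (pow_ne_zero _ hw)
  obtain ⟨j, hj, hji, heq⟩ : ∃ j ∈ p.support, j ≠ i ∧ val (algebraMap N Om (p.coeff j) * w ^ j) =
      val (algebraMap N Om (p.coeff i) * w ^ i) := by
    by_contra hcon
    push Not at hcon
    have h1 : val (∑ j ∈ p.support.erase i, algebraMap N Om (p.coeff j) * w ^ j) <
        val (algebraMap N Om (p.coeff i) * w ^ i) := by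
      refine val.map_sum_lt (hne i hi) fun j hj => ?_
      exact lt_of_le_of_ne (hmax j (Finset.mem_of_mem_erase hj))
        (hcon j (Finset.mem_of_mem_erase hj) (Finset.ne_of_mem_erase hj))
    have h2 : algebraMap N Om (p.coeff i) * w ^ i +
        ∑ j ∈ p.support.erase i, algebraMap N Om (p.coeff j) * w ^ j = 0 := by
      rw [Finset.add_sum_erase p.support (fun j => algebraMap N Om (p.coeff j) * w ^ j) hi, ← hpw,
        aeval_def, eval₂_eq_sum, Polynomial.sum]
    have h3 := congrArg val (eq_neg_of_add_eq_zero_left h2)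
    rw [Valuation.map_neg] at h3
    exact h1.ne' h3
  have hpi : p.coeff i ≠ 0 := mem_support_iff.1 hi
  have hpj : p.coeff j ≠ 0 := mem_support_iff.1 hj
  have key : ∀ a b : ℕ, a < b → p.coeff a ≠ 0 → p.coeff b ≠ 0 →
      val (algebraMap N Om (p.coeff a) * w ^ a) = val (algebraMap N Om (p.coeff b) * w ^ b) →
      ∃ (M : ℕ) (x : N), 0 < M ∧ x ≠ 0 ∧ val w ^ M = val (algebraMap N Om x) := by
    intro a b hab ha hb h
    refine ⟨b - a, p.coeff a / p.coeff b, Nat.sub_pos_of_lt hab, div_ne_zero ha hb, ?_⟩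
    have hw' : val w ≠ 0 := (Valuation.ne_zero_iff _).2 hw
    have hb' : val (algebraMap N Om (p.coeff b)) ≠ 0 :=
      (Valuation.ne_zero_iff _).2 (by simpa using hb)
    obtain ⟨c, rfl⟩ := Nat.exists_eq_add_of_lt hab
    rw [map_div₀, map_div₀, eq_div_iff hb']
    rw [map_mul, map_mul, map_pow, map_pow] at h
    have h1 : a + c + 1 - a = c + 1 := by omega
    rw [h1]
    have h2 : val w ^ (a + c + 1) = val w ^ (c + 1) * val w ^ a := by
      rw [← pow_add]; congr 1; omega
    rw [h2, ← mul_assoc] at h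
    have h3 := mul_right_cancel₀ (pow_ne_zero a hw') h
    rw [h3, mul_comm]
  rcases lt_or_gt_of_ne hji with h | h
  · exact key j i h hpj hpi heq
  · exact key i j h hpi hpj heq.symm

theorem gs_exists_root {Om Γ K L N : Type} [Field Om] [IsAlgClosed Om]
    [LinearOrderedCommGroupWithZero Γ] [Field K] [Field L] [Field N] [Algebra K N] [Algebra L N]
    [Algebra N Om] [Algebra L Om] [IsScalarTower L N Om] [Algebra.IsAlgebraic N Om]
    (val : Valuation Om Γ) (v : Place K N)
    (hval : ∀ x : N, val (algebraMap N Om x) ≤ 1 ↔ v.val x ≤ 1) (b : L) (hb : b ≠ 0)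
    (hbv : v.val (algebraMap L N b) ≠ 1) (w : Om) (hw : w ≠ 0) :
    ∃ c : Om, IsAlgebraic L c ∧ c ≠ 0 ∧ val c = val w := by
  have hval1 : ∀ x : N, v.val x = 1 → val (algebraMap N Om x) = 1 := by
    intro x hx
    have hx0 : x ≠ 0 := by
      rintro rfl
      rw [map_zero] at hx
      exact zero_ne_one hx
    refine le_antisymm ((hval x).2 hx.le) ?_
    have h1 := (hval x⁻¹).2 (by rw [map_inv₀, hx, inv_one])
    rw [map_inv₀, map_inv₀] at h1
    have h2 : val (algebraMap N Om x) ≠ 0 := (Valuation.ne_zero_iff _).2 (by simpa using hx0)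
    exact (inv_le_one₀ (zero_lt_iff.2 h2)).1 h1
  obtain ⟨M, x, hM, hx, hMx⟩ := gs_exists_pow (N := N) val w hw (Algebra.IsAlgebraic.isAlgebraic w)
  have hb' : algebraMap L N b ≠ 0 := by simpa using hb
  have hvx : v.val x ≠ 0 := (Valuation.ne_zero_iff _).2 hx
  have hvb : v.val (algebraMap L N b) ≠ 0 := (Valuation.ne_zero_iff _).2 hb'
  obtain ⟨i, hi⟩ : ∃ i : ℤ, v.val x = WithZero.exp i := ⟨_, (WithZero.exp_log hvx).symm⟩
  obtain ⟨j, hj⟩ : ∃ j : ℤ, v.val (algebraMap L N b) = WithZero.exp j :=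
    ⟨_, (WithZero.exp_log hvb).symm⟩
  have hj0 : j ≠ 0 := by
    rintro rfl
    exact hbv (by rw [hj, WithZero.exp_zero])
  have h1 : v.val (x ^ j.natAbs / algebraMap L N b ^ (i * j.sign)) = 1 := by
    rw [map_div₀, map_pow, map_zpow₀, hi, hj, ← WithZero.exp_nsmul, ← WithZero.exp_zsmul]
    have h2 : j.natAbs • i = (i * j.sign) • j := by
      rw [nsmul_eq_mul, smul_eq_mul, mul_assoc, Int.sign_mul_self_eq_natAbs, mul_comm]
    rw [h2, div_self]
    exact WithZero.exp_ne_zero
  have h3 := hval1 _ h1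
  have hbO : algebraMap N Om (algebraMap L N b) ≠ 0 := by simpa using hb
  have h4 : val w ^ (M * j.natAbs) = val (algebraMap L Om (b ^ (i * j.sign))) := by
    rw [map_div₀, map_div₀, map_pow, map_pow, ← hMx, map_zpow₀, map_zpow₀] at h3
    rw [div_eq_one_iff_eq (zpow_ne_zero _ ((Valuation.ne_zero_iff _).2 hbO))] at h3
    rw [pow_mul, h3, map_zpow₀, map_zpow₀, IsScalarTower.algebraMap_apply L N Om]
  have hpos : 0 < M * j.natAbs := Nat.mul_pos hM (Int.natAbs_pos.2 hj0)
  obtain ⟨c, hc⟩ := IsAlgClosed.exists_pow_nat_eq (algebraMap L Om (b ^ (i * j.sign))) hpos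
  have h5 : val c ^ (M * j.natAbs) = val w ^ (M * j.natAbs) := by
    rw [h4, ← map_pow, hc]
  refine ⟨c, IsAlgebraic.of_pow hpos (by rw [hc]; exact isAlgebraic_algebraMap _), ?_, ?_⟩
  · rintro rfl
    rw [zero_pow hpos.ne'] at hc
    exact (map_ne_zero (algebraMap L Om)).2 (zpow_ne_zero _ hb) hc.symm
  · exact (pow_left_inj₀ zero_le zero_le hpos.ne').1 h5

/-- The key point: after an affine change of the variable over the algebraic closure of the
parameter field, the place is a Gauss place. -/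
theorem gs_place {k₀ L Om Γ Ω : Type} [Field k₀] [Field L] [Field Om] [IsAlgClosed Om]
    [LinearOrderedCommGroupWithZero Γ] [Field Ω] [Algebra k₀ Ω] [Algebra L Om] (g : GP Om Γ Ω)
    (hL : ∀ a : L, g.val (algebraMap L Om a) ≤ 1 → IsAlgebraic k₀ (g.R (algebraMap L Om a)))
    (hroot : ∀ w : Om, w ≠ 0 → ∃ c : Om, IsAlgebraic L c ∧ c ≠ 0 ∧ g.val c = g.val w)
    (t s : Om) (ht : g.val t = 1) (htr : ¬ IsAlgebraic k₀ (g.R t)) (α β : L[X])
    (hβ : aeval s β ≠ 0) (hτ : t * aeval s β = aeval s α) :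
    ∃ a c : Om, IsAlgebraic L a ∧ IsAlgebraic L c ∧ c ≠ 0 ∧ g.val ((s - a) / c) = 1 ∧
      ¬ IsAlgebraic k₀ (g.R ((s - a) / c)) := by
  classical
  have hLb : ∀ x : Om, IsAlgebraic L x → g.val x ≤ 1 → IsAlgebraic k₀ (g.R x) :=
    fun x hx hv => g.isAlgebraic_R hL hv hx
  have ht0 : t ≠ 0 := by
    rintro rfl
    rw [map_zero] at ht
    exact zero_ne_one ht
  have hα : aeval s α ≠ 0 := by
    rw [← hτ]
    exact mul_ne_zero ht0 hβ
  have htdiv : t = aeval s α / aeval s β := by
    rw [eq_div_iff hβ, hτ]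
  let Good : Om → Prop := fun u => ∃ d u' : Om, IsAlgebraic L d ∧ d ≠ 0 ∧ u = d * u' ∧
    g.val u' = 1 ∧ IsAlgebraic k₀ (g.R u')
  have good_mul : ∀ u w, Good u → Good w → Good (u * w) := by
    rintro u w ⟨d, u', h1, h2, rfl, h4, h5⟩ ⟨e, w', h6, h7, rfl, h9, h10⟩
    refine ⟨d * e, u' * w', h1.mul h6, mul_ne_zero h2 h7, by ring, ?_, ?_⟩
    · rw [map_mul, h4, h9, one_mul]
    · rw [g.mul _ _ h4.le h9.le]
      exact h5.mul h10
  have good_inv : ∀ u, Good u → Good u⁻¹ := by
    rintro u ⟨d, u', h1, h2, rfl, h4, h5⟩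
    have hu0 : u' ≠ 0 := by
      rintro rfl
      rw [map_zero] at h4
      exact zero_ne_one h4
    have h6 : g.val u'⁻¹ = 1 := by rw [map_inv₀, h4, inv_one]
    refine ⟨d⁻¹, u'⁻¹, h1.inv, inv_ne_zero h2, by rw [mul_inv], h6, ?_⟩
    have h7 : g.R u'⁻¹ = (g.R u')⁻¹ := by
      refine eq_inv_of_mul_eq_one_left ?_
      rw [← g.mul _ _ h6.le h4.le, inv_mul_cancel₀ hu0, g.one]
    rw [h7]
    exact h5.inv
  have good_alg : ∀ d, IsAlgebraic L d → d ≠ 0 → Good d := fun d h1 h2 =>
    ⟨d, 1, h1, h2, by rw [mul_one], map_one _, by rw [g.one]; exact isAlgebraic_one⟩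
  have not_good : ¬ Good t := by
    rintro ⟨d, u', h1, h2, h3, h4, h5⟩
    have h6 : g.val d = 1 := by
      rw [h3, map_mul, h4, mul_one] at ht
      exact ht
    apply htr
    rw [h3, g.mul _ _ h6.le h4.le]
    exact (hLb d h1 h6.le).mul h5
  have good_poly : ∀ F : L[X], aeval s F ≠ 0 → (∀ r ∈ F.aroots Om, Good (s - r)) →
      Good (aeval s F) := by
    intro F hF hr
    have hF0 : F ≠ 0 := by
      rintro rfl
      exact hF (map_zero _)
    rw [(IsAlgClosed.splits (F.map (algebraMap L Om))).aeval_eq_prod_aroots]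
    refine good_mul _ _ (good_alg _ (isAlgebraic_algebraMap _) ?_) ?_
    · simpa using hF0
    · refine Multiset.prod_induction Good _ good_mul (good_alg 1 isAlgebraic_one one_ne_zero) ?_
      intro x hx
      obtain ⟨r, hr1, rfl⟩ := Multiset.mem_map.1 hx
      exact hr r hr1
  have hnot : ¬ ((∀ r ∈ α.aroots Om, Good (s - r)) ∧ (∀ r ∈ β.aroots Om, Good (s - r))) := by
    rintro ⟨h1, h2⟩
    apply not_good
    rw [htdiv, div_eq_mul_inv]
    exact good_mul _ _ (good_poly α hα h1) (good_inv _ (good_poly β hβ h2))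
  have hs : ¬ IsAlgebraic L s := by
    intro hsa
    have h1 : ∀ F : L[X], IsAlgebraic L (aeval s F) := fun F => by
      let x : algebraicClosure L Om := ⟨s, mem_algebraicClosure_iff.2 hsa⟩
      have h2 : aeval s F = algebraMap (algebraicClosure L Om) Om (aeval x F) :=
        aeval_algebraMap_apply Om x F
      rw [h2]
      exact mem_algebraicClosure_iff.1 (aeval x F).2
    refine htr (hLb t ?_ ht.le)
    rw [htdiv, div_eq_mul_inv]
    exact (h1 α).mul (h1 β).inv
  let T : Finset Om := (α.aroots Om + β.aroots Om).toFinset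
  have hT : ∀ r ∈ T, IsAlgebraic L r := by
    intro r hr
    rw [Multiset.mem_toFinset, Multiset.mem_add] at hr
    rcases hr with h | h
    · exact ⟨α, (mem_aroots'.1 h).1 |> fun h' => by
        rintro rfl; exact h' (Polynomial.map_zero _), (mem_aroots'.1 h).2⟩
    · exact ⟨β, (mem_aroots'.1 h).1 |> fun h' => by
        rintro rfl; exact h' (Polynomial.map_zero _), (mem_aroots'.1 h).2⟩
  have hTne : T.Nonempty := by
    rw [Finset.nonempty_iff_ne_empty]
    intro hT0
    apply hnot
    have h1 : ∀ r, r ∉ T := fun r => by rw [hT0]; exact Finset.notMem_empty r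
    constructor
    · intro r hr
      exact absurd (Multiset.mem_toFinset.2 (Multiset.mem_add.2 (Or.inl hr))) (h1 r)
    · intro r hr
      exact absurd (Multiset.mem_toFinset.2 (Multiset.mem_add.2 (Or.inr hr))) (h1 r)
  obtain ⟨a, haT, hmin⟩ := T.exists_min_image (fun r => g.val (s - r)) hTne
  have ha : IsAlgebraic L a := hT a haT
  have hsa : s - a ≠ 0 := by
    intro h
    rw [sub_eq_zero] at h
    exact hs (h ▸ ha)
  obtain ⟨c, hc, hc0, hcv⟩ := hroot (s - a) hsa
  have hy : g.val ((s - a) / c) = 1 := (g.val_div_eq_iff hc0).2 hcv.symm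
  refine ⟨a, c, ha, hc, hc0, hy, fun halg => hnot ?_⟩
  have hgood : ∀ r ∈ T, Good (s - r) := by
    intro r hr
    have hrL := hT r hr
    rcases (hmin r hr).lt_or_eq with hlt | heq
    · have h1 : g.val (a - r) = g.val (s - r) := by
        have h2 : a - r = (s - r) - (s - a) := by ring
        rw [h2]
        exact g.val.map_sub_eq_of_lt_left hlt
      have h0 : a - r ≠ 0 := by
        intro h0
        rw [h0, map_zero] at h1
        rw [← h1] at hlt
        exact not_lt_zero hlt
      have h3 : g.val ((s - a) / (a - r)) < 1 := by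
        rw [map_div₀, h1]
        exact (div_lt_one₀ (lt_of_le_of_lt zero_le hlt)).2 hlt
      refine ⟨a - r, (s - r) / (a - r), ha.sub hrL, h0, by field_simp,
        (g.val_div_eq_iff h0).2 h1.symm, ?_⟩
      have h4 : (s - r) / (a - r) = 1 + (s - a) / (a - r) := by field_simp; ring
      rw [h4, g.add _ _ (map_one g.val).le h3.le, g.one, (g.zero_iff _ h3.le).2 h3, add_zero]
      exact isAlgebraic_one
    · have h1 : g.val ((s - r) / c) = 1 := (g.val_div_eq_iff hc0).2 (by rw [← heq, hcv])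
      have h2 : g.val ((a - r) / c) ≤ 1 := by
        rw [g.val_div_le_iff hc0, hcv]
        have h3 : a - r = (s - r) - (s - a) := by ring
        rw [h3]
        refine (g.val.map_sub _ _).trans (max_le heq.ge le_rfl)
      refine ⟨c, (s - r) / c, hc, hc0, by field_simp, h1, ?_⟩
      have h4 : (s - r) / c = (s - a) / c + (a - r) / c := by field_simp; ring
      rw [h4, g.add _ _ hy.le h2]
      exact halg.add (hLb _ (by rw [div_eq_mul_inv]; exact (ha.sub hrL).mul hc.inv) h2)
  exact ⟨fun r hr => hgood r (Multiset.mem_toFinset.2 (Multiset.mem_add.2 (Or.inl hr))),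
    fun r hr => hgood r (Multiset.mem_toFinset.2 (Multiset.mem_add.2 (Or.inr hr)))⟩

/-- Module F4 (file Pool/Agent/ThF/Gauss.lean). Places that are not trivial on the parameter field
are Gauss places after a finite extension. -/
theorem gauss_spec {k : Type} [Field k] {σ : Type} [Finite σ]
    {I : Set (MvPolynomial σ (RatFunc k))} (hI : ∀ P ∈ I, ∃ d, P.IsHomogeneous d)
    {L N : Type} [Field L] [Field N] [Algebra k L] [Algebra k N] [Algebra L N]
    [Algebra (RatFunc k) N] [IsScalarTower k L N] [IsScalarTower k (RatFunc k) N]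
    (hL : IsFunctionField k L) (hN : IsFunctionField (RatFunc k) N)
    (s : N) (α β : L[X]) (P : σ → L[X]) (hβ : aeval s β ≠ 0)
    (hτ : tt k N * aeval s β = aeval s α) (hP : IsPoint (wOne σ) I (fun j => aeval s (P j)))
    (n D : ℕ) (hαn : α.natDegree ≤ n) (hβn : β.natDegree ≤ n) (hPD : ∀ j, (P j).natDegree ≤ D)
    (v : Place (RatFunc k) N) (b : L) (hb : b ≠ 0) (hbv : v.val (algebraMap L N b) ≠ 1) :
    ∃ (A B : (AlgebraicClosure k)[X]) (Q : σ → (AlgebraicClosure k)[X])
      (s' c : AlgebraicClosure (RatFunc k)), A.natDegree ≤ n ∧ B.natDegree ≤ n ∧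
      (∀ j, (Q j).natDegree ≤ D) ∧ IsRt A B s' ∧ c ≠ 0 ∧
      IsSp (wOne σ) I v (fun j => aeval s (P j)) (fun j => c * ev (Q j) s') := by
  obtain ⟨Γ, _, g, φ, hgv, hgR⟩ := gs_exists_GP hN v
  have hgv1 : ∀ x : N, v.val x = 1 → g.val (algebraMap N (AlgebraicClosure N) x) = 1 := by
    intro x hx
    have hx0 : x ≠ 0 := by
      rintro rfl
      rw [map_zero] at hx
      exact zero_ne_one hx
    refine le_antisymm ((hgv x).2 hx.le) ?_
    have h1 := (hgv x⁻¹).2 (by rw [map_inv₀, hx, inv_one])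
    rw [map_inv₀, map_inv₀] at h1
    have h2 : g.val (algebraMap N (AlgebraicClosure N) x) ≠ 0 :=
      (Valuation.ne_zero_iff _).2 (by simpa using hx0)
    exact (inv_le_one₀ (zero_lt_iff.2 h2)).1 h1
  have hvt : v.val (tt k N) = 1 := v.triv _ RatFunc.X_ne_zero
  have ht : g.val (algebraMap N (AlgebraicClosure N) (tt k N)) = 1 := hgv1 _ hvt
  have hRt : g.R (algebraMap N (AlgebraicClosure N) (tt k N)) =
      tt k (AlgebraicClosure (RatFunc k)) := by
    rw [hgR _ hvt.le, v.res_algebraMap, AlgHom.commutes]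
  have htr : ¬ IsAlgebraic k (g.R (algebraMap N (AlgebraicClosure N) (tt k N))) := by
    rw [hRt]
    exact transcendental_tb
  have hL' : ∀ a : L, g.val (algebraMap L (AlgebraicClosure N) a) ≤ 1 →
      IsAlgebraic k (g.R (algebraMap L (AlgebraicClosure N) a)) := by
    intro a ha
    rw [IsScalarTower.algebraMap_apply L N (AlgebraicClosure N)] at ha ⊢
    have h1 := (hgv _).1 ha
    rw [hgR _ h1]
    exact (residue_algebraic hL v b hb hbv a h1).algHom (φ.restrictScalars k)
  have hevS : ∀ F : L[X], aeval (algebraMap N (AlgebraicClosure N) s) F =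
      algebraMap N (AlgebraicClosure N) (aeval s F) := fun F => aeval_algebraMap_apply _ _ _
  have hβ' : aeval (algebraMap N (AlgebraicClosure N) s) β ≠ 0 := by
    rw [hevS]
    simpa using hβ
  have hτ' : algebraMap N (AlgebraicClosure N) (tt k N) *
      aeval (algebraMap N (AlgebraicClosure N) s) β =
      aeval (algebraMap N (AlgebraicClosure N) s) α := by
    rw [hevS, hevS, ← map_mul, hτ]
  obtain ⟨a, c, ha, hc, hc0, hy1, hytr⟩ := gs_place (k₀ := k) g hL'
    (fun w hw => gs_exists_root g.val v hgv b hb hbv w hw)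
    (algebraMap N (AlgebraicClosure N) (tt k N)) (algebraMap N (AlgebraicClosure N) s) ht htr α β
    hβ' hτ'
  set S : AlgebraicClosure N := algebraMap N (AlgebraicClosure N) s with hS
  set y : AlgebraicClosure N := (S - a) / c with hy
  let Lb := algebraicClosure L (AlgebraicClosure N)
  let a' : Lb := ⟨a, mem_algebraicClosure_iff.2 ha⟩
  let c' : Lb := ⟨c, mem_algebraicClosure_iff.2 hc⟩
  have hLb : ∀ x : Lb, g.val (algebraMap Lb (AlgebraicClosure N) x) ≤ 1 →
      IsAlgebraic k (g.R (algebraMap Lb (AlgebraicClosure N) x)) := by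
    intro x hx
    exact g.isAlgebraic_R hL' hx (mem_algebraicClosure_iff.1 x.2)
  let tr : L[X] → Lb[X] := fun F => (F.map (algebraMap L Lb)).comp (C a' + C c' * X)
  have htr_deg : ∀ F : L[X], (tr F).natDegree ≤ F.natDegree := by
    intro F
    refine natDegree_comp_le.trans ?_
    have h1 : (F.map (algebraMap L Lb)).natDegree ≤ F.natDegree := natDegree_map_le
    have h2 : (C a' + C c' * X : Lb[X]).natDegree ≤ 1 := by
      refine (natDegree_add_le _ _).trans (max_le ?_ ((natDegree_C_mul_le _ _).trans natDegree_X_le))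
      rw [natDegree_C]
      exact Nat.zero_le _
    calc _ ≤ F.natDegree * 1 := Nat.mul_le_mul h1 h2
      _ = F.natDegree := mul_one _
  have htr_ev : ∀ F : L[X], aeval y (tr F) = aeval S F := by
    intro F
    have h1 : aeval y (C a' + C c' * X : Lb[X]) = S := by
      rw [map_add, map_mul, aeval_C, aeval_C, aeval_X]
      change a + c * y = S
      rw [hy]
      field_simp
      ring
    change aeval y ((F.map (algebraMap L Lb)).comp (C a' + C c' * X)) = _
    rw [aeval_comp, h1, aeval_map_algebraMap]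
  have htr_ne : ∀ F : L[X], aeval S F ≠ 0 → tr F ≠ 0 := by
    intro F hF h0
    rw [← htr_ev, h0, map_zero] at hF
    exact hF rfl
  have hvalα : g.val (aeval S α) = g.val (aeval S β) := by
    rw [← hτ', map_mul, ht, one_mul]
  obtain ⟨i₁, he, hev, hecoef⟩ := g.gauss hLb hy1.le hytr (tr β) (htr_ne β hβ')
  set e : Lb := (tr β).coeff i₁ with hedef
  have he' : algebraMap Lb (AlgebraicClosure N) e ≠ 0 := by simpa using he
  rw [htr_ev] at hev hecoef
  have hα' : aeval S α ≠ 0 := by
    intro h0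
    rw [h0, map_zero] at hvalα
    exact hβ' ((Valuation.zero_iff _).1 hvalα.symm)
  obtain ⟨i₂, -, -, hαcoef⟩ := g.gauss hLb hy1.le hytr (tr α) (htr_ne α hα')
  rw [htr_ev, hvalα, hev] at hαcoef
  obtain ⟨A, hAn, hA⟩ := gs_exists_red g hLb hy1.le (tr α) n ((htr_deg α).trans hαn) e he hαcoef
  obtain ⟨B, hBn, hB⟩ := gs_exists_red g hLb hy1.le (tr β) n ((htr_deg β).trans hβn) e he
    (fun i => (hecoef i).trans hev.le)
  rw [htr_ev] at hA hB
  obtain ⟨m, hm, hmv, hsp⟩ := exists_isSp_wOne hI v (fun j => aeval s (P j)) hP φ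
  have hm' : aeval S (P m) ≠ 0 := by
    rw [hevS]
    simpa using hm
  obtain ⟨i₃, hf, hfv, hfcoef⟩ := g.gauss hLb hy1.le hytr (tr (P m)) (htr_ne (P m) hm')
  set f : Lb := (tr (P m)).coeff i₃ with hfdef
  have hf' : algebraMap Lb (AlgebraicClosure N) f ≠ 0 := by simpa using hf
  rw [htr_ev] at hfv
  have hle : ∀ j, g.val (aeval S (P j) / aeval S (P m)) ≤ 1 := by
    intro j
    rw [hevS, hevS, ← map_div₀]
    exact (hgv _).2 (hmv j)
  have hPcoef : ∀ j i, g.val (algebraMap Lb (AlgebraicClosure N) ((tr (P j)).coeff i)) ≤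
      g.val (algebraMap Lb (AlgebraicClosure N) f) := by
    intro j i
    by_cases h0 : tr (P j) = 0
    · rw [h0, coeff_zero, map_zero, map_zero]
      exact zero_le
    · obtain ⟨i₄, -, -, h1⟩ := g.gauss hLb hy1.le hytr (tr (P j)) h0
      rw [htr_ev] at h1
      refine (h1 i).trans ?_
      rw [← hfv]
      exact (g.val_div_le_iff hm').1 (hle j)
  choose Q hQD hQ using fun j => gs_exists_red g hLb hy1.le (tr (P j)) D
    ((htr_deg (P j)).trans (hPD j)) f hf (hPcoef j)
  have hwv : g.val (aeval S (P m) / algebraMap Lb (AlgebraicClosure N) f) = 1 :=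
    (g.val_div_eq_iff hf').2 hfv
  have hw0 := g.R_ne_zero hwv
  refine ⟨A, B, Q, g.R y, (g.R (aeval S (P m) / algebraMap Lb (AlgebraicClosure N) f))⁻¹, hAn, hBn,
    hQD, ⟨?_, ?_⟩, inv_ne_zero hw0, ?_⟩
  · rw [hB]
    exact g.R_ne_zero ((g.val_div_eq_iff he').2 hev)
  · rw [hA, hB, ← hRt, ← g.mul _ _ ht.le ((g.val_div_le_iff he').2 hev.le), ← mul_div_assoc, hτ']
  · convert hsp using 1
    funext j
    rw [hQ, htr_ev, ← hgR _ (hmv j), map_div₀, ← hevS, ← hevS, inv_mul_eq_iff_eq_mul₀ hw0,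
      ← g.mul _ _ hwv.le (hle j)]
    congr 1
    field_simp

end Pool.Agent.ThF
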