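import Pool.Agent.ThF.StepACore
import Pool.Agent.ThF.Gauss

set_option autoImplicit false

/-! Theorem F for `MP_0b9e0b_ag`, module F5: reduction to rational curves defined over the
algebraic closure of `k`. -/

namespace Pool.Agent.ThF

open Pool.Agent.Helper16 Pool.Agent.Helper16.BB Polynomial

/-- Module F5. Reduction to rational curves defined over the algebraic closure of `k`. -/
theorem stepA {k : Type} [Field k] {σ : Type} [Finite σ]
    {I : Set (MvPolynomial σ (RatFunc k))} (hI : ∀ P ∈ I, ∃ d, P.IsHomogeneous d)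
    (n D : ℕ) (V : Submodule ℚ (Quo (wOne σ) I))
    (hV : ∀ (A B : (AlgebraicClosure k)[X]) (Q : σ → (AlgebraicClosure k)[X])
      (s : AlgebraicClosure (RatFunc k)), A.natDegree ≤ n → B.natDegree ≤ n →
      (∀ j, (Q j).natDegree ≤ D) → IsRt A B s → IsPoint (wOne σ) I (fun j => ev (Q j) s) →
      cls (wOne σ) I (fun j => ev (Q j) s) ∈ V)
    (α β : (AlgebraicClosure (RatFunc k))[X]) (P : σ → (AlgebraicClosure (RatFunc k))[X])
    (s₀ : AlgebraicClosure (RatFunc k)) (hαn : α.natDegree ≤ n) (hβn : β.natDegree ≤ n)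
    (hPD : ∀ j, (P j).natDegree ≤ D) (hfam : IsFam I α β P)
    (hnc : ∃ i j, α.coeff i * β.coeff j ≠ α.coeff j * β.coeff i) (hβ : β.eval s₀ ≠ 0)
    (ht : tt k (AlgebraicClosure (RatFunc k)) * β.eval s₀ = α.eval s₀)
    (hpt : IsPoint (wOne σ) I (fun j => (P j).eval s₀)) :
    cls (wOne σ) I (fun j => (P j).eval s₀) ∈ V :=
  stepA_of_gauss hI (gauss_spec hI) n D V hV α β P s₀ hαn hβn hPD hfam hnc hβ ht hpt

end Pool.Agent.ThF
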