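import Pool.Agent.ThF.Theta
import Pool.Agent.ThF.Lift
import Pool.Agent.ThF.Open
import Pool.Agent.ThF.StepA
import Pool.Agent.ThF.Move
import Pool.Agent.ThF.Conn

set_option autoImplicit false
set_option linter.unusedSectionVars false

/-! Theorem F: assembly. -/

namespace Pool.Agent.ThF

open Pool.Agent.Helper16 Pool.Agent.Helper16.BB Polynomial

variable {k : Type} [Field k] {σ : Type} [Finite σ] {n D : ℕ}

/-- The reduction of the universal polynomials at a place. -/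
theorem red_mkp {E : Type} [Field E] [Algebra k E] (u : Place k E)
    (ρ : u.resField →ₐ[k] AlgebraicClosure k) {m : ℕ} (a : Fin (m + 1) → E)
    (b : Fin (m + 1) → AlgebraicClosure k) (h : ∀ i, u.val (a i) ≤ 1 ∧ ρ (u.res (a i)) = b i) :
    Red u ρ (mkp a) (mkp b) := by
  intro i
  rw [mkp_coeff, mkp_coeff]
  split_ifs with hi
  · exact h _
  · refine ⟨by rw [map_zero]; exact zero_le, by rw [u.res_zero, map_zero]⟩

theorem finite_theta [Finite k] {I : Set (MvPolynomial σ (RatFunc k))}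
    (hI : ∀ P ∈ I, ∃ d, P.IsHomogeneous d) (n D e : ℕ) (he : 1 ≤ e) (j₀ : σ) (i₀ : ℕ) :
    ((theta I) '' {c : Idx σ n D → AlgebraicClosure k | PCond I e j₀ i₀ c}).Finite := by
  have h1 := finite_image_of_curves (pEq I n D e j₀ i₀) (theta I) ?_
  · convert h1 using 2
    ext c
    exact (pEq_iff c).symm
  · intro E _ _ hE ξ hξ u u' ρ ρ' c c' hc hc'
    have hcond : PCond I e j₀ i₀ ξ := (pEq_iff ξ).1 hξ
    -- the specialisations satisfy the conditions
    have hsp : ∀ (u : Place k E) (ρ : u.resField →ₐ[k] AlgebraicClosure k)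
        (c : Idx σ n D → AlgebraicClosure k), (∀ i, u.val (ξ i) ≤ 1 ∧ ρ (u.res (ξ i)) = c i) →
        PCond I e j₀ i₀ c := by
      intro u ρ c hc
      rw [← pEq_iff (k := k)]
      intro q hq
      have h2 := hξ q hq
      let ξ' : Idx σ n D → u.ring := fun i => ⟨ξ i, (hc i).1⟩
      have h3 : MvPolynomial.aeval ξ' q = 0 := by
        apply Subtype.ext
        change u.ring.val (MvPolynomial.aeval ξ' q) = 0
        rw [MvPolynomial.comp_aeval_apply]
        exact h2
      have h4 := congrArg (u.resRed ρ) h3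
      rw [map_zero, MvPolynomial.comp_aeval_apply] at h4
      rw [← h4]
      congr 2
      funext i
      exact ((u.resRed_apply ρ (hc i).1).trans (hc i).2).symm
    have hc1 := hsp u ρ c hc
    have hc2 := hsp u' ρ' c' hc'
    obtain ⟨s, hs⟩ := exists_rt hc1.isCoprime e he hc1.top
    obtain ⟨s', hs'⟩ := exists_rt hc2.isCoprime e he hc2.top
    rw [theta_eq hc1 hs, theta_eq hc2 hs']
    have hdeg : ∀ b, (pAB ξ b).natDegree ≤ e := by
      intro b
      rw [natDegree_le_iff_coeff_eq_zero]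
      exact fun i hi => hcond.1 b i hi
    exact cls_eq_of_family hI hE (pAB ξ true) (pAB ξ false) (pP ξ) hcond.2.2.2.2 e he (hdeg _)
      (hdeg _) u u' ρ ρ' _ _ _ _ (pP c) (pP c')
      (red_mkp u ρ _ _ fun i => hc _) (red_mkp u ρ _ _ fun i => hc _)
      (fun j => red_mkp u ρ _ _ fun i => hc _)
      (red_mkp u' ρ' _ _ fun i => hc' _) (red_mkp u' ρ' _ _ fun i => hc' _)
      (fun j => red_mkp u' ρ' _ _ fun i => hc' _)
      hc1.isCoprime hc1.top hc2.isCoprime hc2.top s s' hs hs' (hc1.isPoint hs) (hc2.isPoint hs')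

/-- The classes of all rational curves of bounded degree over the algebraic closure of `k`. -/
def goodSet (I : Set (MvPolynomial σ (RatFunc k))) (n D : ℕ) : Set (Quo (wOne σ) I) :=
  {q | ∃ (A B : (AlgebraicClosure k)[X]) (Q : σ → (AlgebraicClosure k)[X])
      (s : AlgebraicClosure (RatFunc k)), A.natDegree ≤ n ∧ B.natDegree ≤ n ∧
      (∀ j, (Q j).natDegree ≤ D) ∧ IsRt A B s ∧ IsPoint (wOne σ) I (fun j => ev (Q j) s) ∧
      q = cls (wOne σ) I (fun j => ev (Q j) s)}

theorem finite_goodSet [Finite k] {I : Set (MvPolynomial σ (RatFunc k))}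
    (hI : ∀ P ∈ I, ∃ d, P.IsHomogeneous d) (n D : ℕ) : (goodSet I n D).Finite := by
  have h1 : goodSet I n D ⊆ ⋃ (e : {e : Fin (n + 1) // 1 ≤ (e : ℕ)}) (j₀ : σ) (i₀ : Fin (D + 1)),
      (theta I) '' {c : Idx σ n D → AlgebraicClosure k | PCond I (e.1 : ℕ) j₀ i₀ c} := by
    rintro q ⟨A, B, Q, s, hA, hB, hQ, hs, hpt, rfl⟩
    obtain ⟨e, j₀, i₀, c, he, hen, hi₀, hc, hs', hQ'⟩ := exists_param A B Q s hA hB hQ hs hpt
    simp only [Set.mem_iUnion]
    refine ⟨⟨⟨e, by omega⟩, he⟩, j₀, ⟨i₀, by omega⟩, c, hc, ?_⟩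
    rw [theta_eq hc hs', hQ']
  refine Set.Finite.subset ?_ h1
  refine Set.finite_iUnion fun e => Set.finite_iUnion fun j₀ => Set.finite_iUnion fun i₀ => ?_
  exact finite_theta hI n D e.1 e.2 j₀ i₀

theorem exists_goodSet [Finite k] {I : Set (MvPolynomial σ (RatFunc k))}
    (hI : ∀ P ∈ I, ∃ d, P.IsHomogeneous d)
    {L : Type} [Field L] [Algebra k L] [Algebra (RatFunc k) (RatFunc L)]
    [IsScalarTower k (RatFunc k) (RatFunc L)]
    (hL : tt k (RatFunc L) ∉ Set.range (algebraMap L (RatFunc L)))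
    (ξ : σ → RatFunc L) (hξ : IsPoint (wOne σ) I ξ)
    (hgen : ∀ P : MvPolynomial σ (RatFunc k), (∃ d, P.IsHomogeneous d) →
      MvPolynomial.aeval ξ P = 0 → ∀ x : σ → AlgebraicClosure (RatFunc k),
        IsPoint (wOne σ) I x → MvPolynomial.aeval x P = 0) :
    ∃ n D : ℕ, ∀ x : σ → AlgebraicClosure (RatFunc k), IsPoint (wOne σ) I x →
      cls (wOne σ) I x ∈ Submodule.span ℚ (goodSet I n D) := by
  obtain ⟨n, D, h, hh, hξh, hfam⟩ := exists_family hI hL ξ hξ hgen
  refine ⟨n, D, fun x hx => ?_⟩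
  have : Infinite (RatFunc k) := Infinite.of_injective (algebraMap k[X] (RatFunc k))
    (RatFunc.algebraMap_injective k)
  refine cls_mem_of_open hI ξ hξ hgen h hh hξh _ ?_ x hx
  intro x hx hxh
  obtain ⟨α, β, P, s₀, c, hα, hβ, hP, hf, hnc, hβs, ht, hc, hxc⟩ := hfam x hx hxh
  have h1 : x = fun j => c * (P j).eval s₀ := funext hxc
  rw [h1] at hx ⊢
  obtain ⟨h2, h3⟩ := cls_const_mul hI c hc _ hx
  rw [h3]
  refine stepA hI n D _ ?_ α β P s₀ hα hβ hP hf hnc hβs ht h2
  intro A B Q s hA hB hQ hs hpt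
  exact Submodule.subset_span ⟨A, B, Q, s, hA, hB, hQ, hs, hpt, rfl⟩

end Pool.Agent.ThF
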