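import Mathlib
import Pool.Agent.Helper16.GB11
import Pool.Agent.Helper16.GC7
import Pool.Agent.ThF.Defs

set_option autoImplicit false
set_option linter.unusedSectionVars false
set_option linter.style.haveILetI false

/-! Theorem F for `MP_0b9e0b_ag`, module F5: reduction to rational curves defined over the
algebraic closure of `k`. -/

namespace Pool.Agent.ThF

open Pool.Agent.Helper16 Pool.Agent.Helper16.BB Polynomial

section aux

variable {L N : Type} [Field L] [Field N] [Algebra L N]

/-- Values of polynomials at a pole of `s`. -/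
theorem stepA_val_pole {Γ : Type} [LinearOrderedCommGroupWithZero Γ] (v : Valuation N Γ)
    (htriv : ∀ a : L, a ≠ 0 → v (algebraMap L N a) = 1) {s : N} (hs : 1 < v s) (p : L[X])
    (hp : p ≠ 0) : v (aeval s p) = v s ^ p.natDegree := by
  have hc : ∀ a : L, v (algebraMap L N a) ≤ 1 := by
    intro a
    by_cases ha : a = 0
    · rw [ha, map_zero, map_zero]; exact zero_le
    · rw [htriv a ha]
  have hs0 : v s ≠ 0 := (zero_lt_one.trans hs).ne'
  rw [aeval_eq_sum_range, Finset.sum_range_succ]
  have h1 : v (p.coeff p.natDegree • s ^ p.natDegree) = v s ^ p.natDegree := by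
    rw [Algebra.smul_def, map_mul, map_pow,
      htriv _ (by rw [coeff_natDegree]; exact leadingCoeff_ne_zero.2 hp), one_mul]
  have h2 : v (∑ i ∈ Finset.range p.natDegree, p.coeff i • s ^ i) <
      v (p.coeff p.natDegree • s ^ p.natDegree) := by
    rw [h1]
    apply Valuation.map_sum_lt v (pow_ne_zero _ hs0)
    intro i hi
    rw [Algebra.smul_def, map_mul, map_pow]
    calc v (algebraMap L N (p.coeff i)) * v s ^ i ≤ 1 * v s ^ i := by gcongr; exact hc _
      _ = v s ^ i := one_mul _
      _ < v s ^ p.natDegree := pow_lt_pow_right₀ hs (Finset.mem_range.1 hi)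
  rw [Valuation.map_add_eq_of_lt_right v h2, h1]

/-- A nonconstant rational function of a transcendental element is transcendental. -/
theorem stepA_transcendental (s τ : N) (hs : Transcendental L s) (α β : L[X])
    (hnc : ∃ i j, α.coeff i * β.coeff j ≠ α.coeff j * β.coeff i)
    (h : τ * aeval s β = aeval s α) : Transcendental L τ := by
  intro hτ
  apply hs
  let τ' : algebraicClosure L N := ⟨τ, mem_algebraicClosure_iff.2 hτ⟩
  have h1 : IsAlgebraic (algebraicClosure L N) s := by
    refine ⟨α.map (algebraMap L (algebraicClosure L N)) -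
      C τ' * β.map (algebraMap L (algebraicClosure L N)), ?_, ?_⟩
    · intro h0
      obtain ⟨i, j, hij⟩ := hnc
      apply hij
      have h2 : ∀ i, algebraMap L (algebraicClosure L N) (α.coeff i) =
          τ' * algebraMap L (algebraicClosure L N) (β.coeff i) := by
        intro i
        have h3 := congrArg (fun q => q.coeff i) h0
        simp only [coeff_sub, coeff_map, coeff_C_mul, coeff_zero] at h3
        exact sub_eq_zero.1 h3
      apply (algebraMap L (algebraicClosure L N)).injective
      rw [map_mul, map_mul, h2 i, h2 j]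
      ring
    · rw [map_sub, map_mul, aeval_C, aeval_map_algebraMap, aeval_map_algebraMap, ← h]
      exact sub_self _
  exact h1.restrictScalars L

end aux

/-- The relation attached to the rational curve. -/
theorem stepA_abstract {k : Type} [Field k] {σ : Type} [Finite σ]
    {I : Set (MvPolynomial σ (RatFunc k))} (hI : ∀ P ∈ I, ∃ d, P.IsHomogeneous d)
    {L N : Type} [Field L] [Field N] [Algebra k L] [Algebra k N] [Algebra L N]
    [Algebra (RatFunc k) N] [IsScalarTower k L N] [IsScalarTower k (RatFunc k) N]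
    [Algebra (RatFunc k) L] [IsScalarTower k (RatFunc k) L]
    (hN : IsFunctionField (RatFunc k) N) (hNL : IsFunctionField L N)
    (V : Submodule ℚ (Quo (wOne σ) I)) (j₀ : L →ₐ[RatFunc k] AlgebraicClosure (RatFunc k))
    (s : N) (hs : Transcendental L s) (α β A B : L[X]) (P : σ → L[X]) (s₀ : L)
    (hcop : A * α + B * β = 1) (hnd : 0 < max α.natDegree β.natDegree)
    (hτ : tt k N * aeval s β = aeval s α) (ht : tt k L * β.eval s₀ = α.eval s₀)
    (hz : IsPoint (wOne σ) I (fun j => aeval s (P j)))
    (hx : IsPoint (wOne σ) I (fun j => j₀ ((P j).eval s₀)))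
    (hV : ∀ (v : Place (RatFunc k) N) (b : L), b ≠ 0 → v.val (algebraMap L N b) ≠ 1 →
      ∃ y, IsSp (wOne σ) I v (fun j => aeval s (P j)) y ∧ cls (wOne σ) I y ∈ V) :
    cls (wOne σ) I (fun j => j₀ ((P j).eval s₀)) ∈ V := by
  have httr : Transcendental k (tt k L) := transcendental_t L
  have ht0 : tt k L ≠ 0 := transcendental_ne_zero httr
  -- `β(s₀) ≠ 0`
  have hβ0 : β.eval s₀ ≠ 0 := by
    intro h0
    have h1 := congrArg (Polynomial.eval s₀) hcop
    rw [eval_add, eval_mul, eval_mul, eval_one, ← ht, h0] at h1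
    simp at h1
  have hβ : β ≠ 0 := by
    rintro rfl
    simp at hβ0
  have hα : α ≠ 0 := by
    rintro rfl
    rw [eval_zero] at ht
    exact (mul_ne_zero ht0 hβ0) ht
  have hβs : aeval s β ≠ 0 := fun h => hs ⟨β, hβ, h⟩
  have hev : ∀ p : L[X], aeval (algebraMap L N s₀) p = algebraMap L N (p.eval s₀) := by
    intro p
    rw [aeval_algebraMap_apply, coe_aeval_eq_eval]
  set g : N := s - algebraMap L N s₀ with hg
  have hgtr : Transcendental L g := by
    intro h
    apply hs
    have : s = g + algebraMap L N s₀ := by rw [hg]; ring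
    rw [this]
    exact h.add (isAlgebraic_algebraMap _)
  have hg0 : g ≠ 0 := transcendental_ne_zero hgtr
  set n := max α.natDegree β.natDegree with hn
  set f : N := g ^ n / aeval s β with hf
  have hf0 : f ≠ 0 := div_ne_zero (pow_ne_zero _ hg0) hβs
  have hconst : ∀ v : Valuation N (WithZero (Multiplicative ℤ)),
      (∀ a : L, a ≠ 0 → v (algebraMap L N a) = 1) → ∀ a : L, v (algebraMap L N a) ≤ 1 := by
    intro v htriv a
    by_cases ha : a = 0
    · rw [ha, map_zero, map_zero]; exact zero_le
    · rw [htriv a ha]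
  -- closeness
  have hclose : ∀ v : Valuation N (WithZero (Multiplicative ℤ)),
      (∀ a : L, a ≠ 0 → v (algebraMap L N a) = 1) → v g < 1 →
      v (tt k N - algebraMap L N (tt k L)) < 1 ∧ v (aeval s β) = 1 ∧
      ∀ j, v (aeval s (P j) - algebraMap L N ((P j).eval s₀)) < 1 := by
    intro v htriv hv
    have hc := hconst v htriv
    have hs1 : v s ≤ 1 := by
      have : s = g + algebraMap L N s₀ := by rw [hg]; ring
      rw [this]
      exact (v.map_add _ _).trans (max_le hv.le (hc _))
    have hd : ∀ p : L[X], v (aeval s p - algebraMap L N (p.eval s₀)) < 1 := by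
      intro p
      rw [← hev]
      exact val_aeval_sub_lt v hc hs1 hv p
    have hβ1 : v (algebraMap L N (β.eval s₀)) = 1 := htriv _ hβ0
    have hβs1 : v (aeval s β) = 1 := by
      have h1 : aeval s β = (aeval s β - algebraMap L N (β.eval s₀)) +
        algebraMap L N (β.eval s₀) := by ring
      rw [h1, Valuation.map_add_eq_of_lt_right v (by rw [hβ1]; exact hd β), hβ1]
    refine ⟨?_, hβs1, fun j => hd (P j)⟩
    have hαs1 : v (aeval s α) ≤ 1 := val_aeval_le v hc hs1 α
    have hτ1 : v (tt k N) ≤ 1 := by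
      rw [← hτ, map_mul, hβs1, mul_one] at hαs1
      exact hαs1
    have h1 : algebraMap L N (tt k L) * algebraMap L N (β.eval s₀) =
        algebraMap L N (α.eval s₀) := by rw [← map_mul, ht]
    have h2 : (tt k N - algebraMap L N (tt k L)) * algebraMap L N (β.eval s₀) =
        (aeval s α - algebraMap L N (α.eval s₀)) -
        tt k N * (aeval s β - algebraMap L N (β.eval s₀)) := by
      linear_combination -h1 + hτ
    have h5 : v ((tt k N - algebraMap L N (tt k L)) * algebraMap L N (β.eval s₀)) < 1 := by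
      rw [h2]
      refine v.map_sub_lt (hd α) ?_
      rw [map_mul]
      exact mul_lt_one_aux hτ1 (hd β)
    rwa [map_mul, hβ1, mul_one] at h5
  -- the place `s = s₀`
  obtain ⟨w, hw⟩ := hNL.exists_zero g hgtr
  obtain ⟨hw1, hw2, hw3⟩ := hclose w.val w.triv hw
  obtain ⟨v₀, hv₀⟩ := exists_place_of_close w (tt k L) httr hw1
  have hv₀tr : ∀ a : L, a ≠ 0 → v₀.val (algebraMap L N a) = 1 := by rw [hv₀]; exact w.triv
  have hv₀g : v₀.val g < 1 := by rw [hv₀]; exact hw
  have hordf : ∀ v : Place (RatFunc k) N, (∀ a : L, a ≠ 0 → v.val (algebraMap L N a) = 1) →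
      v.val g < 1 → 0 < v.ord f := by
    intro v htriv hv
    obtain ⟨-, h2, -⟩ := hclose v.val htriv hv
    rw [v.ord_pos_iff hf0, hf, map_div₀, h2, div_one, map_pow]
    exact pow_lt_one₀ zero_le hv hnd.ne'
  have hsp : ∀ v : Place (RatFunc k) N, (∀ a : L, a ≠ 0 → v.val (algebraMap L N a) = 1) →
      v.val g < 1 → IsSp (wOne σ) I v (fun j => aeval s (P j))
        (fun j => j₀ ((P j).eval s₀)) := by
    intro v htriv hv
    obtain ⟨h1, -, h3⟩ := hclose v.val htriv hv
    exact isSp_trivial hN v htriv h1 j₀ (fun j => (P j).eval s₀) _ h3 hx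
  refine mem_of_relation hN _ hz ?_ f hf0 V _ ?_ v₀ (hordf v₀ hv₀tr hv₀g)
    ⟨_, hsp v₀ hv₀tr hv₀g, rfl⟩
  · intro v
    haveI := v.finite_resField hN
    obtain ⟨m, -, -, h⟩ := exists_isSp_wOne hI v _ hz IsAlgClosed.lift
    exact ⟨_, h⟩
  · intro v hvf
    by_cases htriv : ∀ a : L, a ≠ 0 → v.val (algebraMap L N a) = 1
    · have hc := hconst v.val htriv
      have hvt : v.val (tt k N) = 1 := v.triv _ RatFunc.X_ne_zero
      have hαβ : v.val (aeval s α) = v.val (aeval s β) := by
        rw [← hτ, map_mul, hvt, one_mul]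
      by_cases hs1 : v.val s ≤ 1
      · have hβs1 : v.val (aeval s β) = 1 := by
          refine le_antisymm (val_aeval_le v.val hc hs1 β) ?_
          by_contra hlt
          rw [not_le] at hlt
          have h1 : v.val (aeval s (A * α + B * β)) < 1 := by
            rw [map_add, map_mul, map_mul]
            refine v.val.map_add_lt ?_ ?_
            · rw [map_mul]
              exact mul_lt_one_aux (val_aeval_le v.val hc hs1 A) (by rw [hαβ]; exact hlt)
            · rw [map_mul]
              exact mul_lt_one_aux (val_aeval_le v.val hc hs1 B) hlt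
          rw [hcop, map_one, map_one] at h1
          exact lt_irrefl _ h1
        have hg1 : v.val g < 1 := by
          refine lt_of_le_of_ne ((v.val.map_sub _ _).trans (max_le hs1 (hc _))) ?_
          intro h1
          apply hvf
          rw [v.ord_eq_zero_iff hf0, hf, map_div₀, map_pow, h1, hβs1, one_pow, div_one]
        exact ⟨_, hsp v htriv hg1, Or.inr ⟨hordf v htriv hg1, rfl⟩⟩
      · exfalso
        rw [not_le] at hs1
        have h1 := stepA_val_pole v.val htriv hs1 α hα
        have h2 := stepA_val_pole v.val htriv hs1 β hβ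
        have h3 : α.natDegree = β.natDegree := by
          rw [h1, h2] at hαβ
          exact pow_right_injective₀ (zero_lt_one.trans hs1) hs1.ne' hαβ
        apply hvf
        have h4 : v.val g = v.val s := by
          rw [hg]
          exact Valuation.map_sub_eq_of_lt_left v.val ((hc _).trans_lt hs1)
        rw [v.ord_eq_zero_iff hf0, hf, map_div₀, map_pow, h2, h4, hn, h3, max_self, div_self]
        exact pow_ne_zero _ (zero_lt_one.trans hs1).ne'
    · push Not at htriv
      obtain ⟨b, hb0, hb⟩ := htriv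
      obtain ⟨y, h1, h2⟩ := hV v b hb0 hb
      exact ⟨y, h1, Or.inl h2⟩

/-- The field generated by the coefficients and the parameter of the point. -/
theorem stepA_core {k : Type} [Field k] {σ : Type} [Finite σ]
    {I : Set (MvPolynomial σ (RatFunc k))} (hI : ∀ P ∈ I, ∃ d, P.IsHomogeneous d)
    {L : Type} [Field L] [Algebra k L] [Algebra (RatFunc k) L] [IsScalarTower k (RatFunc k) L]
    (hL : IsFunctionField k L) (V : Submodule ℚ (Quo (wOne σ) I))
    (j₀ : L →ₐ[RatFunc k] AlgebraicClosure (RatFunc k))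
    (α β : L[X]) (P : σ → L[X]) (s₀ : L) (hfam : IsFam I α β P)
    (hnc : ∃ i j, α.coeff i * β.coeff j ≠ α.coeff j * β.coeff i) (hβ : β.eval s₀ ≠ 0)
    (ht : tt k L * β.eval s₀ = α.eval s₀)
    (hpt : IsPoint (wOne σ) I (fun j => j₀ ((P j).eval s₀)))
    (hV : ∀ (N : Type) [Field N] [Algebra k N] [Algebra L N] [Algebra (RatFunc k) N]
      [IsScalarTower k L N] [IsScalarTower k (RatFunc k) N], IsFunctionField (RatFunc k) N →
      ∀ (s : N), aeval s β ≠ 0 → tt k N * aeval s β = aeval s α →
      IsPoint (wOne σ) I (fun j => aeval s (P j)) →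
      ∀ (v : Place (RatFunc k) N) (b : L), b ≠ 0 → v.val (algebraMap L N b) ≠ 1 →
      ∃ y, IsSp (wOne σ) I v (fun j => aeval s (P j)) y ∧ cls (wOne σ) I y ∈ V) :
    cls (wOne σ) I (fun j => j₀ ((P j).eval s₀)) ∈ V := by
  have hXtr := ratFunc_X_transcendental L
  have hβ0 : β ≠ 0 := by
    rintro rfl
    simp at hβ
  have hβX : aeval (RatFunc.X : RatFunc L) β ≠ 0 := fun h => hXtr ⟨β, hβ0, h⟩
  set τ : RatFunc L := aeval (RatFunc.X : RatFunc L) α / aeval (RatFunc.X : RatFunc L) β with hτ
  have hτtr : Transcendental L τ := by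
    apply stepA_transcendental RatFunc.X τ hXtr α β hnc
    rw [hτ, div_mul_cancel₀ _ hβX]
  obtain ⟨N, _, _, _, _, _, _, e, heX, hN, hNL⟩ := exists_twist_algebra L hL τ
    (fun h => hτtr (h.tower_top L))
  have hs : Transcendental L (e RatFunc.X) := by
    intro h
    apply hXtr
    have h2 := h.algHom e.symm.toAlgHom
    simpa using h2
  set s : N := e RatFunc.X with hsdef
  have hes : ∀ p : L[X], aeval s p = e (aeval (RatFunc.X : RatFunc L) p) := by
    intro p
    exact aeval_algHom_apply e.toAlgHom RatFunc.X p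
  have hβs : aeval s β ≠ 0 := fun h => hs ⟨β, hβ0, h⟩
  have htN : tt k N * aeval s β = aeval s α := by
    rw [tt, heX, hes, hes, ← map_mul, hτ, div_mul_cancel₀ _ hβX]
  have hz : IsPoint (wOne σ) I (fun j => aeval s (P j)) := by
    rw [isPoint_wOne] at hpt ⊢
    refine ⟨?_, fun Q hQ => ?_⟩
    · intro h0
      apply hpt.1
      funext j
      have h1 : aeval s (P j) = 0 := congrFun h0 j
      have h2 : P j = 0 := by
        by_contra h3
        exact hs ⟨P j, h3, h1⟩
      simp [h2]
    · rw [← aeval_bih Q hβs htN]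
      have h1 := congrArg (fun p : L[X] => aeval s p) (hfam Q hQ)
      simp only [map_zero] at h1
      rw [← h1]
      have h2 := MvPolynomial.comp_aeval_apply
        (f := Sum.elim (fun e : Bool => cond e α β) P)
        ((aeval s : L[X] →ₐ[L] N).restrictScalars k) (bih Q)
      refine Eq.trans ?_ h2.symm
      congr 2
      funext c
      rcases c with c | c
      · cases c <;> rfl
      · rfl
  obtain ⟨g, α', β', A, B, hgm, hαg, hβg, hcop⟩ := exists_gcd α β (by
    rintro rfl
    obtain ⟨i, j, hij⟩ := hnc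
    simp at hij)
  have hgs : aeval s g ≠ 0 := fun h => hs ⟨g, hgm.ne_zero, h⟩
  refine stepA_abstract hI hN hNL V j₀ s hs α' β' A B P s₀ hcop ?_ ?_ ?_ hz hpt
    (hV N hN s hβs htN hz)
  · by_contra h0
    have h1 : α'.natDegree = 0 ∧ β'.natDegree = 0 := by omega
    obtain ⟨i, j, hij⟩ := hnc
    apply hij
    rw [hαg, hβg, eq_C_of_natDegree_eq_zero h1.1, eq_C_of_natDegree_eq_zero h1.2,
      coeff_mul_C, coeff_mul_C, coeff_mul_C, coeff_mul_C]
    ring
  · apply mul_left_cancel₀ hgs
    have h1 : aeval s α = aeval s g * aeval s α' := by rw [← map_mul, ← hαg]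
    have h2 : aeval s β = aeval s g * aeval s β' := by rw [← map_mul, ← hβg]
    rw [h1, h2] at htN
    linear_combination htN
  · have h1 : α.eval s₀ = g.eval s₀ * α'.eval s₀ := by rw [← eval_mul, ← hαg]
    have h2 : β.eval s₀ = g.eval s₀ * β'.eval s₀ := by rw [← eval_mul, ← hβg]
    rw [h1, h2] at ht
    rw [h2] at hβ
    have h3 : g.eval s₀ ≠ 0 := left_ne_zero_of_mul hβ
    apply mul_left_cancel₀ h3
    linear_combination ht

/-- A finite extension of `k(t)` containing all coefficients. -/
theorem stepA_exists_field {K σ : Type} [Field K] [Finite σ] (α β : (AlgebraicClosure K)[X])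
    (P : σ → (AlgebraicClosure K)[X]) (s₀ : AlgebraicClosure K) :
    ∃ (L : IntermediateField K (AlgebraicClosure K)) (_ : FiniteDimensional K L) (α' β' : L[X])
      (P' : σ → L[X]) (s₁ : L), α'.map (algebraMap L (AlgebraicClosure K)) = α ∧
      β'.map (algebraMap L (AlgebraicClosure K)) = β ∧
      (fun j => (P' j).map (algebraMap L (AlgebraicClosure K))) = P ∧
      algebraMap L (AlgebraicClosure K) s₁ = s₀ := by
  classical
  haveI := Fintype.ofFinite σ
  let S : Finset (AlgebraicClosure K) :=
    α.coeffs ∪ β.coeffs ∪ (Finset.univ.biUnion fun j => (P j).coeffs) ∪ {s₀}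
  let L : IntermediateField K (AlgebraicClosure K) :=
    IntermediateField.adjoin K (S : Set (AlgebraicClosure K))
  haveI : FiniteDimensional K L :=
    IntermediateField.finiteDimensional_adjoin
      (fun x _ => (Algebra.IsAlgebraic.isAlgebraic x).isIntegral)
  have hSL : ∀ x ∈ S, x ∈ L := fun x hx => IntermediateField.subset_adjoin _ _ hx
  have hlift : ∀ p : (AlgebraicClosure K)[X], (∀ x ∈ p.coeffs, x ∈ L) →
      ∃ q : L[X], q.map (algebraMap L (AlgebraicClosure K)) = p := by
    intro p hp
    have h1 : p ∈ Polynomial.lifts (algebraMap L (AlgebraicClosure K)) := by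
      rw [Polynomial.lifts_iff_coeff_lifts]
      intro i
      by_cases h0 : p.coeff i = 0
      · exact ⟨0, by rw [map_zero, h0]⟩
      · exact ⟨⟨p.coeff i, hp _ (Polynomial.coeff_mem_coeffs h0)⟩, rfl⟩
    exact (Polynomial.mem_lifts p).1 h1
  obtain ⟨α', hα'⟩ := hlift α fun x hx => hSL x (by simp only [S, Finset.mem_union]; tauto)
  obtain ⟨β', hβ'⟩ := hlift β fun x hx => hSL x (by simp only [S, Finset.mem_union]; tauto)
  have hP' : ∀ j, ∃ q : L[X], q.map (algebraMap L (AlgebraicClosure K)) = P j := by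
    intro j
    refine hlift (P j) fun x hx => hSL x ?_
    simp only [S, Finset.mem_union, Finset.mem_biUnion, Finset.mem_univ, true_and]
    exact Or.inl (Or.inr ⟨j, hx⟩)
  choose P' hP' using hP'
  exact ⟨L, inferInstance, α', β', P', ⟨s₀, hSL s₀ (by simp [S])⟩, hα', hβ', funext hP', rfl⟩

/-- Module F5, with the statement of module F4 as a hypothesis. -/
theorem stepA_of_gauss {k : Type} [Field k] {σ : Type} [Finite σ]
    {I : Set (MvPolynomial σ (RatFunc k))} (hI : ∀ P ∈ I, ∃ d, P.IsHomogeneous d)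
    (hG : ∀ {L N : Type} [Field L] [Field N] [Algebra k L] [Algebra k N] [Algebra L N]
      [Algebra (RatFunc k) N] [IsScalarTower k L N] [IsScalarTower k (RatFunc k) N]
      (_ : IsFunctionField k L) (_ : IsFunctionField (RatFunc k) N)
      (s : N) (α β : L[X]) (P : σ → L[X]) (_ : aeval s β ≠ 0)
      (_ : tt k N * aeval s β = aeval s α) (_ : IsPoint (wOne σ) I (fun j => aeval s (P j)))
      (n D : ℕ) (_ : α.natDegree ≤ n) (_ : β.natDegree ≤ n) (_ : ∀ j, (P j).natDegree ≤ D)
      (v : Place (RatFunc k) N) (b : L) (_ : b ≠ 0) (_ : v.val (algebraMap L N b) ≠ 1),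
      ∃ (A B : (AlgebraicClosure k)[X]) (Q : σ → (AlgebraicClosure k)[X])
      (s' c : AlgebraicClosure (RatFunc k)), A.natDegree ≤ n ∧ B.natDegree ≤ n ∧
      (∀ j, (Q j).natDegree ≤ D) ∧ IsRt A B s' ∧ c ≠ 0 ∧
      IsSp (wOne σ) I v (fun j => aeval s (P j)) (fun j => c * ev (Q j) s'))
    (n D : ℕ) (V : Submodule ℚ (Quo (wOne σ) I))
    (hV : ∀ (A B : (AlgebraicClosure k)[X]) (Q : σ → (AlgebraicClosure k)[X])
      (s : AlgebraicClosure (RatFunc k)), A.natDegree ≤ n → B.natDegree ≤ n →
      (∀ j, (Q j).natDegree ≤ D) → IsRt A B s → IsPoint (wOne σ) I (fun j => ev (Q j) s) →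
      cls (wOne σ) I (fun j => ev (Q j) s) ∈ V)
    (α β : (AlgebraicClosure (RatFunc k))[X]) (P : σ → (AlgebraicClosure (RatFunc k))[X])
    (s₀ : AlgebraicClosure (RatFunc k)) (hαn : α.natDegree ≤ n) (hβn : β.natDegree ≤ n)
    (hPD : ∀ j, (P j).natDegree ≤ D) (hfam : IsFam I α β P)
    (hnc : ∃ i j, α.coeff i * β.coeff j ≠ α.coeff j * β.coeff i) (hβ : β.eval s₀ ≠ 0)
    (ht : tt k (AlgebraicClosure (RatFunc k)) * β.eval s₀ = α.eval s₀)
    (hpt : IsPoint (wOne σ) I (fun j => (P j).eval s₀)) :
    cls (wOne σ) I (fun j => (P j).eval s₀) ∈ V := by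
  obtain ⟨L, _, α', β', P', s₁, rfl, rfl, rfl, rfl⟩ := stepA_exists_field α β P s₀
  have hL : IsFunctionField k L := (isFunctionField_K (k := k)).of_finite
  have hinj := (algebraMap L (AlgebraicClosure (RatFunc k))).injective
  simp only [natDegree_map] at hαn hβn hPD
  simp only [eval_map_algebraMap, aeval_algebraMap_apply, coe_aeval_eq_eval] at hβ ht hpt ⊢
  have hpt' : IsPoint (wOne σ) I (fun j => L.val ((P' j).eval s₁)) := hpt
  refine stepA_core hI hL V L.val α' β' P' s₁ ?_ ?_ ?_ ?_ hpt' ?_
  · exact IsFam.of_map (L.val.restrictScalars k) L.val.injective hfam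
  · obtain ⟨i, j, hij⟩ := hnc
    refine ⟨i, j, fun h => hij ?_⟩
    rw [coeff_map, coeff_map, coeff_map, coeff_map, ← map_mul, h, map_mul]
  · intro h
    exact hβ (by rw [h, map_zero])
  · apply hinj
    rw [map_mul]
    exact ht
  · intro N _ _ _ _ _ _ hN s hβs hτ hz v b hb hbv
    obtain ⟨A, B, Q, s', c, hA, hB, hQ, hrt, hc, hsp⟩ := hG hL hN s α' β' P' hβs hτ hz n D
      hαn hβn hPD v b hb hbv
    refine ⟨_, hsp, ?_⟩
    obtain ⟨h1, h2⟩ := cls_const_mul hI c hc _ hsp.1
    rw [h2]
    exact hV A B Q s' hA hB hQ hrt h1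

end Pool.Agent.ThF
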