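import Pool.Agent.ThF.Defs

set_option autoImplicit false
set_option linter.unusedSectionVars false

/-! Theorem F: the parameter spaces of rational curves over the algebraic closure of `k`. -/

namespace Pool.Agent.ThF

open Pool.Agent.Helper16 Pool.Agent.Helper16.BB Polynomial

/-- The index set of the parameters. -/
abbrev Idx (σ : Type) (n D : ℕ) : Type :=
  (Bool × Fin (n + 1)) ⊕ ((σ × Fin (D + 1)) ⊕ ((Bool × Fin (n + 1)) ⊕ (Bool ⊕ Unit)))

section poly

variable {A : Type} [CommRing A]

/-- The polynomial with given coefficients. -/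
noncomputable def mkp {m : ℕ} (a : Fin (m + 1) → A) : A[X] := ∑ i : Fin (m + 1), monomial (i : ℕ) (a i)

theorem mkp_coeff {m : ℕ} (a : Fin (m + 1) → A) (i : ℕ) :
    (mkp a).coeff i = if h : i < m + 1 then a ⟨i, h⟩ else 0 := by
  classical
  rw [mkp, finsetSum_coeff]
  split_ifs with h
  · rw [Finset.sum_eq_single ⟨i, h⟩]
    · simp
    · intro b _ hb
      rw [coeff_monomial, if_neg]
      intro h2
      exact hb (Fin.ext h2)
    · simp
  · apply Finset.sum_eq_zero
    intro b _
    rw [coeff_monomial, if_neg]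
    intro h2
    exact h (h2 ▸ b.2)

theorem mkp_natDegree {m : ℕ} (a : Fin (m + 1) → A) : (mkp a).natDegree ≤ m := by
  rw [natDegree_le_iff_coeff_eq_zero]
  intro i hi
  rw [mkp_coeff, dif_neg (by omega)]

theorem mkp_map {A' : Type} [CommRing A'] (f : A →+* A') {m : ℕ} (a : Fin (m + 1) → A) :
    (mkp a).map f = mkp fun i => f (a i) := by
  ext i
  rw [coeff_map, mkp_coeff, mkp_coeff]
  split_ifs <;> simp

theorem mkp_of {m : ℕ} (F : A[X]) (hF : F.natDegree ≤ m) : mkp (fun i : Fin (m + 1) => F.coeff i) = F := by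
  ext i
  rw [mkp_coeff]
  split_ifs with h
  · rfl
  · exact (coeff_eq_zero_of_natDegree_lt (by omega)).symm

end poly

section par

variable {σ : Type} {n D : ℕ} {A : Type} [CommRing A]

/-- Numerator and denominator of `t`. -/
noncomputable def pAB (c : Idx σ n D → A) (b : Bool) : A[X] := mkp fun i => c (Sum.inl (b, i))

/-- The coordinates. -/
noncomputable def pP (c : Idx σ n D → A) (j : σ) : A[X] := mkp fun i => c (Sum.inr (Sum.inl (j, i)))

/-- The Bezout coefficients. -/
noncomputable def pUW (c : Idx σ n D → A) (b : Bool) : A[X] :=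
  mkp fun i => c (Sum.inr (Sum.inr (Sum.inl (b, i))))

/-- The remaining parameters. -/
def pC (c : Idx σ n D → A) (b : Bool) : A := c (Sum.inr (Sum.inr (Sum.inr (Sum.inl b))))

/-- The remaining parameters. -/
def pE (c : Idx σ n D → A) : A := c (Sum.inr (Sum.inr (Sum.inr (Sum.inr ()))))

/-- The conditions on the parameters. -/
def PCond {k : Type} [Field k] [Algebra k A] (I : Set (MvPolynomial σ (RatFunc k)))
    (e : ℕ) (j₀ : σ) (i₀ : ℕ) (c : Idx σ n D → A) : Prop :=
  (∀ b i, e < i → (pAB c b).coeff i = 0) ∧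
  pC c true * (pAB c true).coeff e + pC c false * (pAB c false).coeff e = 1 ∧
  pUW c true * pAB c true + pUW c false * pAB c false = 1 ∧
  (pP c j₀).coeff i₀ * pE c = 1 ∧
  IsFam I (pAB c true) (pAB c false) (pP c)

/-- The universal parameters. -/
noncomputable def uni (k : Type) [Field k] (σ : Type) (n D : ℕ) :
    Idx σ n D → MvPolynomial (Idx σ n D) k := MvPolynomial.X

/-- The equations of the parameter space. -/
noncomputable def pEq {k : Type} [Field k] (I : Set (MvPolynomial σ (RatFunc k))) (n D : ℕ)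
    (e : ℕ) (j₀ : σ) (i₀ : ℕ) : Set (MvPolynomial (Idx σ n D) k) :=
  {q | ∃ b i, e < i ∧ q = (pAB (uni k σ n D) b).coeff i} ∪
  {pC (uni k σ n D) true * (pAB (uni k σ n D) true).coeff e +
    pC (uni k σ n D) false * (pAB (uni k σ n D) false).coeff e - 1} ∪
  {q | ∃ i, q = (pUW (uni k σ n D) true * pAB (uni k σ n D) true +
    pUW (uni k σ n D) false * pAB (uni k σ n D) false - 1).coeff i} ∪
  {(pP (uni k σ n D) j₀).coeff i₀ * pE (uni k σ n D) - 1} ∪
  {q | ∃ Q ∈ I, ∃ i, q = (MvPolynomial.aeval (Sum.elim (fun b : Bool =>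
    cond b (pAB (uni k σ n D) true) (pAB (uni k σ n D) false)) (pP (uni k σ n D))) (bih Q)).coeff i}

theorem uni_map {k : Type} [Field k] [Algebra k A] (c : Idx σ n D → A) :
    (∀ b, (pAB (uni k σ n D) b).map ((MvPolynomial.aeval c : _ →ₐ[k] A) : _ →+* A) = pAB c b) ∧
    (∀ j, (pP (uni k σ n D) j).map ((MvPolynomial.aeval c : _ →ₐ[k] A) : _ →+* A) = pP c j) ∧
    (∀ b, (pUW (uni k σ n D) b).map ((MvPolynomial.aeval c : _ →ₐ[k] A) : _ →+* A) = pUW c b) ∧
    (∀ b, MvPolynomial.aeval c (pC (uni k σ n D) b) = pC c b) ∧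
    MvPolynomial.aeval c (pE (uni k σ n D)) = pE c := by
  refine ⟨fun b => ?_, fun j => ?_, fun b => ?_, fun b => ?_, ?_⟩
  · rw [pAB, mkp_map, pAB]
    congr 1
    funext i
    simp [uni]
  · rw [pP, mkp_map, pP]
    congr 1
    funext i
    simp [uni]
  · rw [pUW, mkp_map, pUW]
    congr 1
    funext i
    simp [uni]
  · simp [pC, uni]
  · simp [pE, uni]

theorem pEq_iff {k : Type} [Field k] [Algebra k A] {I : Set (MvPolynomial σ (RatFunc k))}
    {e : ℕ} {j₀ : σ} {i₀ : ℕ} (c : Idx σ n D → A) :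
    (∀ q ∈ pEq I n D e j₀ i₀, MvPolynomial.aeval c q = 0) ↔ PCond I e j₀ i₀ c := by
  obtain ⟨hAB, hP, hUW, hC, hE⟩ := uni_map (k := k) c
  have hABc : ∀ b i, MvPolynomial.aeval c ((pAB (uni k σ n D) b).coeff i) = (pAB c b).coeff i := by
    intro b i
    rw [← hAB b, coeff_map]
    rfl
  have hPc : ∀ j i, MvPolynomial.aeval c ((pP (uni k σ n D) j).coeff i) = (pP c j).coeff i := by
    intro b i
    rw [← hP b, coeff_map]
    rfl
  have hbez : ∀ i, MvPolynomial.aeval c ((pUW (uni k σ n D) true * pAB (uni k σ n D) true +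
      pUW (uni k σ n D) false * pAB (uni k σ n D) false - 1).coeff i) =
      (pUW c true * pAB c true + pUW c false * pAB c false - 1).coeff i := by
    intro i
    rw [← hAB, ← hAB, ← hUW, ← hUW, ← Polynomial.map_mul, ← Polynomial.map_mul,
      ← Polynomial.map_add,
      ← Polynomial.map_one ((MvPolynomial.aeval c : MvPolynomial (Idx σ n D) k →ₐ[k] A) :
        MvPolynomial (Idx σ n D) k →+* A), ← Polynomial.map_sub,
      coeff_map]
    rfl
  have hfam : ∀ (Q : MvPolynomial σ (RatFunc k)) (i : ℕ),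
      MvPolynomial.aeval c ((MvPolynomial.aeval (Sum.elim (fun b : Bool =>
        cond b (pAB (uni k σ n D) true) (pAB (uni k σ n D) false)) (pP (uni k σ n D)))
        (bih Q)).coeff i) =
      (MvPolynomial.aeval (Sum.elim (fun b : Bool => cond b (pAB c true) (pAB c false)) (pP c))
        (bih Q)).coeff i := by
    intro Q i
    have h1 : Polynomial.mapAlgHom (MvPolynomial.aeval c : MvPolynomial (Idx σ n D) k →ₐ[k] A)
        (MvPolynomial.aeval (Sum.elim (fun b : Bool =>
        cond b (pAB (uni k σ n D) true) (pAB (uni k σ n D) false)) (pP (uni k σ n D)))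
        (bih Q)) = MvPolynomial.aeval (Sum.elim (fun b : Bool => cond b (pAB c true)
          (pAB c false)) (pP c)) (bih Q) := by
      rw [MvPolynomial.comp_aeval_apply]
      congr 2
      funext x
      rcases x with x | x
      · cases x
        · exact hAB false
        · exact hAB true
      · exact hP x
    rw [← h1]
    change _ = (Polynomial.map _ _).coeff i
    rw [coeff_map]
    rfl
  constructor
  · intro h
    refine ⟨fun b i hi => ?_, ?_, ?_, ?_, fun Q hQ => ?_⟩
    · rw [← hABc]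
      exact h _ (Or.inl (Or.inl (Or.inl (Or.inl ⟨b, i, hi, rfl⟩))))
    · have h1 := h _ (Or.inl (Or.inl (Or.inl (Or.inr rfl))))
      rw [map_sub, map_add, map_mul, map_mul, map_one, hC, hC, hABc, hABc, sub_eq_zero] at h1
      exact h1
    · rw [← sub_eq_zero]
      ext i
      rw [← hbez, coeff_zero]
      exact h _ (Or.inl (Or.inl (Or.inr ⟨i, rfl⟩)))
    · have h1 := h _ (Or.inl (Or.inr rfl))
      rw [map_sub, map_mul, map_one, hE, hPc, sub_eq_zero] at h1
      exact h1
    · ext i
      rw [← hfam, coeff_zero]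
      exact h _ (Or.inr ⟨Q, hQ, i, rfl⟩)
  · rintro ⟨h1, h2, h3, h4, h5⟩ q hq
    rcases hq with (((⟨b, i, hi, rfl⟩ | rfl) | ⟨i, rfl⟩) | rfl) | ⟨Q, hQ, i, rfl⟩
    · rw [hABc, h1 b i hi]
    · rw [map_sub, map_add, map_mul, map_mul, map_one, hC, hC, hABc, hABc, h2, sub_self]
    · rw [hbez, h3, sub_self, coeff_zero]
    · rw [map_sub, map_mul, map_one, hE, hPc, h4, sub_self]
    · rw [hfam, h5 Q hQ, coeff_zero]

end par

end Pool.Agent.ThF
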