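import Mathlib
import Pool.Agent.Helper16.GC2
import Pool.Agent.Helper16.GC7
import Pool.Agent.ThF.Param

set_option autoImplicit false
set_option linter.unusedSectionVars false

/-! Theorem F: the class attached to a parameter. -/

namespace Pool.Agent.ThF

open Pool.Agent.Helper16 Pool.Agent.Helper16.BB Polynomial

section ev

variable {k : Type} [Field k]

theorem ev_add (F G : (AlgebraicClosure k)[X]) (s : AlgebraicClosure (RatFunc k)) :
    ev (F + G) s = ev F s + ev G s := eval₂_add _ _

theorem ev_mul (F G : (AlgebraicClosure k)[X]) (s : AlgebraicClosure (RatFunc k)) :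
    ev (F * G) s = ev F s * ev G s := eval₂_mul _ _

theorem ev_C (a : AlgebraicClosure k) (s : AlgebraicClosure (RatFunc k)) :
    ev (C a) s = jc k a := eval₂_C _ _

theorem ev_zero (s : AlgebraicClosure (RatFunc k)) : ev (0 : (AlgebraicClosure k)[X]) s = 0 :=
  eval₂_zero _ _

theorem ev_jc (F : (AlgebraicClosure k)[X]) (r : AlgebraicClosure k) :
    ev F (jc k r) = jc k (F.eval r) := by
  rw [ev]
  exact (hom_eval₂ F (RingHom.id _) (jc k).toRingHom r).symm.trans (by simp [eval₂_id])

/-- Evaluation at `s` as a homomorphism. -/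
noncomputable def evHom (s : AlgebraicClosure (RatFunc k)) :
    (AlgebraicClosure k)[X] →ₐ[k] AlgebraicClosure (RatFunc k) where
  toRingHom := eval₂RingHom (jc k).toRingHom s
  commutes' := fun c => by
    change eval₂ (jc k).toRingHom s (algebraMap k (AlgebraicClosure k)[X] c) = _
    rw [IsScalarTower.algebraMap_apply k (AlgebraicClosure k) (AlgebraicClosure k)[X],
      algebraMap_eq, eval₂_C]
    exact (jc k).commutes c

theorem evHom_apply (s : AlgebraicClosure (RatFunc k)) (F : (AlgebraicClosure k)[X]) :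
    evHom s F = ev F s := rfl

theorem tt_transcendental : Transcendental k (tt k (AlgebraicClosure (RatFunc k))) :=
  transcendental_tb

/-- A root of `A - t B` is transcendental over the constants. -/
theorem IsRt.eq_zero {A B : (AlgebraicClosure k)[X]} {s : AlgebraicClosure (RatFunc k)}
    (h : IsRt A B s) (F : (AlgebraicClosure k)[X]) (hF : ev F s = 0) : F = 0 := by
  by_contra hF0
  have h1 : ∃ r, s = jc k r := by
    have hs := (IsAlgClosed.splits F)
    have h2 := hs.eq_prod_roots
    rw [h2] at hF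
    rw [ev_mul, ev_C] at hF
    have h3 : jc k F.leadingCoeff ≠ 0 := by
      simpa using hF0
    have h4 := (mul_eq_zero.1 hF).resolve_left h3
    rw [← evHom_apply, map_multiset_prod, Multiset.map_map, Multiset.prod_eq_zero_iff] at h4
    obtain ⟨r, hr, h5⟩ := Multiset.mem_map.1 h4
    refine ⟨r, ?_⟩
    rw [Function.comp_apply, map_sub, evHom_apply, evHom_apply, ev_C, sub_eq_zero] at h5
    rw [← h5]
    exact (eval₂_X _ _).symm
  obtain ⟨r, rfl⟩ := h1
  obtain ⟨h2, h3⟩ := h
  rw [ev_jc, ev_jc] at h3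
  rw [ev_jc] at h2
  have h4 : tt k (AlgebraicClosure (RatFunc k)) = jc k (A.eval r / B.eval r) := by
    rw [map_div₀, eq_div_iff h2, h3]
  apply tt_transcendental (k := k)
  rw [h4]
  exact (Algebra.IsAlgebraic.isAlgebraic (A.eval r / B.eval r)).algHom (jc k)

theorem IsRt.conj {A B : (AlgebraicClosure k)[X]} {s s' : AlgebraicClosure (RatFunc k)}
    (h : IsRt A B s) (h' : IsRt A B s') :
    ∃ τ : AlgebraicClosure (RatFunc k) ≃ₐ[RatFunc k] AlgebraicClosure (RatFunc k),
      ∀ F, τ (ev F s) = ev F s' := by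
  obtain ⟨τ, h1, h2⟩ := exists_conj_rat (-A) B s s' (by
    rw [eval₂_neg]
    have := h.2
    change -ev A s + tt k _ * ev B s = 0
    rw [this]
    ring) (by
    rw [eval₂_neg]
    have := h'.2
    change -ev A s' + tt k _ * ev B s' = 0
    rw [this]
    ring) h.1 h'.1
  refine ⟨τ, fun F => ?_⟩
  rw [ev, ev]
  have h3 := hom_eval₂ F (jc k).toRingHom τ.toAlgHom.toRingHom s
  refine h3.trans ?_
  have h4 : τ.toAlgHom.toRingHom s = s' := h2
  rw [h4]
  congr 1
  apply RingHom.ext
  intro c
  exact h1 c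

theorem IsRt.cls_eq {σ : Type} [Finite σ] {I : Set (MvPolynomial σ (RatFunc k))}
    {A B : (AlgebraicClosure k)[X]} {s s' : AlgebraicClosure (RatFunc k)}
    (h : IsRt A B s) (h' : IsRt A B s') (Q : σ → (AlgebraicClosure k)[X])
    (hpt : IsPoint (wOne σ) I (fun j => ev (Q j) s)) :
    IsPoint (wOne σ) I (fun j => ev (Q j) s') ∧
      cls (wOne σ) I (fun j => ev (Q j) s') = cls (wOne σ) I (fun j => ev (Q j) s) := by
  obtain ⟨τ, hτ⟩ := h.conj h'
  have h1 := cls_conj τ _ hpt
  have h2 := isPoint_map τ.toAlgHom _ hpt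
  have h3 : (fun j => τ (ev (Q j) s)) = fun j => ev (Q j) s' := funext fun j => hτ _
  rw [h3] at h1
  have h4 : (fun j => τ.toAlgHom (ev (Q j) s)) = fun j => ev (Q j) s' := funext fun j => hτ _
  rw [h4] at h2
  exact ⟨h2, h1⟩

theorem exists_rt {A B : (AlgebraicClosure k)[X]} (hcop : IsCoprime A B) (e : ℕ) (he : 1 ≤ e)
    (htop : A.coeff e ≠ 0 ∨ B.coeff e ≠ 0) : ∃ s, IsRt A B s := by
  let P : (AlgebraicClosure (RatFunc k))[X] := A.map (jc k).toRingHom -
    C (tt k (AlgebraicClosure (RatFunc k))) * B.map (jc k).toRingHom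
  have hPe : P.coeff e ≠ 0 := by
    intro h
    have h1 : jc k (A.coeff e) - tt k _ * jc k (B.coeff e) = 0 := by
      have := h
      simp only [P, coeff_sub, coeff_C_mul, coeff_map] at this
      exact this
    by_cases hB : B.coeff e = 0
    · rw [hB, map_zero, mul_zero, sub_zero] at h1
      rcases htop with h2 | h2
      · exact h2 (by simpa using h1)
      · exact h2 hB
    · have h2 : tt k (AlgebraicClosure (RatFunc k)) = jc k (A.coeff e / B.coeff e) := by
        rw [map_div₀, eq_div_iff (by simpa using hB)]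
        exact (sub_eq_zero.1 h1).symm
      apply tt_transcendental (k := k)
      rw [h2]
      exact (Algebra.IsAlgebraic.isAlgebraic _).algHom (jc k)
  have hdeg : P.degree ≠ 0 := by
    intro h
    have h1 : P.natDegree = 0 := natDegree_eq_of_degree_eq_some h
    apply hPe
    exact coeff_eq_zero_of_natDegree_lt (by omega)
  obtain ⟨s, hs⟩ := IsAlgClosed.exists_root P hdeg
  have h1 : ev A s = tt k _ * ev B s := by
    have h2 : P.eval s = 0 := hs
    simp only [P, eval_sub, eval_mul, eval_C, eval_map] at h2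
    exact sub_eq_zero.1 h2
  refine ⟨s, ?_, h1.symm⟩
  intro h2
  rw [h2, mul_zero] at h1
  obtain ⟨u, w, h3⟩ := hcop
  have h4 := congrArg (fun F => ev F s) h3
  simp only [ev_add, ev_mul, h1, h2, mul_zero, add_zero] at h4
  have h5 : ev (1 : (AlgebraicClosure k)[X]) s = 1 := eval₂_one _ _
  rw [h5] at h4
  exact zero_ne_one h4

end ev

section theta

variable {k : Type} [Field k] {σ : Type} [Finite σ] {n D : ℕ}

theorem PCond.isCoprime {A : Type} [CommRing A] [Algebra k A]
    {I : Set (MvPolynomial σ (RatFunc k))} {e : ℕ} {j₀ : σ} {i₀ : ℕ}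
    {c : Idx σ n D → A} (h : PCond I e j₀ i₀ c) : IsCoprime (pAB c true) (pAB c false) :=
  ⟨_, _, h.2.2.1⟩

theorem PCond.top {I : Set (MvPolynomial σ (RatFunc k))} {e : ℕ} {j₀ : σ} {i₀ : ℕ}
    {c : Idx σ n D → AlgebraicClosure k} (h : PCond I e j₀ i₀ c) :
    (pAB c true).coeff e ≠ 0 ∨ (pAB c false).coeff e ≠ 0 := by
  by_contra hcon
  push Not at hcon
  have h1 := h.2.1
  rw [hcon.1, hcon.2, mul_zero, mul_zero, add_zero] at h1
  exact zero_ne_one h1

theorem PCond.isPoint {I : Set (MvPolynomial σ (RatFunc k))} {e : ℕ} {j₀ : σ} {i₀ : ℕ}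
    {c : Idx σ n D → AlgebraicClosure k} (h : PCond I e j₀ i₀ c)
    {s : AlgebraicClosure (RatFunc k)} (hs : IsRt (pAB c true) (pAB c false) s) :
    IsPoint (wOne σ) I (fun j => ev (pP c j) s) := by
  rw [isPoint_wOne]
  refine ⟨?_, fun Q hQ => ?_⟩
  · intro h0
    have h1 := hs.eq_zero _ (congrFun h0 j₀)
    have h2 := h.2.2.2.1
    rw [h1, coeff_zero, zero_mul] at h2
    exact zero_ne_one h2
  · rw [← aeval_bih Q hs.1 hs.2]
    have h1 := congrArg (evHom s) (h.2.2.2.2 Q hQ)
    rw [map_zero, MvPolynomial.comp_aeval_apply] at h1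
    rw [← h1]
    congr 2
    funext x
    rcases x with x | x
    · cases x <;> rfl
    · rfl

/-- The class attached to a parameter. -/
noncomputable def theta (I : Set (MvPolynomial σ (RatFunc k)))
    (c : Idx σ n D → AlgebraicClosure k) : Quo (wOne σ) I :=
  open scoped Classical in
  if h : ∃ s, IsRt (pAB c true) (pAB c false) s then
    cls (wOne σ) I (fun j => ev (pP c j) h.choose) else 0

theorem theta_eq {I : Set (MvPolynomial σ (RatFunc k))} {e : ℕ} {j₀ : σ} {i₀ : ℕ}
    {c : Idx σ n D → AlgebraicClosure k} (h : PCond I e j₀ i₀ c)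
    {s : AlgebraicClosure (RatFunc k)} (hs : IsRt (pAB c true) (pAB c false) s) :
    theta I c = cls (wOne σ) I (fun j => ev (pP c j) s) := by
  have h1 : ∃ s, IsRt (pAB c true) (pAB c false) s := ⟨s, hs⟩
  rw [theta, dif_pos h1]
  exact (hs.cls_eq h1.choose_spec (pP c) (h.isPoint hs)).2

end theta

section exist

variable {k : Type} [Field k]

/-- Bezout coefficients of bounded degree. -/
theorem exists_bezout_bounded {κ : Type} [Field κ] {A B : κ[X]} (h : IsCoprime A B) (n : ℕ)
    (hA : A.natDegree ≤ n) (hB : B.natDegree ≤ n) (hA0 : A ≠ 0) :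
    ∃ U W : κ[X], U.natDegree ≤ n ∧ W.natDegree ≤ n ∧ U * A + W * B = 1 := by
  obtain ⟨U, W, h1⟩ := h
  -- replace W by W mod A
  refine ⟨U + (W / A) * B, W % A, ?_, ?_, ?_⟩
  · have h2 : (U + (W / A) * B) * A = 1 - (W % A) * B := by
      have h3 := EuclideanDomain.div_add_mod W A
      have h4 : W = A * (W / A) + W % A := h3.symm
      calc (U + (W / A) * B) * A = U * A + (A * (W / A)) * B := by ring
        _ = 1 - (W % A) * B := by
          have h5 : A * (W / A) = W - W % A := by rw [eq_sub_iff_add_eq]; exact h3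
          rw [h5]
          linear_combination h1
    by_cases hU : U + (W / A) * B = 0
    · rw [hU]
      simp
    · have h3 : (U + (W / A) * B).natDegree + A.natDegree = (1 - (W % A) * B).natDegree := by
        rw [← natDegree_mul hU hA0, h2]
      by_cases hA1 : A.natDegree = 0
      · have h4 : W % A = 0 := by
          have h5 : A.degree = 0 := by
            rw [degree_eq_natDegree hA0, hA1]
            rfl
          have h6 := EuclideanDomain.mod_lt W hA0
          have h7 : (W % A).degree < A.degree := degree_mod_lt W hA0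
          rw [h5] at h7
          rwa [← degree_eq_bot, ← Nat.WithBot.lt_zero_iff]
        rw [h4, zero_mul, sub_zero, natDegree_one] at h3
        omega
      · have h4 : (W % A).natDegree < A.natDegree := natDegree_mod_lt W hA1
        have h5 : (1 - (W % A) * B).natDegree ≤ max 0 ((W % A) * B).natDegree := by
          have := natDegree_sub_le (1 : κ[X]) ((W % A) * B)
          rwa [natDegree_one] at this
        have h6 : ((W % A) * B).natDegree ≤ (W % A).natDegree + B.natDegree := natDegree_mul_le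
        have h7 : max 0 ((W % A) * B).natDegree = ((W % A) * B).natDegree := by simp
        rw [h7] at h5
        omega
  · by_cases hA1 : A.natDegree = 0
    · have h4 : W % A = 0 := by
        have h5 : A.degree = 0 := by
          rw [degree_eq_natDegree hA0, hA1]
          rfl
        have h7 : (W % A).degree < A.degree := degree_mod_lt W hA0
        rw [h5] at h7
        rwa [← degree_eq_bot, ← Nat.WithBot.lt_zero_iff]
      rw [h4]
      simp
    · have h4 : (W % A).natDegree < A.natDegree := natDegree_mod_lt W hA1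
      omega
  · have h3 := EuclideanDomain.div_add_mod W A
    have h5 : A * (W / A) = W - W % A := by rw [eq_sub_iff_add_eq]; exact h3
    calc (U + (W / A) * B) * A + (W % A) * B = U * A + (A * (W / A)) * B + (W % A) * B := by ring
      _ = 1 := by
        rw [h5]
        linear_combination h1

/-- Every rational curve comes from a parameter. -/
theorem exists_param {σ : Type} [Finite σ] {n D : ℕ} {I : Set (MvPolynomial σ (RatFunc k))}
    (A B : (AlgebraicClosure k)[X]) (Q : σ → (AlgebraicClosure k)[X])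
    (s : AlgebraicClosure (RatFunc k)) (hA : A.natDegree ≤ n) (hB : B.natDegree ≤ n)
    (hQ : ∀ j, (Q j).natDegree ≤ D) (hs : IsRt A B s)
    (hpt : IsPoint (wOne σ) I (fun j => ev (Q j) s)) :
    ∃ (e : ℕ) (j₀ : σ) (i₀ : ℕ) (c : Idx σ n D → AlgebraicClosure k), 1 ≤ e ∧ e ≤ n ∧ i₀ ≤ D ∧
      PCond I e j₀ i₀ c ∧ IsRt (pAB c true) (pAB c false) s ∧ pP c = Q := by
  have htt : tt k (AlgebraicClosure (RatFunc k)) ≠ 0 := by
    intro h
    apply tt_transcendental (k := k)
    rw [h]
    exact isAlgebraic_zero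
  have hA0 : A ≠ 0 := by
    rintro rfl
    have h1 := hs.2
    rw [ev_zero] at h1
    rcases mul_eq_zero.1 h1 with h2 | h2
    · exact htt h2
    · exact hs.1 h2
  have hB0 : B ≠ 0 := by
    rintro rfl
    exact hs.1 (ev_zero s)
  obtain ⟨H, A', B', U₀, W₀, hH, hAA', hBB', hbez₀⟩ := exists_gcd A B hA0
  have hA'0 : A' ≠ 0 := by
    rintro rfl
    exact hA0 (by rw [hAA', mul_zero])
  have hB'0 : B' ≠ 0 := by
    rintro rfl
    exact hB0 (by rw [hBB', mul_zero])
  have hA'n : A'.natDegree ≤ n := by
    have h1 : A.natDegree = H.natDegree + A'.natDegree := by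
      rw [hAA', natDegree_mul hH.ne_zero hA'0]
    omega
  have hB'n : B'.natDegree ≤ n := by
    have h1 : B.natDegree = H.natDegree + B'.natDegree := by
      rw [hBB', natDegree_mul hH.ne_zero hB'0]
    omega
  have hHs : ev H s ≠ 0 := by
    intro h
    apply hs.1
    rw [hBB', ev_mul, h, zero_mul]
  have hs' : IsRt A' B' s := by
    refine ⟨?_, ?_⟩
    · intro h
      apply hs.1
      rw [hBB', ev_mul, h, mul_zero]
    · have h1 := hs.2
      rw [hAA', hBB', ev_mul, ev_mul] at h1
      apply mul_left_cancel₀ hHs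
      rw [← h1]
      ring
  obtain ⟨U, W, hU, hW, hbez⟩ := exists_bezout_bounded (A := A') (B := B') ⟨U₀, W₀, hbez₀⟩ n hA'n
    hB'n hA'0
  -- the degree
  set e := max A'.natDegree B'.natDegree with he
  have hen : e ≤ n := max_le hA'n hB'n
  have he1 : 1 ≤ e := by
    by_contra hlt
    have h1 : A'.natDegree = 0 := by omega
    have h2 : B'.natDegree = 0 := by omega
    rw [natDegree_eq_zero] at h1 h2
    obtain ⟨a, rfl⟩ := h1
    obtain ⟨b, rfl⟩ := h2
    have h3 := hs'.2
    have h4 := hs'.1
    rw [ev_C] at h3 h4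
    rw [ev_C] at h3
    apply tt_transcendental (k := k)
    rw [show tt k (AlgebraicClosure (RatFunc k)) = jc k (a / b) by
      rw [map_div₀, eq_div_iff h4, h3]]
    exact (Algebra.IsAlgebraic.isAlgebraic _).algHom (jc k)
  have htop : ∃ c₁ c₂ : AlgebraicClosure k, c₁ * A'.coeff e + c₂ * B'.coeff e = 1 := by
    rcases le_total A'.natDegree B'.natDegree with h | h
    · have h1 : e = B'.natDegree := max_eq_right h
      refine ⟨0, (B'.coeff e)⁻¹, ?_⟩
      rw [zero_mul, zero_add, inv_mul_cancel₀]
      rw [h1]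
      exact leadingCoeff_ne_zero.2 hB'0
    · have h1 : e = A'.natDegree := max_eq_left h
      refine ⟨(A'.coeff e)⁻¹, 0, ?_⟩
      rw [zero_mul, add_zero, inv_mul_cancel₀]
      rw [h1]
      exact leadingCoeff_ne_zero.2 hA'0
  obtain ⟨c₁, c₂, hc⟩ := htop
  -- a nonzero coefficient
  obtain ⟨hne, hIz⟩ := (isPoint_wOne I _).1 hpt
  obtain ⟨j₀, hj₀⟩ := Function.ne_iff.1 hne
  have hQ0 : Q j₀ ≠ 0 := by
    intro h
    apply hj₀
    change ev (Q j₀) s = 0
    rw [h, ev_zero]
  set i₀ := (Q j₀).natDegree with hi₀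
  have hQc : (Q j₀).coeff i₀ ≠ 0 := leadingCoeff_ne_zero.2 hQ0
  let c : Idx σ n D → AlgebraicClosure k := Sum.elim
    (fun x => cond x.1 (A'.coeff x.2) (B'.coeff x.2)) (Sum.elim
      (fun x => (Q x.1).coeff x.2) (Sum.elim (fun x => cond x.1 (U.coeff x.2) (W.coeff x.2))
        (Sum.elim (fun b => cond b c₁ c₂) fun _ => ((Q j₀).coeff i₀)⁻¹)))
  have h1 : pAB c true = A' := mkp_of A' hA'n
  have h2 : pAB c false = B' := mkp_of B' hB'n
  have h3 : ∀ j, pP c j = Q j := fun j => mkp_of (Q j) (hQ j)
  have h4 : pUW c true = U := mkp_of U hU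
  have h5 : pUW c false = W := mkp_of W hW
  refine ⟨e, j₀, i₀, c, he1, hen, hQ j₀, ⟨?_, ?_, ?_, ?_, ?_⟩, ?_, funext h3⟩
  · intro b i hi
    cases b
    · rw [h2]
      exact coeff_eq_zero_of_natDegree_lt (by omega)
    · rw [h1]
      exact coeff_eq_zero_of_natDegree_lt (by omega)
  · rw [h1, h2]
    exact hc
  · rw [h1, h2, h4, h5]
    exact hbez
  · rw [h3]
    exact mul_inv_cancel₀ hQc
  · intro P hP
    apply hs'.eq_zero
    rw [← evHom_apply, MvPolynomial.comp_aeval_apply]
    have h6 := (aeval_bih P hs'.1 hs'.2 (x := fun j => ev (Q j) s)).2 (hIz P hP)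
    rw [← h6]
    congr 2
    funext x
    rcases x with x | x
    · cases x
      · change ev (pAB c false) s = ev B' s
        rw [h2]
      · change ev (pAB c true) s = ev A' s
        rw [h1]
    · change ev (pP c x) s = ev (Q x) s
      rw [h3]
  · rw [h1, h2]
    exact hs'

end exist

end Pool.Agent.ThF
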