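import Pool.Agent.ThF.Main
import Pool.Agent.Helper16.BBA0Defs

set_option autoImplicit false
set_option linter.unusedSectionVars false

/-! Theorem F: the final statement. -/

namespace Pool.Agent.ThF

open Pool.Agent.Helper16 Pool.Agent.Helper16.BB Polynomial

variable {k : Type} [Field k] {σ : Type} [Finite σ]

/-- Rational functions in `s` with constant coefficients. -/
theorem ev_mem_adjoin (F : (AlgebraicClosure k)[X]) (s : AlgebraicClosure (RatFunc k)) :
    ev F s ∈ IntermediateField.adjoin (algebraicClosure k (AlgebraicClosure (RatFunc k))) {s} := by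
  have h1 : ∀ c : AlgebraicClosure k, jc k c ∈
      IntermediateField.adjoin (algebraicClosure k (AlgebraicClosure (RatFunc k))) {s} := by
    intro c
    have h2 : jc k c ∈ algebraicClosure k (AlgebraicClosure (RatFunc k)) :=
      ((Algebra.IsAlgebraic.isAlgebraic c).algHom (jc k)).isIntegral
    exact (IntermediateField.adjoin (algebraicClosure k (AlgebraicClosure (RatFunc k)))
      {s}).algebraMap_mem ⟨jc k c, h2⟩
  have h3 : s ∈ IntermediateField.adjoin (algebraicClosure k (AlgebraicClosure (RatFunc k))) {s} :=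
    IntermediateField.subset_adjoin _ _ rfl
  rw [ev, eval₂_eq_sum_range]
  exact sum_mem fun i _ => mul_mem (h1 _) (pow_mem h3 _)

theorem IsRt.tt_mem {A B : (AlgebraicClosure k)[X]} {s : AlgebraicClosure (RatFunc k)}
    (h : IsRt A B s) : tt k (AlgebraicClosure (RatFunc k)) ∈
      IntermediateField.adjoin (algebraicClosure k (AlgebraicClosure (RatFunc k))) {s} := by
  have h1 : tt k (AlgebraicClosure (RatFunc k)) = ev A s / ev B s := by
    rw [eq_div_iff h.1, h.2]
  rw [h1]
  exact div_mem (ev_mem_adjoin A s) (ev_mem_adjoin B s)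

theorem main [Finite k] {I : Set (MvPolynomial σ (RatFunc k))}
    (hI : ∀ P ∈ I, ∃ d, P.IsHomogeneous d)
    {L : Type} [Field L] [Algebra k L] [Algebra (RatFunc k) (RatFunc L)]
    [IsScalarTower k (RatFunc k) (RatFunc L)]
    (hL : tt k (RatFunc L) ∉ Set.range (algebraMap L (RatFunc L)))
    (ξ : σ → RatFunc L) (hξ : IsPoint (wOne σ) I ξ)
    (hgen : ∀ P : MvPolynomial σ (RatFunc k), (∃ d, P.IsHomogeneous d) →
      MvPolynomial.aeval ξ P = 0 → ∀ x : σ → AlgebraicClosure (RatFunc k),
        IsPoint (wOne σ) I x → MvPolynomial.aeval x P = 0) :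
    Module.Finite ℚ (A0 (wOne σ) I) ∧
    ∃ S : Finset (σ → AlgebraicClosure (RatFunc k)),
      (∀ y ∈ S, IsPoint (wOne σ) I y ∧ ∃ s : AlgebraicClosure (RatFunc k),
        tt k (AlgebraicClosure (RatFunc k)) ∈
          IntermediateField.adjoin (algebraicClosure k (AlgebraicClosure (RatFunc k))) {s} ∧
        ∀ j, y j ∈
          IntermediateField.adjoin (algebraicClosure k (AlgebraicClosure (RatFunc k))) {s}) ∧
      cycles (wOne σ) I ≤ ratEquiv (wOne σ) I ⊔ Finsupp.supported ℚ ℚ (S : Set _) := by
  classical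
  obtain ⟨n, D, hspan⟩ := exists_goodSet hI hL ξ hξ hgen
  have hfin := finite_goodSet hI n D
  set V := Submodule.span ℚ (goodSet I n D) with hV
  have hVfin : Module.Finite ℚ V := Module.Finite.span_of_finite ℚ hfin
  -- all cycles have classes in V
  have hcyc : ∀ z ∈ cycles (wOne σ) I, (ratEquiv (wOne σ) I).mkQ z ∈ V := by
    intro z hz
    have h1 : z = ∑ x ∈ z.support, Finsupp.single x (z x) := z.sum_single.symm
    rw [h1]
    have h2 := mkQ_sum (w := wOne σ) (I := I) z.support (fun x => x) z
    rw [h2]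
    refine Submodule.sum_mem _ fun x hx => Submodule.smul_mem _ _ ?_
    exact hspan x ((Finsupp.mem_supported ℚ z).1 hz hx)
  refine ⟨?_, ?_⟩
  · -- finiteness
    let f : A0 (wOne σ) I →ₗ[ℚ] Quo (wOne σ) I :=
      Submodule.mapQ _ _ (cyclesZero (wOne σ) I).subtype le_rfl
    have hf : Function.Injective f := by
      rw [injective_iff_map_eq_zero]
      intro a ha
      obtain ⟨z, rfl⟩ := Submodule.mkQ_surjective _ a
      have h1 : (ratEquiv (wOne σ) I).mkQ z.1 = 0 := ha
      rw [← LinearMap.mem_ker, Submodule.ker_mkQ] at h1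
      exact (Submodule.Quotient.mk_eq_zero _).2 h1
    have hfV : ∀ x, f x ∈ V := by
      intro x
      obtain ⟨z, rfl⟩ := Submodule.mkQ_surjective _ x
      exact hcyc z.1 z.2.1
    let f' : A0 (wOne σ) I →ₗ[ℚ] V := f.codRestrict V hfV
    have hf' : Function.Injective f' := fun a b hab => hf (congrArg Subtype.val hab)
    exact Module.Finite.of_injective f' hf'
  · have hch : ∀ q : goodSet I n D, ∃ y : σ → AlgebraicClosure (RatFunc k),
        (IsPoint (wOne σ) I y ∧ ∃ s : AlgebraicClosure (RatFunc k),
        tt k (AlgebraicClosure (RatFunc k)) ∈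
          IntermediateField.adjoin (algebraicClosure k (AlgebraicClosure (RatFunc k))) {s} ∧
        ∀ j, y j ∈
          IntermediateField.adjoin (algebraicClosure k (AlgebraicClosure (RatFunc k))) {s}) ∧
        cls (wOne σ) I y = q.1 := by
      rintro ⟨q, A, B, Q, s, hA, hB, hQ, hs, hpt, rfl⟩
      exact ⟨_, ⟨hpt, s, hs.tt_mem, fun j => ev_mem_adjoin (Q j) s⟩, rfl⟩
    choose y hy hyq using hch
    have hfin' : Finite (goodSet I n D) := hfin
    have hfy : (Set.range y).Finite := Set.finite_range y
    refine ⟨hfy.toFinset, ?_, ?_⟩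
    · intro a ha
      rw [Set.Finite.mem_toFinset] at ha
      obtain ⟨q, rfl⟩ := ha
      exact hy q
    · intro z hz
      have h1 := hcyc z hz
      have h2 : V ≤ (Finsupp.supported ℚ ℚ (hfy.toFinset : Set (σ → AlgebraicClosure (RatFunc k)))).map
          (ratEquiv (wOne σ) I).mkQ := by
        rw [hV, Submodule.span_le]
        intro q hq
        refine ⟨Finsupp.single (y ⟨q, hq⟩) 1, ?_, hyq ⟨q, hq⟩⟩
        rw [SetLike.mem_coe, Finsupp.mem_supported]
        refine (Finset.coe_subset.2 Finsupp.support_single_subset).trans ?_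
        intro a ha
        simp only [Finset.coe_singleton, Set.mem_singleton_iff] at ha
        subst ha
        simp
      obtain ⟨z', hz', h3⟩ := h2 h1
      have h4 : z - z' ∈ ratEquiv (wOne σ) I := by
        rw [← Submodule.Quotient.mk_eq_zero]
        change (ratEquiv (wOne σ) I).mkQ (z - z') = 0
        rw [map_sub, h3, sub_self]
      have h5 : z = (z - z') + z' := by abel
      rw [h5]
      exact Submodule.add_mem_sup h4 hz'

end Pool.Agent.ThF
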